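import Pool.Agent.Lib.MP_990519_co.D.Res

namespace Pool.Agent.Lib.MP_990519_co.D

open Pool.Agent.Lib.MP_990519_co.Big Finset
open scoped Classical ComplexConjugate

theorem base1 {ι : Type} [Fintype ι] {D : ℕ} {f : (ι → ℕ) → ℂ} (hf : FD D f) :
    ∃ (B : Finset ι) (W : Submodule ℂ ((ι → ℕ) → ℂ)), B.card ≤ D ∧ FiniteDimensional ℂ W ∧
      Module.finrank ℂ W ≤ D ∧ (fun n => f (n + ind B)) ∈ W ∧
      (∀ g ∈ W, ∀ a : ι → ℕ, (fun n => g (n + a)) ∈ W) ∧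
      ∀ g ∈ W, ∀ s, s ∉ B → ∃ g' ∈ W, ∀ n, g n = g' (n + ind {s}) := by
  let P : Finset ι → Prop := fun B => ∃ W : Submodule ℂ ((ι → ℕ) → ℂ), FiniteDimensional ℂ W ∧
    B.card + Module.finrank ℂ W ≤ D ∧ (fun n => f (n + ind B)) ∈ W ∧
      ∀ g ∈ W, ∀ a : ι → ℕ, (fun n => g (n + a)) ∈ W
  have h0 : P ∅ := by
    obtain ⟨W, h1, h2, h3, h4⟩ := hf
    exact ⟨W, h1, by simpa using h2, h4 f h3 _, h4⟩
  obtain ⟨B, hB, hm⟩ := exists_max_image (univ.filter P) card ⟨∅, mem_filter.2 ⟨mem_univ _, h0⟩⟩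
  obtain ⟨W, h1, h2, h3, h4⟩ := (mem_filter.1 hB).2
  refine ⟨B, W, by omega, h1, by omega, h3, h4, fun g hg s hs => ?_⟩
  let T : ((ι → ℕ) → ℂ) →ₗ[ℂ] (ι → ℕ) → ℂ := LinearMap.funLeft ℂ ℂ fun n => n + ind {s}
  have h5 : W.map T ≤ W := by
    rintro _ ⟨g, hg, rfl⟩
    exact h4 g hg _
  have h6 : W.map T = W := by
    by_contra hne
    have h7 := Submodule.finrank_lt_finrank_of_lt (lt_of_le_of_ne h5 hne)
    have h8 : P (insert s B) := by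
      refine ⟨W.map T, inferInstance, by rw [card_insert_of_notMem hs]; omega,
        ⟨_, h3, funext fun n => ?_⟩, ?_⟩
      · rw [insert_eq, ind_union (disjoint_singleton_left.2 hs), ← add_assoc]
        rfl
      · rintro _ ⟨g, hg, rfl⟩ a
        exact ⟨_, h4 g hg a, funext fun n => congrArg g (add_right_comm n _ a)⟩
    have h9 := hm _ (mem_filter.2 ⟨mem_univ _, h8⟩)
    rw [card_insert_of_notMem hs] at h9
    omega
  obtain ⟨g', h7, rfl⟩ := h6.ge hg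
  exact ⟨g', h7, fun _ => rfl⟩

theorem base {ι η : Type} [Fintype ι] [Fintype η] {D : ℕ} {f : (ι → ℕ) → ℂ} (hf : FD D f)
    (hc : D + Fintype.card η ≤ Fintype.card ι) :
    ∃ (e : η ↪ ι) (B : Finset ι), (∀ s, e s ∉ B) ∧ FDS D (fun n => f (ind B + xt e n)) := by
  obtain ⟨B, W, h0, h1, h2, h3, h4, h5⟩ := base1 hf
  obtain ⟨e, he⟩ := Function.Embedding.exists_of_card_le_finset (α := η) (s := Bᶜ)
    (by rw [card_compl]; omega)
  have h6 : ∀ s, e s ∉ B := fun s => mem_compl.1 (he ⟨s, rfl⟩)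
  let T : ((ι → ℕ) → ℂ) →ₗ[ℂ] (η → ℕ) → ℂ := LinearMap.funLeft ℂ ℂ (xt e)
  refine ⟨e, B, h6, W.map T, inferInstance, (Submodule.finrank_map_le T W).trans h2,
    ⟨_, h3, funext fun n => congrArg f (add_comm _ _)⟩, ?_, ?_⟩
  · rintro _ ⟨g, hg, rfl⟩ a
    exact ⟨_, h4 g hg (xt e a), funext fun n => congrArg g (xt_add e n a).symm⟩
  · rintro _ ⟨g, hg, rfl⟩ s
    obtain ⟨g', h7, h8⟩ := h5 g hg (e s) (h6 s)
    refine ⟨T g', ⟨g', h7, rfl⟩, fun n => (h8 _).trans (congrArg g' ?_)⟩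
    rw [xt_add, xt_ind, map_singleton]

end Pool.Agent.Lib.MP_990519_co.D
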