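import Pool.Agent.Lib.MP_990519_co.D.Res

namespace Pool.Agent.Lib.MP_990519_co.D

open Pool.Agent.Lib.MP_990519_co.Big Finset
open scoped Classical ComplexConjugate

/-- One block: among the `14 ^ card κ + 1` initial products `u j a = ∏_{s < j} l a s` two have the
same colour `a ↦ ⌊2 * arg (u j a)⌋ ∈ [-7, 6]`; take `z = log (u j' a) - log (u j a)`. -/
lemma one_block {κ : Type} [Fintype κ] (l : κ → ℕ → ℂ) (hl : ∀ a s, l a s ≠ 0) :
    ∃ j j' : ℕ, j < j' ∧ j' ≤ 14 ^ Fintype.card κ ∧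
      ∀ a, ∃ z : ℂ, |z.im| ≤ 1 / 2 ∧ Complex.exp z = ∏ s ∈ Finset.Ico j j', l a s := by
  have hu : ∀ j a, ∏ s ∈ range j, l a s ≠ 0 := fun j a => prod_ne_zero_iff.2 fun s _ => hl a s
  obtain ⟨j, hj, j', hj', hne, he⟩ := Finset.exists_ne_map_eq_of_card_lt_of_maps_to
    (s := range (14 ^ Fintype.card κ + 1)) (t := Fintype.piFinset fun _ : κ => Icc (-7 : ℤ) 6)
    (f := fun j a => ⌊2 * Complex.arg (∏ s ∈ range j, l a s)⌋) (by simp) (fun j _ => by
      simp only [mem_coe, Fintype.mem_piFinset, mem_Icc]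
      intro a
      have h1 := Complex.neg_pi_lt_arg (∏ s ∈ range j, l a s)
      have h2 := Complex.arg_le_pi (∏ s ∈ range j, l a s)
      have h3 := Real.pi_lt_d2
      refine ⟨Int.le_floor.2 (by push_cast; linarith), Int.le_of_lt_add_one (Int.floor_lt.2 ?_)⟩
      push_cast; linarith)
  wlog hlt : j < j' generalizing j j'
  · exact this j' hj' j hj hne.symm he.symm (by omega)
  refine ⟨j, j', hlt, by simpa [Nat.lt_succ_iff] using hj', fun a =>
    ⟨Complex.log (∏ s ∈ range j', l a s) - Complex.log (∏ s ∈ range j, l a s), ?_, ?_⟩⟩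
  · have := abs_lt.1 (Int.abs_sub_lt_one_of_floor_eq_floor (congrFun he a))
    rw [Complex.sub_im, Complex.log_im, Complex.log_im, abs_le]
    constructor <;> linarith [this.1, this.2]
  · rw [Complex.exp_sub, Complex.exp_log (hu _ _), Complex.exp_log (hu _ _),
      ← prod_range_mul_prod_Ico _ hlt.le, mul_div_cancel_left₀ _ (hu _ _)]

/-- Paper 3.3 (f). Embed `Fin 4 × Fin (14 ^ card κ)` in `ι` and take one block in each layer. -/
theorem blocks {κ ι : Type} [Fintype κ] [Fintype ι]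
    (hc : 4 * 14 ^ Fintype.card κ ≤ Fintype.card ι) (l : κ → ι → ℂ) (hl : ∀ a s, l a s ≠ 0) :
    ∃ idx : ι → Fin 3 ⊕ Fin 4, Onto idx ∧ Only0 idx ∧
      ∀ a e, ∃ z : ℂ, |z.im| ≤ 1 / 2 ∧ Complex.exp z = blkc idx l a e := by
  generalize hN : 14 ^ Fintype.card κ = N at hc
  obtain ⟨u⟩ : Nonempty (Fin 4 × Fin N ↪ ι) :=
    Function.Embedding.nonempty_of_card_le (by simpa using hc)
  choose j j' hlt hle hz using fun e : Fin 4 => one_block
    (fun a s => if h : s < N then l a (u (e, ⟨s, h⟩)) else 1)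
    (fun a s => by split_ifs; exacts [hl _ _, one_ne_zero])
  rw [hN] at hle
  let idx : ι → Fin 3 ⊕ Fin 4 := fun i =>
    if h : ∃ x : Fin 4 × Fin N, u x = i ∧ j x.1 ≤ x.2 ∧ x.2 < j' x.1 then Sum.inr h.choose.1
    else Sum.inl 0
  have key : ∀ i e, idx i = Sum.inr e ↔ ∃ s : Fin N, u (e, s) = i ∧ j e ≤ s ∧ s < j' e := by
    intro i e
    constructor
    · intro h
      simp only [idx] at h
      split_ifs at h with h1
      obtain rfl := Sum.inr.inj h
      exact ⟨h1.choose.2, h1.choose_spec⟩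
    · rintro ⟨s, hs⟩
      have h1 : ∃ x : Fin 4 × Fin N, u x = i ∧ j x.1 ≤ x.2 ∧ x.2 < j' x.1 := ⟨(e, s), hs⟩
      simp only [idx, dif_pos h1, u.injective (h1.choose_spec.1.trans hs.1.symm)]
  refine ⟨idx, fun e => ⟨u (e, ⟨j e, (hlt e).trans_le (hle e)⟩),
    (key _ _).2 ⟨_, rfl, le_rfl, hlt e⟩⟩, fun i c h => ?_, fun a e => ?_⟩
  · simp only [idx] at h
    split_ifs at h
    exact (Sum.inl.inj h).symm
  · obtain ⟨z, h1, h2⟩ := hz e a
    refine ⟨z, h1, h2.trans ?_⟩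
    refine Finset.prod_bij (fun s hs => u (e, ⟨s, (mem_Ico.1 hs).2.trans_le (hle e)⟩))
      (fun s hs => by
        simp only [mem_filter, mem_univ, true_and]
        exact (key _ _).2 ⟨_, rfl, mem_Ico.1 hs⟩)
      (fun s _ t _ h => by simpa using h) (fun i hi => ?_)
      fun s hs => dif_pos ((mem_Ico.1 hs).2.trans_le (hle e))
    simp only [mem_filter, mem_univ, true_and] at hi
    obtain ⟨s, hs⟩ := (key _ _).1 hi
    exact ⟨s, mem_Ico.2 hs.2, hs.1⟩

/-- New polynomial: `C (∏_{idx i = inl c} l a i) * bind₁ (i ↦ Sum.elim (C 1 or C 0) X (idx i)) Q`;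
split `∏ i` along the fibres of `idx` (`Finset.prod_fiberwise`, `Fintype.prod_sum_type`). -/
theorem EPW.rn {κ ι η : Type} [Fintype κ] [Fintype ι] [Fintype η] {l : κ → ι → ℂ}
    {f : (ι → ℕ) → ℂ} (h : EPW l f) (idx : ι → Fin 3 ⊕ η) (c : Fin 3) :
    EPW (blkc idx l) (Rn idx c f) := by
  obtain ⟨Q, hQ⟩ := h
  refine ⟨fun a => MvPolynomial.C (∏ i ∈ univ.filter (fun i => idx i = Sum.inl c), l a i) *
    MvPolynomial.bind₁ (fun i => Sum.elim (fun c' => if c' = c then 1 else 0) MvPolynomial.X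
      (idx i)) (Q a), fun n => ?_⟩
  rw [Rn, hQ]
  refine Finset.sum_congr rfl fun a _ => ?_
  have e1 : ∏ i, l a i ^ argn idx c n i = (∏ s, blkc idx l a s ^ n s) *
      ∏ i ∈ univ.filter (fun i => idx i = Sum.inl c), l a i := by
    simp only [blkc, ← Finset.prod_pow, Finset.prod_filter]
    rw [Finset.prod_comm, ← Finset.prod_mul_distrib]
    refine Finset.prod_congr rfl fun i _ => ?_
    simp only [argn]
    rcases idx i with c' | e
    · by_cases h : c' = c <;> simp [h]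
    · simp
  rw [e1, map_mul, MvPolynomial.eval_C, mul_assoc]
  congr 2
  rw [← MvPolynomial.coe_aeval_eq_eval, ← MvPolynomial.coe_aeval_eq_eval]
  simp only [RingHom.coe_coe, MvPolynomial.aeval_bind₁]
  congr 2
  funext i
  simp only [argn]
  rcases idx i with c' | e
  · by_cases h : c' = c <;> simp [h]
  · simp

theorem EP.rn {ι η : Type} [Fintype ι] [Fintype η] {D : ℕ} {f : (ι → ℕ) → ℂ} (h : EP D f)
    (idx : ι → Fin 3 ⊕ η) (c : Fin 3) : EP D (Rn idx c f) := by
  obtain ⟨l, hl, hw⟩ := h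
  exact ⟨blkc idx l, fun a s => prod_ne_zero_iff.2 fun i _ => hl a i, hw.rn idx c⟩

end Pool.Agent.Lib.MP_990519_co.D
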