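import Pool.Agent.Lib.MP_990519_co.D.FA

namespace Pool.Agent.Lib.MP_990519_co.D

open Pool.Agent.Lib.MP_990519_co.Big Finset
open scoped Classical ComplexConjugate

variable {p P : RR} {e : Fin 3 → RR}

/-- Let `a ≥ 0` be the top and `b ≤ 0` the bottom of `p`; `ν = a - b` is the top of `p * sr p`,
with coefficient `p.coeff a * cjP (p.coeff b)`. If `a > 0 > b` both `p` and `sr p` vanish at `ν`;
if `b = 0` the degree is `deg (p.coeff ν) + deg (p.coeff 0)` (`MvPolynomial.totalDegree_mul_of_isDomain`);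
same for `a = 0`. -/
theorem top_third (hp : Im0 p) (hs : ∃ ν, ν ≠ 0 ∧ p.coeff ν ≠ 0)
    (hd : 0 < (p.coeff 0).totalDegree) :
    ∃ ν, 0 < ν ∧ cjX ν = -ν ∧ (Lr p 2).coeff ν ≠ 0 ∧ (∀ c l, (Lr p c).coeff l ≠ 0 → l ≤ ν) ∧
      ∀ c, c ≠ 2 → (Lr p c).coeff ν = 0 ∨
        ((Lr p c).coeff ν).totalDegree < ((Lr p 2).coeff ν).totalDegree := by
  obtain ⟨ν0, hν0, hc0⟩ := hs
  have h0 : p.coeff 0 ≠ 0 := fun h => by rw [h] at hd; simp at hd
  have hp0 : p ≠ 0 := fun h => hc0 (by rw [h]; rfl)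
  obtain ⟨a, ha⟩ := exists_top hp0
  obtain ⟨b, hb⟩ := exists_bot hp0
  have a0 : 0 ≤ a := ha.2 0 h0
  have b0 : b ≤ 0 := hb.2 0 h0
  have hab : b < a := by
    rcases hν0.lt_or_gt with h | h
    · exact ((hb.2 _ hc0).trans_lt h).trans_le a0
    · exact b0.trans_lt (h.trans_le (ha.2 _ hc0))
  obtain ⟨ht, hco⟩ := ha.mul (hp.top_sr hb)
  rw [hp.coeff_sr, neg_neg] at hco
  have hdeg : ((Lr p 2).coeff (a + -b)).totalDegree =
      (p.coeff a).totalDegree + (p.coeff b).totalDegree := by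
    rw [Lr_two, hco, MvPolynomial.totalDegree_mul_of_isDomain ha.1 (mt cjP_eq_zero.1 hb.1),
      totalDegree_cjP]
  refine ⟨a + -b, by rw [← sub_eq_add_neg]; exact sub_pos.2 hab, hp.lr 2 _ ht.1, ht.1,
    fun c l hl => ?_, fun c hc => ?_⟩
  · fin_cases c
    · exact (ha.2 l hl).trans (le_add_of_nonneg_right (neg_nonneg.2 b0))
    · exact ((hp.top_sr hb).2 l hl).trans (le_add_of_nonneg_left a0)
    · exact ht.2 l hl
  · rw [hdeg]
    fin_cases c
    · rcases b0.lt_or_eq with h | h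
      · exact Or.inl (by_contra fun h1 =>
          (lt_add_of_pos_right a (neg_pos.2 h)).not_ge (ha.2 _ h1))
      · right
        change (p.coeff (a + -b)).totalDegree < _
        rw [h, neg_zero, add_zero]
        omega
    · rcases a0.lt_or_eq with h | h
      · exact Or.inl (by_contra fun h1 =>
          (lt_add_of_pos_left (-b) h).not_ge ((hp.top_sr hb).2 _ h1))
      · right
        change ((sr p).coeff (a + -b)).totalDegree < _
        rw [← h, zero_add, hp.coeff_sr, neg_neg, totalDegree_cjP]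
        omega
    · exact absurd rfl hc

/-- (**) at `ν = 0`, for `j` minus for `0`, when `P.coeff 0` is constant; `exists_shift`,
`inj_real` -/
theorem CD.poly_rel (h : CD p P e) {z : ℂ} (hz : P.coeff 0 = MvPolynomial.C z) (j : Pt) :
    ∃ Q : Pol, K (pe j (p.coeff 0) - pe 0 (p.coeff 0)) * e 0 +
      K (conj (pe j (p.coeff 0) - pe 0 (p.coeff 0))) * e 1 = KP Q * e 2 := by
  obtain ⟨Q', hQ'⟩ := exists_shift ((Lr P 2).coeff 0) j
  refine ⟨Q' - (Lr P 2).coeff 0 -
    MvPolynomial.C (pe j ((Lr p 2).coeff 0) - pe 0 ((Lr p 2).coeff 0)), ?_⟩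
  rw [← sub_eq_zero]
  refine inj_real fun m => ?_
  have h1 := h.star2 0 m j
  have h2 := h.star2 0 m 0
  simp only [ex_zero_left, one_mul, Fin.sum_univ_three, neg_zero, Lr_zero, Lr_one, coeff_sr,
    map_zero, hz, cjP_C, pe_C, pe_cjP, sub_zero] at h1 h2
  simp only [map_sub, map_add, map_mul, ev_K, ev_KP, pe_C, hQ']
  linear_combination h1 - h2

/-- Step 2. Suppose `0 < deg (p.coeff 0)`; `ν` from `top_third`, `α = (0, 0, a)` in `factA`.
If also `0 < deg (P.coeff 0)`, apply `top_third` to `P` (`sig_ne`); its `ν'` equals `ν` (`sig`,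
`Im0.lr_neg`, maximality), the coefficients of `Lr P` at `-ν` are the conjugates of those at `ν`
(`Im0.coeff_sr`, indices 0 and 1 exchanged), so `β = (0, 0, b)`, parallel. Otherwise take `j` from
`exists_ne_of_deg`, `c ≠ 0`, `poly_rel`; `wlem` and `e 2 ≠ 0` give
`K c * W 0 + K (conj c) * W 1 = KP Q * W 2`, `W 2 = K (|β 0|^2 - |β 1|^2)`; the coefficient at `ν`
(`three_coeff`) gives `c conj (β 0) = conj c conj (β 1)`, so `W 2 = 0`, so `W 0 = 0`, so
`β 0 = 0 = β 1`: parallel. -/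
theorem CD.step2 (h : CD p P e) (hp : Im0 p) (hP : Im0 P) (hs : ∃ ν, ν ≠ 0 ∧ p.coeff ν ≠ 0) :
    ∃ z, p.coeff 0 = MvPolynomial.C z := by
  by_contra hcon
  have hd : 0 < (p.coeff 0).totalDegree := Nat.pos_of_ne_zero fun h0 =>
    hcon ⟨_, MvPolynomial.totalDegree_eq_zero_iff_eq_C.1 h0⟩
  obtain ⟨ν, hν, iν, hc, hmax, hlow⟩ := top_third hp hs hd
  obtain ⟨α, β, hrel, hind, hα, hβ⟩ := h.factA hν.ne' ⟨2, Or.inl hc⟩
  have a0 : α 0 = 0 := hα 0 2 (hlow 0 (by decide))
  have a1 : α 1 = 0 := hα 1 2 (hlow 1 (by decide))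
  have a2 : α 2 ≠ 0 := fun a2 =>
    one_ne_zero (hind 1 0 (by funext c; fin_cases c <;> simp [a0, a1, a2])).1
  have fin : β 0 = 0 → β 1 = 0 → False := fun b0 b1 =>
    a2 (hind (β 2) (α 2) (by funext c; fin_cases c <;> simp [a0, a1, b0, b1, mul_comm])).2
  by_cases hd' : 0 < (P.coeff 0).totalDegree
  · obtain ⟨ν', hν', -, hc', hmax', hlow'⟩ := top_third hP (h.sig_ne hs) hd'
    have e : ν' = ν := by
      apply le_antisymm
      · obtain ⟨c1, h1⟩ := hP.lr_neg hc'
        obtain ⟨c2, h2⟩ := h.symm.sig (neg_ne_zero.2 hν'.ne') h1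
        rw [neg_neg] at h2; exact hmax _ _ h2
      · obtain ⟨c1, h1⟩ := h.sig hν.ne' hc
        obtain ⟨c2, h2⟩ := hP.lr_neg h1
        rw [neg_neg] at h2; exact hmax' _ _ h2
    subst e
    have e0 : (Lr P 1).coeff ν' = cjP ((Lr P 0).coeff (-ν')) := hP.coeff_sr _
    have e1 : (Lr P 0).coeff ν' = cjP ((Lr P 1).coeff (-ν')) := by
      rw [Lr_one, hP.coeff_sr, neg_neg, cjP_cjP, Lr_zero]
    have e2 : (Lr P 2).coeff ν' = cjP ((Lr P 2).coeff (-ν')) := by
      rw [← (hP.lr 2).coeff_sr, Lr_two, map_mul, sr_sr, mul_comm]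
    apply fin
    · have := hlow' 1 (by decide)
      rw [e0, e2, cjP_eq_zero, totalDegree_cjP, totalDegree_cjP] at this
      exact hβ 0 2 this
    · have := hlow' 0 (by decide)
      rw [e1, e2, cjP_eq_zero, totalDegree_cjP, totalDegree_cjP] at this
      exact hβ 1 2 this
  · have hz := MvPolynomial.totalDegree_eq_zero_iff_eq_C.1 (Nat.eq_zero_of_not_pos hd')
    obtain ⟨j, hj⟩ := exists_ne_of_deg hd
    obtain ⟨Q, hQ⟩ := h.poly_rel hz j
    have hc0 := sub_ne_zero.2 hj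
    generalize pe j (p.coeff 0) - pe 0 (p.coeff 0) = c at hQ hc0
    have e2 := n1_ne h.n1 2
    have w := wlem h.s0 h.s2 iν hrel
    have k : K c * Wv ν α β 0 + K (conj c) * Wv ν α β 1 = KP Q * Wv ν α β 2 := by
      apply mul_left_cancel₀ e2
      linear_combination K c * w 2 0 + K (conj c) * w 2 1 + Wv ν α β 2 * hQ
    have w2 : Wv ν α β 2 = K (β 0 * conj (β 0) - β 1 * conj (β 1)) := by
      simp [Wv, cross_apply, sv, a0, a1]
    have w0 : (Wv ν α β 0).coeff ν = MvPolynomial.C (α 2 * conj (β 0)) := by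
      rw [Wv, (three_coeff hν.ne' _ _ _).2.1]
      simp [cross_apply, sv, a1]
    have w1 : (Wv ν α β 1).coeff ν = -MvPolynomial.C (α 2 * conj (β 1)) := by
      rw [Wv, (three_coeff hν.ne' _ _ _).2.1]
      simp [cross_apply, sv, a0]
    have k1 := congrArg (fun F : RR => pe 0 (F.coeff ν)) k
    simp only [coeff_add', coeff_K_mul, coeff_KP_mul, w0, w1, w2, coeff_K, if_neg hν.ne',
      mul_zero, map_add, map_mul, map_neg, pe_C, map_zero] at k1
    have k2 : c * conj (β 0) = conj c * conj (β 1) := by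
      apply mul_left_cancel₀ a2
      linear_combination k1
    have k3 := congrArg conj k2
    simp only [map_mul, Complex.conj_conj] at k3
    have k4 : β 0 * conj (β 0) - β 1 * conj (β 1) = 0 := by
      apply mul_left_cancel₀ (mul_ne_zero hc0 ((map_ne_zero (starRingEnd ℂ)).2 hc0))
      linear_combination conj c * β 0 * k2 + conj c * conj (β 1) * k3
    rw [k4, map_zero] at w2
    have z : ∀ i, Wv ν α β i = 0 := fun i => by
      have := w 2 i
      rw [w2, mul_zero] at this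
      exact (mul_eq_zero.1 this).resolve_left e2
    rw [z, coeff_zero'] at w0 w1
    have b0 := congrArg (pe 0) w0
    have b1 := congrArg (pe 0) w1
    rw [map_zero, pe_C] at b0
    rw [map_zero, map_neg, pe_C] at b1
    exact fin (by simpa [a2] using b0) (by simpa [a2] using b1)

end Pool.Agent.Lib.MP_990519_co.D
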