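import Pool.Agent.Lib.MP_990519_co.D.FA

namespace Pool.Agent.Lib.MP_990519_co.D

open Pool.Agent.Lib.MP_990519_co.Big Finset
open scoped Classical ComplexConjugate

variable {p P : RR} {e : Fin 3 → RR}

/-- Step 3. (**) at `ν = 0` with `m = j + n` and the point `j + s • v` is a polynomial identity in
`s`; its coefficient of `s ^ (2 d - 1)` reads `ev (j + n) (e 2) * (A j - B n) = 0` with
`A j = (lc j v ((Lr p 2).coeff 0)).coeff (2 d - 1)`, `B n = (lc n (-v) ((Lr P 2).coeff 0)).coeff
(2 d - 1)` (`coeff_sr`, `lc_cjP` for the entries of index 1). Take `x` from `two_ne` for `e 2` and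
`v`, `n = x - j`: `A j = B n = A (j + v)`. `lc_shift`, `taylor_one_coeff` give that the
coefficient of `s ^ (2 d)` of `lc j v ((Lr p 2).coeff 0)` is zero; by `Im0.coeff_zero_mul` and
`Polynomial.coeff_mul_of_natDegree_le` it is `∑ l, normSq ((lc j v (p.coeff l)).coeff d)`. -/
theorem CD.step3core (h : CD p P e) (hp : Im0 p) (v : Pt) {d : ℕ} (hd : 1 ≤ d)
    (h1 : ∀ l j, (lc j v (p.coeff l)).natDegree ≤ d)
    (h2 : ∀ j, (lc j v (p.coeff 0)).natDegree < 2 * d - 1)
    (h3 : ∀ n, (lc n (-v) (P.coeff 0)).natDegree < 2 * d - 1) (l : Ex) (j : Pt) :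
    (lc j v (p.coeff l)).coeff d = 0 := by
  obtain ⟨x, hx, hx'⟩ := two_ne (n1_ne h.n1 2) v
  have key : ∀ j n, ev (j + n) (e 2) * ((lc j v ((Lr p 2).coeff 0)).coeff (2 * d - 1) -
      (lc n (-v) ((Lr P 2).coeff 0)).coeff (2 * d - 1)) = 0 := by
    intro j n
    have hq : ∑ c, Polynomial.C (ev (j + n) (e c)) * lc j v ((Lr p c).coeff 0) -
        ∑ c, Polynomial.C (ev (j + n) (e c)) * lc n (-v) ((Lr P c).coeff 0) = 0 :=
      poly_eq_zero_of_real fun s => by
        have := h.star2 0 (j + n) (j + s • v)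
        rw [show j + n - (j + s • v) = n + s • -v by module] at this
        simp only [Fin.sum_univ_three, Polynomial.eval_sub, Polynomial.eval_mul,
          Polynomial.eval_add, Polynomial.eval_C, lc_eval, ex_zero_left, neg_zero] at this ⊢
        linear_combination this
    have := congrArg (fun q : Polynomial ℂ => q.coeff (2 * d - 1)) hq
    simp only [Fin.sum_univ_three, Polynomial.coeff_sub, Polynomial.coeff_add,
      Polynomial.coeff_C_mul, Polynomial.coeff_zero, Lr_zero, Lr_one, coeff_sr, map_zero, lc_cjP,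
      Polynomial.coeff_map, Polynomial.coeff_eq_zero_of_natDegree_lt (h2 j),
      Polynomial.coeff_eq_zero_of_natDegree_lt (h3 n)] at this
    linear_combination this
  have k1 := key j (x - j)
  have k2 := key (j + v) (x - j)
  rw [add_sub_cancel] at k1
  rw [show j + v + (x - j) = x + v by abel] at k2
  replace k1 := sub_eq_zero.1 ((mul_eq_zero.1 k1).resolve_left hx)
  replace k2 := sub_eq_zero.1 ((mul_eq_zero.1 k2).resolve_left hx')
  have hq : lc j v ((Lr p 2).coeff 0) = ∑ l ∈ p.coeff.support,
      lc j v (p.coeff l) * (lc j v (p.coeff l)).map (starRingEnd ℂ) := by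
    simp only [Lr_two, hp.coeff_zero_mul, map_sum, map_mul, lc_cjP]
  have hd2 : 2 * d - 1 + 1 = d + d := by omega
  have hdeg : (lc j v ((Lr p 2).coeff 0)).natDegree ≤ 2 * d - 1 + 1 := by
    rw [hq, hd2]
    exact Polynomial.natDegree_sum_le_of_forall_le _ _ fun l _ => Polynomial.natDegree_mul_le.trans
      (add_le_add (h1 l j) (Polynomial.natDegree_map_le.trans (h1 l j)))
  rw [lc_shift, taylor_one_coeff hdeg, ← k1, add_eq_left, mul_eq_zero] at k2
  have k3 := k2.resolve_left (Nat.cast_add_one_ne_zero _)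
  rw [hq, hd2, Polynomial.finsetSum_coeff] at k3
  have k4 : ∑ l ∈ p.coeff.support, Complex.normSq ((lc j v (p.coeff l)).coeff d) = 0 := by
    rw [← Complex.ofReal_eq_zero, ← k3, Complex.ofReal_sum]
    refine Finset.sum_congr rfl fun l _ => ?_
    rw [Polynomial.coeff_mul_add_eq_of_natDegree_le (h1 l j)
      (Polynomial.natDegree_map_le.trans (h1 l j)), Polynomial.coeff_map, Complex.mul_conj]
  by_cases hl : p.coeff l = 0
  · simp [hl]
  · exact Complex.normSq_eq_zero.1 ((Finset.sum_eq_zero_iff_of_nonneg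
      fun _ _ => Complex.normSq_nonneg _).1 k4 l (Finsupp.mem_support_iff.2 hl))

lemma deg_bound (F : RR) : ∃ d, ∀ l j v, (lc j v (F.coeff l)).natDegree ≤ d := by
  refine ⟨F.coeff.support.sup fun l => (F.coeff l).totalDegree, fun l j v => ?_⟩
  by_cases hl : F.coeff l = 0
  · simp [hl]
  · exact (lc_natDegree_le j v _).trans (Finset.le_sup (f := fun l => (F.coeff l).totalDegree)
      (Finsupp.mem_support_iff.2 hl))

lemma natDegree_le_of_succ {q : Polynomial ℂ} {d : ℕ} (h : q.natDegree ≤ d + 1)
    (h0 : q.coeff (d + 1) = 0) : q.natDegree ≤ d := by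
  rcases h.lt_or_eq with h1 | h1
  · omega
  · have : q = 0 := Polynomial.leadingCoeff_eq_zero.1 (by rw [Polynomial.leadingCoeff, h1, h0])
    simp [this]

/-- downward induction on `d` from a bound for all total degrees, `const_of_lines` -/
theorem CD.step3cst (h : CD p P e) (hp : Im0 p) {z w : ℂ} (hz : p.coeff 0 = MvPolynomial.C z)
    (hw : P.coeff 0 = MvPolynomial.C w) : Cst p := by
  have key : ∀ v d, (∀ l j, (lc j v (p.coeff l)).natDegree ≤ d) →
      ∀ l j, (lc j v (p.coeff l)).natDegree ≤ 0 := by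
    intro v d
    induction d with
    | zero => exact fun h1 => h1
    | succ d ih =>
      refine fun h1 => ih fun l j => natDegree_le_of_succ (h1 l j)
        (h.step3core hp v (by omega) h1 (fun j => ?_) (fun j => ?_) l j)
      · rw [hz, lc_C, Polynomial.natDegree_C]; omega
      · rw [hw, lc_C, Polynomial.natDegree_C]; omega
  obtain ⟨d, hd⟩ := deg_bound p
  exact fun l => const_of_lines fun j v => key v d (fun l j => hd l j v) l j

/-- both `p` and `P` (`h.symm.sig_ne`) have only the exponent `0`; downward induction on `d ≥ 2`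
for `p` along `v` and `P` along `-v` together; `eq_KP`, `affine_of_lines` -/
theorem CD.caseA (h : CD p P e) (hs : ∀ l, p.coeff l ≠ 0 → l = 0) : CaseA p := by
  have hs' : ∀ l, P.coeff l ≠ 0 → l = 0 := fun l hl => by_contra fun h0 => by
    obtain ⟨ν, h1, h2⟩ := h.symm.sig_ne ⟨l, h0, hl⟩
    exact h1 (hs ν h2)
  have ip : Im0 p := fun l hl => by rw [hs l hl, map_zero, neg_zero]
  have iP : Im0 P := fun l hl => by rw [hs' l hl, map_zero, neg_zero]
  have key : ∀ v d, (∀ l j, (lc j v (p.coeff l)).natDegree ≤ d + 1) →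
      (∀ l j, (lc j (-v) (P.coeff l)).natDegree ≤ d + 1) →
      ∀ l j, (lc j v (p.coeff l)).natDegree ≤ 1 := by
    intro v d
    induction d with
    | zero => exact fun h1 _ => h1
    | succ d ih =>
      refine fun h1 h2 => ih (fun l j => natDegree_le_of_succ (h1 l j)
        (h.step3core ip v (by omega) h1 (fun j => ?_) (fun j => ?_) l j))
        fun l j => natDegree_le_of_succ (h2 l j)
          (h.symm.step3core iP (-v) (by omega) h2 (fun j => ?_) (fun j => ?_) l j)
      · have := h1 0 j; omega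
      · have := h2 0 j; omega
      · have := h2 0 j; omega
      · have := h1 0 j; rw [neg_neg]; omega
  obtain ⟨d, hd⟩ := deg_bound p
  obtain ⟨d', hd'⟩ := deg_bound P
  intro j a b
  rw [eq_KP hs]
  simp only [ev_KP]
  exact affine_of_lines (fun j v => key v (d + d') (fun l j => (hd l j v).trans (by omega))
    (fun l j => (hd' l j _).trans (by omega)) 0 j) j a b

end Pool.Agent.Lib.MP_990519_co.D
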