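import Pool.Agent.Lib.MP_990519_co.D.S4c

namespace Pool.Agent.Lib.MP_990519_co.D

open Pool.Agent.Lib.MP_990519_co.Big Finset
open scoped Classical ComplexConjugate

variable {p P : RR} {e : Fin 3 → RR}

lemma C4.act_im (h : C4 p P e) {l : Ex} (hact : co p l ≠ 0 ∨ co P l ≠ 0 ∨
    co (p * sr p) l ≠ 0 ∨ co (P * sr P) (-l) ≠ 0) : cjX l = -l := by
  rcases hact with h1 | h1 | h1 | h1
  · exact h.ip l ((h.cp.co_ne l).1 h1)
  · exact h.iP l ((h.cP.co_ne l).1 h1)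
  · exact h.ip.lr 2 l (((h.cp.lr 2).co_ne l).1 h1)
  · have := h.iP.lr 2 (-l) (((h.cP.lr 2).co_ne (-l)).1 h1)
    rwa [map_neg, neg_inj] at this

lemma C4.four (h : C4 p P e) {ν : Ex} (hp : Pos p ν) (hP : Pos P ν) {l : Ex} (hl : 0 < l)
    (hlν : l < ν) (hact : co p l ≠ 0 ∨ co P l ≠ 0 ∨ co (p * sr p) l ≠ 0 ∨
      co (P * sr P) (-l) ≠ 0) (h2 : l + l ≠ ν) : co p l ≠ 0 ∧ co (P * sr P) (-l) ≠ 0 := by
  obtain ⟨κ, hκ, -, su, rel⟩ := h.kappa hp hP
  have := act_ne (n1_ne h.n1 1) (n1_ne h.n1 2) h.s2 hκ hl hlν (h.act_im hact) (h.ip ν hp.1) su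
    (rel l hl) hact h2
  exact ⟨this.1, this.2.2.2⟩

lemma C4.uniq4 (h : C4 p P e) {ν : Ex} (hp : Pos p ν) (hP : Pos P ν) {l l' : Ex} (hl : 0 < l)
    (hlν : l < ν) (hl' : 0 < l') (hlν' : l' < ν) (f : co p l ≠ 0 ∧ co (P * sr P) (-l) ≠ 0)
    (f' : co p l' ≠ 0 ∧ co (P * sr P) (-l') ≠ 0) : l = l' := by
  obtain ⟨κ, hκ, -, -, rel⟩ := h.kappa hp hP
  have k0 : κ ≠ 0 := left_ne_zero_of_mul_eq_one hκ
  exact act_uniq (n1_ne h.n1 1) (n1_ne h.n1 2) hl hlν hl' hlν' (rel l hl) (rel l' hl')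
    (mul_ne_zero f.1 k0) f.2 (mul_ne_zero f'.1 k0) f'.2

lemma Pos.top {F : RR} {ν : Ex} (h : Pos F ν) : IsTop F ν := ⟨h.1, fun m hm => (h.2 m hm).2⟩

/-- Call `l` active if `0 < l < ν` and one of `co p l, co P l, co (p * sr p) l, co (P * sr P) (-l)`
is not zero; it is then imaginary (`Im0`). By `act_ne`, `act_uniq` two active exponents with
`l + l ≠ ν` are equal. If the bottom `l0` of `p` is below `ν`, then `l0` and `ν - l0` are active
(`IsTop.mul`: the coefficient of `p * sr p` at `ν - l0` is `p_ν conj p_l0`), so `l0 + l0 = ν`. -/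
theorem C4.half (h : C4 p P e) {ν : Ex} (hp : Pos p ν) (hP : Pos P ν) {l0 : Ex}
    (hb : IsBot p l0) (hlt : l0 < ν) : l0 + l0 = ν := by
  by_contra h2
  have hl0 := (hp.2 _ hb.1).1
  have ht := (hp.top.mul (h.ip.top_sr hb)).1.1
  have p1 : 0 < ν + -l0 := by rw [← sub_eq_add_neg]; exact sub_pos.2 hlt
  have p2 : ν + -l0 < ν := by rw [← sub_eq_add_neg]; exact sub_lt_self _ hl0
  have f1 := h.four hp hP hl0 hlt (Or.inl ((h.cp.co_ne _).2 hb.1)) h2
  have f2 := h.four hp hP p1 p2 (Or.inr (Or.inr (Or.inl (((h.cp.lr 2).co_ne _).2 ht))))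
    (fun h3 => h2 (by rw [← sub_eq_zero] at h3 ⊢; rw [← neg_eq_zero, ← h3]; abel))
  have := h.uniq4 hp hP hl0 hlt p1 p2 f1 f2
  exact h2 (by nth_rw 1 [this]; abel)

lemma three_of_single {F : RR} {ν : Ex} (hi : Im0 F) (hs : ∀ l, F.coeff l ≠ 0 → l = ν)
    (c : Fin 3) (l : Ex) (hl : (Lr F c).coeff l ≠ 0) : l = 0 ∨ l = ν ∨ l = -ν := by
  have h1 : ∀ l, (sr F).coeff l ≠ 0 → l = -ν := fun l hl => by
    rw [hi.coeff_sr, Ne, cjP_eq_zero] at hl
    rw [← hs _ hl, neg_neg]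
  fin_cases c
  · exact Or.inr (Or.inl (hs l hl))
  · exact Or.inr (Or.inr (h1 l hl))
  · obtain ⟨a, b, ha, hb, rfl⟩ := supp_mul hl
    exact Or.inl (by rw [hs a ha, h1 b hb, add_neg_cancel])

lemma C4.mixed (h : C4 p P e) {ν : Ex} (hp : Pos p ν) (hP : Pos P ν) {l0 : Ex}
    (hb : IsBot p l0) (hlt : l0 < ν) (hb' : IsBot P ν) : False := by
  have h2 := h.half hp hP hb hlt
  obtain ⟨κ, hκ, -, su, rel⟩ := h.kappa hp hP
  have hl0 := (hp.2 _ hb.1).1
  have r := (act (n1_ne h.n1 1) (n1_ne h.n1 2) h.s2 hκ hl0 hlt (h.ip _ hb.1) (h.ip ν hp.1) su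
    (rel l0 hl0)).1
  have ht := (hp.top.mul (h.ip.top_sr hb)).1.1
  rw [show ν + -l0 = l0 by rw [← h2]; abel] at ht
  have z : co P l0 = 0 := by_contra fun h0 => hlt.not_ge (hb'.2 _ ((h.cP.co_ne _).1 h0))
  rw [z, zero_mul, map_zero] at r
  exact mul_ne_zero ((map_ne_zero _).2 ((h.cp.co_ne _).2 hb.1)) (((h.cp.lr 2).co_ne _).2 ht) r

lemma eq_two {F : RR} (hc : Cst F) {μ : Ex} (h0 : μ ≠ 0)
    (hs : ∀ l, F.coeff l ≠ 0 → l = μ ∨ l = μ + μ) :
    F = K (co F μ) * E μ + K (co F (μ + μ)) * E μ ^ 2 := by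
  have hne : μ ≠ μ + μ := fun h => h0 (by simpa using h)
  refine RR_ext fun l => ?_
  rw [sq, ← E_add, coeff_add', coeff_K_mul_E, coeff_K_mul_E]
  by_cases h1 : μ = l
  · rw [if_pos h1, if_neg (h1 ▸ hne.symm), add_zero, h1, ← hc l]
  · by_cases h2 : μ + μ = l
    · rw [if_neg h1, if_pos h2, zero_add, h2, ← hc l]
    · rw [if_neg h1, if_neg h2, add_zero]
      by_contra h3
      rcases hs l h3 with h4 | h4
      · exact h1 h4.symm
      · exact h2 h4.symm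

lemma mul_two {F : RR} {μ : Ex} (h0 : μ ≠ 0) (hi : cjX μ = -μ) {a b : ℂ}
    (hF : F = K a * E μ + K b * E μ ^ 2) :
    co (F * sr F) 0 = a * conj a + b * conj b ∧ co (F * sr F) μ = b * conj a ∧
      co (F * sr F) (-μ) = a * conj b := by
  have hE := E_neg_mul μ
  have e : F * sr F = K (a * conj a + b * conj b) - E μ * K (-(b * conj a)) -
      E (-μ) * K (-(a * conj b)) := by
    rw [hF]
    simp only [map_add, map_mul, map_pow, map_neg, sr_K, sr_E, hi]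
    linear_combination (K a * K (conj a) + K b * K (conj b) * (E (-μ) * E μ + 1) +
      K b * K (conj a) * E μ + K a * K (conj b) * E (-μ)) * hE
  obtain ⟨h1, h2, h3, -⟩ := three_coeff h0 (a * conj a + b * conj b) (-(b * conj a))
    (-(a * conj b))
  rw [← e] at h1 h2 h3
  simp only [co, h1, h2, h3, map_neg, pe_C, neg_neg, and_self]

/-- Let `l0, l0'` be the bottoms of `p, P` (`half` for `h` and `h.symm`). Both equal to `ν`:
`const_of_three`, `a0`. Exactly one below `ν`: against the first relation of `act` at `l = μ`.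
Both below: `l0 = l0' = μ` (`two_inj`), all four numbers at `μ` are nonzero, an exponent
`μ < l < ν` of `p` or `P` would be active with `l + l ≠ ν`, so equal to `μ` by `act_ne`,
`act_uniq`. So `p = K p1 * E μ + K p2 * E μ ^ 2`, `P = K P1 * E μ + K P2 * E μ ^ 2`,
`|P2| = |p2|` (`κ`), `|P1| = |p1|` (`a0`, `Im0.coeff_zero_mul`), `lam = P1 / p1`,
`conj p1 ^ 2 p2 = conj P1 ^ 2 P2` gives `P2 = p2 lam ^ 2`; `N = K (p2 lam) * E μ * D`, cancel
`D ≠ 0`. -/
theorem C4.poscase (h : C4 p P e) {ν : Ex} (hp : Pos p ν) (hP : Pos P ν) :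
    B0 p P ∨ CaseC p P e 0 := by
  have hν := (hp.2 _ hp.1).1
  obtain ⟨μ, hb⟩ := exists_bot (F := p) fun h0 => hp.1 (by rw [h0]; rfl)
  obtain ⟨μ', hb'⟩ := exists_bot (F := P) fun h0 => hP.1 (by rw [h0]; rfl)
  rcases (hb.2 _ hp.1).lt_or_eq with h1 | h1 <;> rcases (hb'.2 _ hP.1).lt_or_eq with h2 | h2
  rotate_left
  · exact (h.mixed hp hP hb h1 (h2 ▸ hb')).elim
  · exact (h.symm.mixed hP hp hb' h2 (h1 ▸ hb)).elim
  · refine Or.inl ⟨aa p 0 2, const_of_three hν h.ip h.cp h.zp (three_of_single h.ip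
      fun l hl => le_antisymm (hp.2 l hl).2 (h1 ▸ hb.2 l hl)), ?_⟩
    rw [h.a0]
    exact const_of_three hν h.iP h.cP h.zP (three_of_single h.iP
      fun l hl => le_antisymm (hP.2 l hl).2 (h2 ▸ hb'.2 l hl))
  have m1 := h.half hp hP hb h1
  obtain rfl : μ' = μ := two_inj ((h.symm.half hP hp hb' h2).trans m1.symm)
  have hμ := (hp.2 _ hb.1).1
  have iμ := h.ip _ hb.1
  have n1 : co p μ' ≠ 0 := (h.cp.co_ne _).2 hb.1
  have n2 : co P μ' ≠ 0 := (h.cP.co_ne _).2 hb'.1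
  have hB : co (P * sr P) (-μ') ≠ 0 := by
    have := (hb'.mul (h.iP.bot_sr hP.top)).1.1
    rw [show μ' + -ν = -μ' by rw [← m1]; abel] at this
    exact ((h.cP.lr 2).co_ne _).2 this
  have two : ∀ l, co p l ≠ 0 ∨ co P l ≠ 0 → μ' ≤ l → l ≤ ν → l = μ' ∨ l = μ' + μ' := by
    intro l hl a b
    rcases a.lt_or_eq with a | a
    · rcases b.lt_or_eq with b | b
      · exact Or.inl (h.uniq4 hp hP (hμ.trans a) b hμ h1 (h.four hp hP (hμ.trans a) b
          (hl.imp_right Or.inl) (m1 ▸ (add_lt_add a a).ne')) ⟨n1, hB⟩)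
      · exact Or.inr (b.trans m1.symm)
    · exact Or.inl a.symm
  have ep := eq_two h.cp hμ.ne' fun l hl =>
    two l (Or.inl ((h.cp.co_ne _).2 hl)) (hb.2 l hl) (hp.2 l hl).2
  have eP := eq_two h.cP hμ.ne' fun l hl =>
    two l (Or.inr ((h.cP.co_ne _).2 hl)) (hb'.2 l hl) (hP.2 l hl).2
  obtain ⟨κ, hκ, hk, su, rel⟩ := h.kappa hp hP
  have r0 := rel μ' hμ
  have r := (act (n1_ne h.n1 1) (n1_ne h.n1 2) h.s2 hκ hμ h1 iμ (h.ip ν hp.1) su r0).1
  have a0 : co (p * sr p) 0 = co (P * sr P) 0 := congrFun h.a0 2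
  obtain ⟨c1, c2, -⟩ := mul_two hμ.ne' iμ ep
  obtain ⟨d1, -, d3⟩ := mul_two hμ.ne' iμ eP
  rw [c1, d1] at a0
  rw [c2, d3] at r r0
  rw [show μ' - ν = -μ' by rw [← m1]; abel] at r0
  rw [← m1] at hk
  generalize co p μ' = p1 at *
  generalize co P μ' = q1 at *
  generalize co p (μ' + μ') = p2 at *
  generalize co P (μ' + μ') = q2 at *
  have hk' := congrArg conj hk
  simp only [map_mul, Complex.conj_conj] at hk' r
  obtain ⟨lam, rfl⟩ : ∃ lam, q1 = p1 * lam := ⟨q1 / p1, by field_simp⟩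
  have c0 : conj p1 ≠ 0 := (map_ne_zero _).2 n1
  simp only [map_mul] at a0 r
  have hl : lam * conj lam = 1 := by
    apply mul_left_cancel₀ (mul_ne_zero n1 c0)
    linear_combination -a0 + q2 * hk + κ * p2 * hk' - p2 * conj p2 * hκ
  have hq : q2 = p2 * lam ^ 2 := by
    apply mul_left_cancel₀ (pow_ne_zero 2 c0)
    linear_combination -lam ^ 2 * r - conj p1 ^ 2 * q2 * (lam * conj lam + 1) * hl
  have hD : K (p1 * κ) * E (-μ') - K (conj (p1 * lam)) ≠ 0 := fun h0 =>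
    (map_ne_zero _).2 n2 (KE_sub_K_eq_zero (neg_ne_zero.2 hμ.ne') h0).2
  refine Or.inr ⟨p1, p2, lam, μ', n1, ?_, iμ, by rw [map_zero, zero_add]; exact ep,
    by rw [map_zero, zero_add, ← hq]; exact eP, ?_⟩
  · rw [Complex.mul_conj, Complex.normSq_eq_norm_sq] at hl
    have h3 : ‖lam‖ ^ 2 = 1 := by exact_mod_cast hl
    nlinarith [norm_nonneg lam]
  · apply mul_right_cancel₀ hD
    have k1 := congrArg K hk
    have k2 := congrArg K hl
    have hE := E_neg_mul μ'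
    simp only [map_mul, map_one, map_zero] at k1 k2 r0 ⊢
    linear_combination r0 - e 2 * K p1 * K lam * k1 + e 2 * K p2 * K (conj p1) * E μ' * k2 -
      e 2 * K p2 * K lam * K p1 * K κ * hE

end Pool.Agent.Lib.MP_990519_co.D
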