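import Pool.Agent.Lib.MP_990519_co.D.S1
import Pool.Agent.Lib.MP_990519_co.D.S2
import Pool.Agent.Lib.MP_990519_co.D.S3
import Pool.Agent.Lib.MP_990519_co.D.S4d

namespace Pool.Agent.Lib.MP_990519_co.D

open Pool.Agent.Lib.MP_990519_co.Big Finset
open scoped Classical ComplexConjugate

variable {p P : RR} {e : Fin 3 → RR}

/-- `ν` = the largest exponent of the three `Lr p c`; `wcase` or `shape` and `poscase` -/
theorem C4.step4 (h : C4 p P e) (hpos : ∃ l, 0 < l ∧ p.coeff l ≠ 0) :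
    B0 p P ∨ CaseC p P e 0 := by
  obtain ⟨l0, hl0, hc0⟩ := hpos
  have hp0 : p ≠ 0 := fun h0 => hc0 (by rw [h0]; exact coeff_zero' _)
  have hs0 : sr p ≠ 0 := fun h0 => hp0 (sr_eq_zero.1 h0)
  obtain ⟨a, ha⟩ := exists_top hp0
  obtain ⟨b, hb⟩ := exists_top hs0
  obtain ⟨c, hc⟩ := exists_top (mul_ne_zero hp0 hs0)
  have hmax : ∀ (i : Fin 3) l, (Lr p i).coeff l ≠ 0 → l ≤ max a (max b c) := by
    intro i l hl
    fin_cases i
    · exact le_max_of_le_left (ha.2 l hl)
    · exact le_max_of_le_right (le_max_of_le_left (hb.2 l hl))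
    · exact le_max_of_le_right (le_max_of_le_right (hc.2 l hl))
  have hex : ∃ i : Fin 3, (Lr p i).coeff (max a (max b c)) ≠ 0 := by
    rcases max_choice a (max b c) with e1 | e1
    · exact ⟨0, by rw [e1]; exact ha.1⟩
    · rcases max_choice b c with e2 | e2
      · exact ⟨1, by rw [e1, e2]; exact hb.1⟩
      · exact ⟨2, by rw [e1, e2]; exact hc.1⟩
  generalize max a (max b c) = ν at hmax hex
  have hν : 0 < ν := hl0.trans_le (hmax 0 l0 hc0)
  by_cases hz : crossProduct (aa p ν) (sv (aa P (-ν))) = 0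
  · obtain ⟨h1, h2⟩ := h.shape hν hmax hex ⟨l0, hl0, hc0⟩ hz
    exact h.poscase h1 h2
  · obtain ⟨i, hi⟩ := hex
    exact Or.inl (h.wcase hν (h.ip.lr i ν hi) hmax hz)

/-- if `p` has no positive exponent use `CD.swap` and conjugate the result (`μ ↦ -μ`) -/
theorem CD.step4 (h : CD p P e) (cp : Cst p) (cP : Cst P) (ip : Im0 p) (iP : Im0 P)
    (zp : p.coeff 0 = 0) (hne : p ≠ 0) : B0 p P ∨ CaseC p P e 0 := by
  by_cases hpos : ∃ l, 0 < l ∧ p.coeff l ≠ 0
  · exact (h.c4 cp cP ip iP zp).step4 hpos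
  obtain ⟨b, hb⟩ := exists_bot hne
  have hb0 : b < 0 := by
    rcases lt_trichotomy b 0 with h1 | h1 | h1
    · exact h1
    · exact absurd zp (h1 ▸ hb.1)
    · exact absurd ⟨b, h1, hb.1⟩ hpos
  have z' : (sr p).coeff 0 = 0 := by rw [ip.coeff_sr, neg_zero, zp, map_zero]
  rcases (h.swap.c4 cp.star cP.star ip.star iP.star z').step4
    ⟨-b, neg_pos.2 hb0, (ip.top_sr hb).1⟩ with ⟨A, h1, h2⟩ | ⟨p1, p2, lam, μ, n1, nl, iμ, e1, e2, e3⟩
  · rw [sr_sr, mul_comm] at h1 h2
    exact Or.inl ⟨A, h1, h2⟩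
  · refine Or.inr ⟨conj p1, conj p2, conj lam, -μ, by simpa using n1, by simpa using nl,
      by rw [map_neg, iμ], ?_, ?_, ?_⟩
    · have := congrArg sr e1
      simpa only [sr_sr, map_add, map_mul, map_pow, sr_K, sr_E, iμ, map_zero] using this
    · have := congrArg sr e2
      simpa only [sr_sr, map_add, map_mul, map_pow, sr_K, sr_E, iμ, map_zero] using this
    · have := congrArg sr e3
      change sr (e 0 + (K 0 - K (p2 * lam) * E μ) * e 2) = sr 0 at this
      simpa only [h.s0, h.s2, map_add, map_mul, map_sub, sr_K, sr_E, iμ, map_zero] using this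

/-- The core theorem: `caseA`, or `imag`, `step2`, `step3cst` for `p` and `P`, `CD.shift` by the
constant term `o` of `p`, `step4`. -/
theorem CD.core (h : CD p P e) : CaseA p ∨ CaseB p P ∨ ∃ o, CaseC p P e o := by
  by_cases hs : ∃ ν, ν ≠ 0 ∧ p.coeff ν ≠ 0
  swap
  · exact Or.inl (h.caseA fun l hl => by_contra fun h0 => hs ⟨l, h0, hl⟩)
  have ip := h.imag
  have iP := h.symm.imag
  obtain ⟨o, ho⟩ := h.step2 ip iP hs
  obtain ⟨o', ho'⟩ := h.symm.step2 iP ip (h.sig_ne hs)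
  have cp := h.step3cst ip ho ho'
  have cP := h.symm.step3cst iP ho' ho
  have hne : p - K o ≠ 0 := by
    obtain ⟨ν, h0, hν⟩ := hs
    intro hz
    apply hν
    have := congrArg (fun F : RR => F.coeff ν) hz
    simpa only [coeff_sub', coeff_K, if_neg h0, sub_zero, coeff_zero'] using this
  rcases (h.shift o).step4 (cp.sub_K o) (cP.sub_K o) (ip.sub_K o) (iP.sub_K o)
    (by rw [coeff_sub', coeff_K, if_pos rfl, ho, sub_self]) hne with
    ⟨A, h1, h2⟩ | ⟨p1, p2, lam, μ, n1, nl, iμ, e1, e2, e3⟩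
  · refine Or.inr (Or.inl ⟨o, Real.sqrt A.re, fun x => ?_⟩)
    have key : ∀ F : RR, (F - K o) * sr (F - K o) = K A → ‖ev x F - o‖ = Real.sqrt A.re := by
      intro F hF
      have := congrArg (ev x) hF
      rw [map_mul, ev_sr, ev_K, map_sub, ev_K, Complex.mul_conj] at this
      rw [← this, Complex.ofReal_re, Complex.normSq_eq_norm_sq, Real.sqrt_sq (norm_nonneg _)]
    exact ⟨key p h1, key P h2⟩
  · refine Or.inr (Or.inr ⟨o, p1, p2, lam, μ, n1, nl, iμ, ?_, ?_, ?_⟩)
    · rw [map_zero] at e1; linear_combination e1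
    · rw [map_zero] at e2; linear_combination e2
    · change e 1 + K o * e 2 + (K 0 - K (p2 * lam) * E μ) * e 2 = 0 at e3
      rw [map_zero] at e3; linear_combination e3

end Pool.Agent.Lib.MP_990519_co.D
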