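import Pool.Agent.Lib.MP_990519_co.Big.G1

namespace Pool.Agent.Lib.MP_990519_co.D

open Pool.Agent.Lib.MP_990519_co.Big Finset
open scoped Classical ComplexConjugate

noncomputable section

/-! Patterns and restrictions -/

/-- vanishes iff `v` and `w` are parallel over the reals -/
def par (v w : ℂ) : ℂ := v * conj w - conj v * w

/-- non-mirror pattern: two copies with the same apexes and different bisectors -/
structure NM (S : Finset ℂ) {ι : Type} [Fintype ι] (y V V' P P' : Finset ι → ℂ) : Prop where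
  one : PatD S y V P
  two : PatD S y V' P'
  nd : ∀ χ : ι → Fin 3, par (V (st χ 1) - P (st χ 2)) (V' (st χ 1) - P' (st χ 2)) ≠ 0

/-- mirror pattern: three copies with the same apexes and the same bisectors -/
structure MP (S : Finset ℂ) {ι : Type} [Fintype ι] (y : Finset ι → ℂ)
    (V P : Fin 3 → Finset ι → ℂ) : Prop where
  pat : ∀ i, PatD S y (V i) (P i)
  inj : ∀ i i' J, P i J = P i' J → i = i'
  mir : ∀ (i : Fin 3) (χ : ι → Fin 3),
    par (V 0 (st χ 1) - P 0 (st χ 2)) (V i (st χ 1) - P i (st χ 2)) = 0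

/-- restriction data: fixed states `inl c` and blocks `inr e` -/
def Onto {ι η : Type} (idx : ι → Fin 3 ⊕ η) : Prop := ∀ e, ∃ i, idx i = Sum.inr e

def Only0 {ι η : Type} (idx : ι → Fin 3 ⊕ η) : Prop := ∀ i c, idx i = Sum.inl c → c = 0

def emb {ι η : Type} [Fintype ι] (idx : ι → Fin 3 ⊕ η) (c : Fin 3) (I : Finset η) : Finset ι :=
  univ.filter (fun i => idx i = Sum.inl c ∨ ∃ e ∈ I, idx i = Sum.inr e)

def ind {ι : Type} (A : Finset ι) : ι → ℕ := fun i => if i ∈ A then 1 else 0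

def argn {ι η : Type} (idx : ι → Fin 3 ⊕ η) (c : Fin 3) (n : η → ℕ) : ι → ℕ :=
  fun i => Sum.elim (fun c' => if c' = c then 1 else 0) n (idx i)

def Res {ι η : Type} [Fintype ι] (idx : ι → Fin 3 ⊕ η) (c : Fin 3) (V : Finset ι → ℂ) :
    Finset η → ℂ := fun I => V (emb idx c I)

def Rn {ι η : Type} (idx : ι → Fin 3 ⊕ η) (c : Fin 3) (f : (ι → ℕ) → ℂ) : (η → ℕ) → ℂ :=
  fun n => f (argn idx c n)

/-- `f` extends `V` from indicator vectors -/
def Ext {ι : Type} (f : (ι → ℕ) → ℂ) (V : Finset ι → ℂ) : Prop := ∀ A, f (ind A) = V A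

/-- extension by zero -/
def xt {ι η : Type} (e : η ↪ ι) (n : η → ℕ) : ι → ℕ := Function.extend e n 0

/-- the image of `e` moves, `B` is frozen in state `c`, the rest in state `0` -/
def idxOf {ι η : Type} (e : η ↪ ι) (B : Finset ι) (c : Fin 3) : ι → Fin 3 ⊕ η :=
  fun i => if h : ∃ s, e s = i then Sum.inr h.choose else if i ∈ B then Sum.inl c else Sum.inl 0

/-! Hankel rank and finite dimensional function spaces -/

def row {ι : Type} (V : Finset ι → ℂ) (L A : Finset ι) : Finset ι → ℂ :=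
  fun B => V (A ∪ (B ∩ L))

def LowRank {ι : Type} (D : ℕ) (V : Finset ι → ℂ) : Prop :=
  ∀ L : Finset ι, ∃ W : Submodule ℂ (Finset ι → ℂ), Module.finrank ℂ W ≤ D ∧
    ∀ A, Disjoint A L → row V L A ∈ W

def rsp {ι : Type} (V : Finset ι → ℂ) (M L : Finset ι) : Submodule ℂ (Finset ι → ℂ) :=
  Submodule.span ℂ (row V L '' {A | A ⊆ M})

def rk {ι : Type} (V : Finset ι → ℂ) (M L : Finset ι) : ℕ := Module.finrank ℂ (rsp V M L)

/-- `f` lies in a shift invariant function space of dimension at most `D` -/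
def FD {M : Type} [AddCommMonoid M] (D : ℕ) (f : M → ℂ) : Prop :=
  ∃ W : Submodule ℂ (M → ℂ), FiniteDimensional ℂ W ∧ Module.finrank ℂ W ≤ D ∧ f ∈ W ∧
    ∀ g ∈ W, ∀ a : M, (fun n => g (n + a)) ∈ W

/-- as `FD`, with surjective unit shifts -/
def FDS {η : Type} (D : ℕ) (f : (η → ℕ) → ℂ) : Prop :=
  ∃ W : Submodule ℂ ((η → ℕ) → ℂ), FiniteDimensional ℂ W ∧ Module.finrank ℂ W ≤ D ∧ f ∈ W ∧
    (∀ g ∈ W, ∀ a : η → ℕ, (fun n => g (n + a)) ∈ W) ∧
    ∀ g ∈ W, ∀ s : η, ∃ g' ∈ W, ∀ n, g n = g' (n + ind {s})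

/-- exponential polynomial with the characters `l a` -/
def EPW {κ η : Type} [Fintype κ] [Fintype η] (l : κ → η → ℂ) (f : (η → ℕ) → ℂ) : Prop :=
  ∃ Q : κ → MvPolynomial η ℂ, ∀ n : η → ℕ,
    f n = ∑ a, (∏ s, l a s ^ n s) * MvPolynomial.eval (fun s => (n s : ℂ)) (Q a)

def EP {η : Type} [Fintype η] (D : ℕ) (f : (η → ℕ) → ℂ) : Prop :=
  ∃ l : Fin D → η → ℂ, (∀ a s, l a s ≠ 0) ∧ EPW l f

/-- the characters after a restriction -/
def blkc {κ ι η : Type} [Fintype ι] (idx : ι → Fin 3 ⊕ η) (l : κ → ι → ℂ) : κ → η → ℂ :=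
  fun a e => ∏ i ∈ univ.filter (fun i => idx i = Sum.inr e), l a i

def cr1 (V a V' b : ℂ) : ℂ :=
  conj (V - a) * (V' * conj V' - b * conj b) - (V * conj V - a * conj a) * conj (V' - b)

def cr2 (V a V' b : ℂ) : ℂ :=
  (V * conj V - a * conj a) * (V' - b) - (V - a) * (V' * conj V' - b * conj b)

def det3 (V a V' b U Z : ℂ) : ℂ :=
  cr1 V a V' b * (U - Z) + cr2 V a V' b * (conj U - conj Z) +
    par (V - a) (V' - b) * (U * conj U - Z * conj Z)

/-- the determinant of section 3.3 (e) -/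
def detF {η : Type} (f f' g : (η → ℕ) → ℂ) (a b : ℂ) (n : (η → ℕ) × (η → ℕ)) : ℂ :=
  det3 (f (n.1 + n.2)) a (f' (n.1 + n.2)) b (f n.1) (g n.2)

/-! The ring of exponential polynomials in four real variables -/

abbrev Pt : Type := Fin 4 → ℝ

/-- exponents: real part and imaginary part, ordered lexicographically -/
abbrev Ex : Type := Lex (Fin 4 → ℝ) ×ₗ Lex (Fin 4 → ℝ)

abbrev Pol : Type := MvPolynomial (Fin 4) ℂ

abbrev RR : Type := AddMonoidAlgebra Pol Ex

/-- the complex vector of an exponent -/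
def cx (l : Ex) (i : Fin 4) : ℂ := ⟨ofLex (ofLex l).1 i, ofLex (ofLex l).2 i⟩

def mkX (z : Fin 4 → ℂ) : Ex := toLex (toLex fun i => (z i).re, toLex fun i => (z i).im)

/-- complex conjugation of exponents -/
def cjX : Ex →+ Ex where
  toFun l := toLex ((ofLex l).1, -(ofLex l).2)
  map_zero' := congrArg toLex (Prod.ext rfl neg_zero)
  map_add' a b := congrArg toLex (Prod.ext rfl (neg_add (ofLex a).2 (ofLex b).2))

def ex (l : Ex) (x : Pt) : ℂ := Complex.exp (∑ i, cx l i * (x i : ℂ))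

lemma cx_zero (i : Fin 4) : cx 0 i = 0 := rfl

lemma cx_add (l m : Ex) (i : Fin 4) : cx (l + m) i = cx l i + cx m i := rfl

def exH (x : Pt) : Multiplicative Ex →* ℂ where
  toFun l := ex l.toAdd x
  map_one' := by simp [ex, cx_zero]
  map_mul' a b := by
    simp only [ex, toAdd_mul, cx_add, add_mul, Finset.sum_add_distrib, Complex.exp_add]

/-- evaluation of a polynomial at a real point -/
def pe (x : Pt) : Pol →+* ℂ := MvPolynomial.eval (fun i => (x i : ℂ))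

/-- evaluation of an exponential polynomial at a real point -/
def ev (x : Pt) : RR →+* ℂ :=
  AddMonoidAlgebra.liftNCRingHom (pe x) (exH x) (fun _ _ => Commute.all _ _)

def cjP : Pol →+* Pol := MvPolynomial.map (starRingEnd ℂ)

/-- complex conjugation of functions -/
def sr : RR →+* RR :=
  (AddMonoidAlgebra.mapDomainRingHom Pol cjX).comp (AddMonoidAlgebra.mapRingHom Ex cjP)

def KP : Pol →+* RR := AddMonoidAlgebra.singleZeroRingHom

def K : ℂ →+* RR := KP.comp MvPolynomial.C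

def E (l : Ex) : RR := AddMonoidAlgebra.single l 1

def nt (n : Fin 4 → ℕ) : Pt := fun i => (n i : ℝ)

def IsTop (F : RR) (l : Ex) : Prop := F.coeff l ≠ 0 ∧ ∀ m, F.coeff m ≠ 0 → m ≤ l

def IsBot (F : RR) (l : Ex) : Prop := F.coeff l ≠ 0 ∧ ∀ m, F.coeff m ≠ 0 → l ≤ m

/-- imaginary parts of the exponents are at most `δ` -/
def Sm (δ : ℝ) (F : RR) : Prop := ∀ l, F.coeff l ≠ 0 → ∀ i, |(cx l i).im| ≤ δ

def Rep (p : RR) (f : (Fin 4 → ℕ) → ℂ) : Prop := ∀ n, ev (nt n) p = f n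

/-- all exponents are purely imaginary -/
def Im0 (F : RR) : Prop := ∀ l, F.coeff l ≠ 0 → cjX l = -l

def co (F : RR) (l : Ex) : ℂ := pe 0 (F.coeff l)

/-- all coefficients are constants -/
def Cst (F : RR) : Prop := ∀ l, F.coeff l = MvPolynomial.C (co F l)

def Pos (F : RR) (ν : Ex) : Prop := F.coeff ν ≠ 0 ∧ ∀ l, F.coeff l ≠ 0 → 0 < l ∧ l ≤ ν

def Lr (p : RR) : Fin 3 → RR := ![p, sr p, p * sr p]

def lin (α : Fin 3 → ℂ) (e : Fin 3 → RR) : RR := K (α 0) * e 0 + K (α 1) * e 1 + K (α 2) * e 2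

def sv (α : Fin 3 → ℂ) : Fin 3 → ℂ := ![conj (α 1), conj (α 0), conj (α 2)]

def aa (p : RR) (l : Ex) : Fin 3 → ℂ := fun c => co (Lr p c) l

def Wv (ν : Ex) (α β : Fin 3 → ℂ) : Fin 3 → RR := fun c =>
  K (crossProduct α (sv α) c + crossProduct β (sv β) c) - E ν * K (crossProduct α (sv β) c) -
    E (-ν) * K (crossProduct β (sv α) c)

/-- restriction of a polynomial to the line `s ↦ j + s v` -/
def lc (j v : Pt) : Pol →+* Polynomial ℂ :=
  MvPolynomial.eval₂Hom Polynomial.C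
    (fun i => Polynomial.C (j i : ℂ) + Polynomial.C (v i : ℂ) * Polynomial.X)

/-- the data of the core theorem -/
structure CD (p P : RR) (e : Fin 3 → RR) : Prop where
  s0 : sr (e 0) = e 1
  s2 : sr (e 2) = e 2
  n1 : ∀ α : Fin 3 → ℂ, lin α e = 0 → α = 0
  id : ∀ x y : Pt, ∑ c, ev (x + y) (e c) * (ev x (Lr p c) - ev y (Lr P c)) = 0

/-- the data of step 4 -/
structure C4 (p P : RR) (e : Fin 3 → RR) : Prop where
  s0 : sr (e 0) = e 1
  s2 : sr (e 2) = e 2
  n1 : ∀ α : Fin 3 → ℂ, lin α e = 0 → α = 0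
  cp : Cst p
  cP : Cst P
  ip : Im0 p
  iP : Im0 P
  zp : p.coeff 0 = 0
  zP : P.coeff 0 = 0
  rel : ∀ l, E l * lin (aa p l) e = lin (aa P (-l)) e

def CaseA (p : RR) : Prop :=
  ∀ j h h' : Pt, ev (j + h + h') p - ev (j + h) p - ev (j + h') p + ev j p = 0

def CaseB (p P : RR) : Prop :=
  ∃ (o : ℂ) (A : ℝ), ∀ x : Pt, ‖ev x p - o‖ = A ∧ ‖ev x P - o‖ = A

def CaseC (p P : RR) (e : Fin 3 → RR) (o : ℂ) : Prop :=
  ∃ (p1 p2 lam : ℂ) (μ : Ex), p1 ≠ 0 ∧ ‖lam‖ = 1 ∧ cjX μ = -μ ∧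
    p = K o + K p1 * E μ + K p2 * E μ ^ 2 ∧
    P = K o + K (p1 * lam) * E μ + K (p2 * lam ^ 2) * E μ ^ 2 ∧
    e 1 + (K o - K (p2 * lam) * E μ) * e 2 = 0

def B0 (p P : RR) : Prop := ∃ A : ℂ, p * sr p = K A ∧ P * sr P = K A

end

end Pool.Agent.Lib.MP_990519_co.D
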