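import Pool.Agent.Lib.MP_990519_co.D.Newt
import Pool.Agent.Lib.MP_990519_co.D.Base

namespace Pool.Agent.Lib.MP_990519_co.D

open Pool.Agent.Lib.MP_990519_co.Big Finset
open scoped Classical ComplexConjugate

lemma prod_shift_epf {η : Type} [Fintype η] (l : η → ℂ) (s : η) (n : η → ℕ) :
    ∏ t, l t ^ (n + ind {s} : η → ℕ) t = (∏ t, l t ^ n t) * l s := by
  have e : ∏ t, l t ^ ind {s} t = l s := by
    rw [Finset.prod_eq_single s (fun t _ ht => by simp [ind, ht]) (by simp)]
    simp [ind]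
  simp only [Pi.add_apply, pow_add, Finset.prod_mul_distrib, e]

lemma tw_iter_epf {η : Type} [Fintype η] (l : η → ℂ) (s : η) (u : (η → ℕ) → ℂ) (k : ℕ) :
    (fun u : (η → ℕ) → ℂ => fun n => u (n + ind {s}) - l s * u n)^[k]
      (fun n => (∏ t, l t ^ n t) * u n) =
      fun n => l s ^ k * (∏ t, l t ^ n t) * (fwdDiff (ind {s}))^[k] u n := by
  induction k with
  | zero => simp
  | succ k ih =>
    rw [Function.iterate_succ_apply', ih, Function.iterate_succ_apply']
    funext n
    simp only [prod_shift_epf, fwdDiff]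
    ring

/-- One generalized eigenfunction: `g / l ^ n` is killed by powers of the differences.
`tw l s g = fun n => g (n + ind {s}) - l s * g n`. -/
lemma poly_of_gen {η : Type} [Fintype η] (l : η → ℂ) (hl : ∀ s, l s ≠ 0) (g : (η → ℕ) → ℂ)
    (h : ∀ s, ∃ N : ℕ,
      (fun u : (η → ℕ) → ℂ => fun n => u (n + ind {s}) - l s * u n)^[N] g = 0) :
    ∃ Q : MvPolynomial η ℂ, ∀ n : η → ℕ,
      g n = (∏ s, l s ^ n s) * MvPolynomial.eval (fun s => (n s : ℂ)) Q := by
  have hw : ∀ n : η → ℕ, ∏ t, l t ^ n t ≠ 0 := fun n =>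
    Finset.prod_ne_zero_iff.2 fun t _ => pow_ne_zero _ (hl t)
  have hg : g = fun n => (∏ t, l t ^ n t) * (g n / ∏ t, l t ^ n t) :=
    funext fun n => (mul_div_cancel₀ _ (hw n)).symm
  obtain ⟨Q, hQ⟩ := newton (fun n => g n / ∏ t, l t ^ n t) fun s => by
    obtain ⟨N, hN⟩ := h s
    refine ⟨N, funext fun n => ?_⟩
    rw [hg, tw_iter_epf] at hN
    have h1 := congrFun hN n
    exact (mul_eq_zero.1 h1).resolve_left (mul_ne_zero (pow_ne_zero _ (hl s)) (hw n))
  exact ⟨Q, fun n => by rw [← hQ n, mul_div_cancel₀ _ (hw n)]⟩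

lemma pow_coe_epf {η : Type} {W : Submodule ℂ ((η → ℕ) → ℂ)} (T : Module.End ℂ W) (a : η → ℕ)
    (hT : ∀ v : W, ∀ n, (T v : (η → ℕ) → ℂ) n = (v : (η → ℕ) → ℂ) (n + a)) (μ : ℂ) (v : W)
    (k : ℕ) : ((((T - μ • (1 : Module.End ℂ W)) ^ k) v : W) : (η → ℕ) → ℂ) =
      (fun u : (η → ℕ) → ℂ => fun n => u (n + a) - μ * u n)^[k] v := by
  induction k with
  | zero => simp
  | succ k ih =>
    rw [Function.iterate_succ_apply', ← ih, pow_succ', Module.End.mul_apply]
    funext n
    simp [hT]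

/-- Paper 3.3 (d). The shifts `T s : Module.End ℂ W` commute and are surjective, so injective.
`Module.End.iSup_iInf_maxGenEigenspace_eq_top_of_forall_mapsTo` (with
`mapsTo_maxGenEigenspace_of_comm`, `iSup_maxGenEigenspace_eq_top`) writes `f` as a finite sum of
nonzero vectors `f_χ` (`Submodule.mem_iSup_iff_exists_finsupp`), they are linearly independent
(`independent_iInf_maxGenEigenspace_of_forall_mapsTo`, `iSupIndep.linearIndependent`), so there
are at most `D`; `χ s ≠ 0` because `T s` is injective; `poly_of_gen`; pad with `l = 1`, `Q = 0`. -/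
theorem ep_of_fds {η : Type} [Fintype η] {D : ℕ} {f : (η → ℕ) → ℂ} (h : FDS D f) : EP D f := by
  obtain ⟨W, hfin, hD, hf, hW, hs⟩ := h
  let T : η → Module.End ℂ W := fun s =>
    (LinearMap.funLeft ℂ ℂ fun n : η → ℕ => n + ind {s}).restrict fun g hg => hW g hg _
  have hT : ∀ s (v : W) n, (T s v : (η → ℕ) → ℂ) n = (v : (η → ℕ) → ℂ) (n + ind {s}) :=
    fun _ _ _ => rfl
  have hc : ∀ s t, Commute (T s) (T t) := fun s t => by
    refine LinearMap.ext fun v => Subtype.ext (funext fun n => ?_)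
    simp only [Module.End.mul_apply, hT, add_right_comm]
  have hi : ∀ s, Function.Injective (T s) := fun s => by
    refine LinearMap.injective_iff_surjective.2 fun v => ?_
    obtain ⟨g', hg', e⟩ := hs v v.2 s
    exact ⟨⟨g', hg'⟩, Subtype.ext (funext fun n => (e n).symm)⟩
  have hm := fun s t => Module.End.mapsTo_maxGenEigenspace_of_comm (hc t s)
  have htop := Module.End.iSup_iInf_maxGenEigenspace_eq_top_of_forall_mapsTo T hm
    fun s => Module.End.iSup_maxGenEigenspace_eq_top (T s)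
  have hind := Module.End.independent_iInf_maxGenEigenspace_of_forall_mapsTo T hm
  obtain ⟨v, hv, hsum⟩ := (Submodule.mem_iSup_iff_exists_finsupp _ (⟨f, hf⟩ : W)).1
    (htop ▸ Submodule.mem_top)
  have hne : ∀ χ : v.support, v χ ≠ 0 := fun χ => Finsupp.mem_support_iff.1 χ.2
  have hli : LinearIndependent ℂ fun χ : v.support => v χ :=
    (hind.comp Subtype.val_injective).linearIndependent _ (fun χ => hv χ) hne
  obtain ⟨e⟩ : Nonempty (v.support ↪ Fin D) := Function.Embedding.nonempty_of_card_le (by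
    rw [Fintype.card_fin]
    exact hli.fintype_card_le_finrank.trans hD)
  have hk : ∀ (χ : η → ℂ) s, ∃ k : ℕ, ((T s - χ s • (1 : Module.End ℂ W)) ^ k) (v χ) = 0 :=
    fun χ s => (Module.End.mem_maxGenEigenspace _ _ _).1 ((Submodule.mem_iInf _).1 (hv χ) s)
  have h0 : ∀ (χ : v.support) s, χ.1 s ≠ 0 := fun χ s e0 => by
    obtain ⟨k, hk⟩ := hk χ s
    have e1 : T s - χ.1 s • (1 : Module.End ℂ W) = T s := LinearMap.ext fun x => by simp [e0]
    rw [e1] at hk
    exact hne χ (Module.End.iterate_injective (hi s) k (hk.trans (map_zero _).symm))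
  choose Q hQ using fun χ : v.support => poly_of_gen χ.1 (h0 χ) (v χ) fun s => by
    obtain ⟨k, hk⟩ := hk χ s
    exact ⟨k, by rw [← pow_coe_epf (T s) _ (hT s), hk]; rfl⟩
  refine ⟨Function.extend e Subtype.val 1, fun a s => ?_, Function.extend e Q 0, fun n => ?_⟩
  · by_cases ha : ∃ χ, e χ = a
    · obtain ⟨χ, rfl⟩ := ha
      rw [e.injective.extend_apply]
      exact h0 χ s
    · rw [Function.extend_apply' _ _ _ ha]
      exact one_ne_zero
  · have h1 : f n = ∑ χ : v.support, (v χ : (η → ℕ) → ℂ) n := by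
      have h2 := congrFun (congrArg Subtype.val hsum) n
      rw [Finsupp.sum, Submodule.coe_sum, Finset.sum_apply] at h2
      rw [Finset.sum_coe_sort v.support fun χ => (v χ : (η → ℕ) → ℂ) n]
      exact h2.symm
    rw [h1]
    refine Fintype.sum_of_injective e e.injective _ _ (fun a ha => ?_) fun χ => ?_
    · rw [Function.extend_apply' Q _ _ ha, Pi.zero_apply, map_zero, mul_zero]
    · rw [e.injective.extend_apply, e.injective.extend_apply, hQ]

/-- `base`, `ep_of_fds`, `idxOf e B c` and `argn_idxOf` -/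
theorem stageC {ι η : Type} [Fintype ι] [Fintype η] {D : ℕ} {f : (ι → ℕ) → ℂ} (hf : FD D f)
    (hc : D + Fintype.card η ≤ Fintype.card ι) {c : Fin 3} (h0 : c ≠ 0) :
    ∃ idx : ι → Fin 3 ⊕ η, Onto idx ∧ EP D (Rn idx c f) := by
  obtain ⟨e, B, hB, h⟩ := base hf hc
  refine ⟨idxOf e B c, idxOf_onto e B c, ?_⟩
  have e1 : Rn (idxOf e B c) c f = fun n => f (ind B + xt e n) :=
    funext fun n => congrArg f (argn_idxOf e hB h0 n)
  rw [e1]
  exact ep_of_fds h

end Pool.Agent.Lib.MP_990519_co.D
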