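import Pool.Agent.Lib.MP_990519_co.D.R0

namespace Pool.Agent.Lib.MP_990519_co.D

open Pool.Agent.Lib.MP_990519_co.Big Finset
open scoped Classical ComplexConjugate

lemma lc_X (j v : Pt) (i : Fin 4) : lc j v (MvPolynomial.X i) =
    Polynomial.C (j i : ℂ) + Polynomial.C (v i : ℂ) * Polynomial.X :=
  MvPolynomial.eval₂Hom_X' _ _ _

lemma lc_eval (j v : Pt) (Q : Pol) (s : ℝ) : (lc j v Q).eval (s : ℂ) = pe (j + s • v) Q := by
  induction Q using MvPolynomial.induction_on with
  | C a => simp [lc, pe]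
  | add p q hp hq => simp only [map_add, Polynomial.eval_add, hp, hq]
  | mul_X p i hp =>
    rw [map_mul, map_mul, Polynomial.eval_mul, hp, lc_X, pe_X, Polynomial.eval_add,
      Polynomial.eval_mul, Polynomial.eval_C, Polynomial.eval_C, Polynomial.eval_X, Pi.add_apply,
      Pi.smul_apply, smul_eq_mul, Complex.ofReal_add, Complex.ofReal_mul, mul_comm (v i : ℂ)]

lemma lc_C (j v : Pt) (z : ℂ) : lc j v (MvPolynomial.C z) = Polynomial.C z := by
  exact MvPolynomial.eval₂Hom_C _ _ _

lemma poly_eq_zero_of_real {q : Polynomial ℂ} (h : ∀ s : ℝ, q.eval (s : ℂ) = 0) : q = 0 := by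
  refine q.eq_zero_of_infinite_isRoot (Set.Infinite.mono ?_
    (Set.infinite_range_of_injective Complex.ofReal_injective))
  rintro _ ⟨s, rfl⟩
  exact h s

lemma prod_top {ι : Type} (s : Finset ι) (f : ι → Polynomial ℂ) (n : ι → ℕ)
    (h : ∀ i, (f i).natDegree ≤ n i) : (∏ i ∈ s, f i).natDegree ≤ ∑ i ∈ s, n i ∧
      (∏ i ∈ s, f i).coeff (∑ i ∈ s, n i) = ∏ i ∈ s, (f i).coeff (n i) := by
  induction s using Finset.induction_on with
  | empty => simp
  | insert a s ha ih =>
    rw [prod_insert ha, sum_insert ha, prod_insert ha,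
      Polynomial.coeff_mul_add_eq_of_natDegree_le (h a) ih.1, ih.2]
    exact ⟨Polynomial.natDegree_mul_le.trans (add_le_add (h a) ih.1), rfl⟩

lemma lc_monomial (j v : Pt) (d : Fin 4 →₀ ℕ) (a : ℂ) :
    (lc j v (MvPolynomial.monomial d a)).natDegree ≤ d.degree ∧
      (lc j v (MvPolynomial.monomial d a)).coeff d.degree = pe v (MvPolynomial.monomial d a) := by
  have h1 : ∀ i, (Polynomial.C (j i : ℂ) + Polynomial.C (v i : ℂ) * Polynomial.X).natDegree ≤ 1 :=
    fun i => by compute_degree
  obtain ⟨h2, h3⟩ := prod_top univ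
    (fun i => (Polynomial.C (j i : ℂ) + Polynomial.C (v i : ℂ) * Polynomial.X) ^ d i) d
    fun i => Polynomial.natDegree_pow_le.trans (by simpa using Nat.mul_le_mul_left (d i) (h1 i))
  have e : lc j v (MvPolynomial.monomial d a) = Polynomial.C a *
      ∏ i, (Polynomial.C (j i : ℂ) + Polynomial.C (v i : ℂ) * Polynomial.X) ^ d i := by
    rw [lc, MvPolynomial.eval₂Hom_monomial, Finsupp.prod_fintype _ _ (by simp)]
  rw [e, Finsupp.degree_eq_sum, Polynomial.coeff_C_mul, h3, pe, MvPolynomial.eval_monomial,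
    Finsupp.prod_fintype _ _ (by simp)]
  refine ⟨(Polynomial.natDegree_C_mul_le _ _).trans h2, ?_⟩
  congr 1
  refine Finset.prod_congr rfl fun i _ => ?_
  have := Polynomial.coeff_pow_of_natDegree_le (m := d i) (h1 i)
  rw [mul_one] at this
  rw [this]
  simp

lemma lc_natDegree_le (j v : Pt) (Q : Pol) : (lc j v Q).natDegree ≤ Q.totalDegree := by
  conv_lhs => rw [Q.as_sum, map_sum]
  exact Polynomial.natDegree_sum_le_of_forall_le _ _ fun d hd =>
    (lc_monomial j v d _).1.trans (MvPolynomial.le_totalDegree hd)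

/-- both sides are additive in `Q`; for a monomial of degree `≤ D` use
`Polynomial.coeff_prod_of_natDegree_le` or an induction with `coeff_mul_of_natDegree_le` -/
lemma lc_coeff_top (j v : Pt) {Q : Pol} {D : ℕ} (h : Q.totalDegree ≤ D) :
    (lc j v Q).coeff D = pe v (MvPolynomial.homogeneousComponent D Q) := by
  rw [MvPolynomial.homogeneousComponent_apply, Finset.sum_filter, map_sum]
  conv_lhs => rw [Q.as_sum, map_sum, Polynomial.finsetSum_coeff]
  refine Finset.sum_congr rfl fun d hd => ?_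
  have h1 : d.degree ≤ D := (MvPolynomial.le_totalDegree hd).trans h
  split_ifs with h2
  · rw [← h2, (lc_monomial j v d _).2]
  · rw [map_zero]
    exact Polynomial.coeff_eq_zero_of_natDegree_lt
      ((lc_monomial j v d _).1.trans_lt (h1.lt_of_ne h2))

lemma lc_shift (j v : Pt) (Q : Pol) : lc (j + v) v Q = Polynomial.taylor 1 (lc j v Q) := by
  refine sub_eq_zero.1 (poly_eq_zero_of_real fun s => ?_)
  have := lc_eval j v Q (s + 1)
  push_cast at this
  rw [Polynomial.eval_sub, Polynomial.taylor_eval, this, lc_eval,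
    show j + v + s • v = j + (s + 1) • v by module, sub_self]

lemma lc_cjP (j v : Pt) (Q : Pol) : lc j v (cjP Q) = (lc j v Q).map (starRingEnd ℂ) := by
  refine sub_eq_zero.1 (poly_eq_zero_of_real fun s => ?_)
  have := Polynomial.eval_map_apply (starRingEnd ℂ) (p := lc j v Q) (s : ℂ)
  rw [Complex.conj_ofReal] at this
  rw [Polynomial.eval_sub, this, lc_eval, lc_eval, pe_cjP, sub_self]

lemma taylor_one_coeff {q : Polynomial ℂ} {k : ℕ} (h : q.natDegree ≤ k + 1) :
    (Polynomial.taylor 1 q).coeff k = q.coeff k + (k + 1 : ℂ) * q.coeff (k + 1) := by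
  have h1 : (Polynomial.hasseDeriv k q).natDegree < 2 :=
    (Polynomial.natDegree_hasseDeriv_le q k).trans_lt (by omega)
  rw [Polynomial.taylor_coeff, Polynomial.eval_eq_sum_range' h1]
  simp [Finset.sum_range_succ, Polynomial.hasseDeriv_coeff, add_comm]

lemma top_ne_zero {Q : Pol} (h : Q ≠ 0) :
    MvPolynomial.homogeneousComponent Q.totalDegree Q ≠ 0 := by
  obtain ⟨d, hd, e⟩ := Finset.exists_mem_eq_sup Q.support (MvPolynomial.support_nonempty.2 h)
    fun s => s.sum fun _ e => e
  intro h0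
  have := congrArg (MvPolynomial.coeff d) h0
  have e' : d.degree = Q.totalDegree := e.symm
  rw [MvPolynomial.coeff_homogeneousComponent, if_pos e'] at this
  exact MvPolynomial.mem_support_iff.1 hd this

lemma const_of_lines {Q : Pol} (h : ∀ j v, (lc j v Q).natDegree ≤ 0) :
    Q = MvPolynomial.C (pe 0 Q) := by
  refine sub_eq_zero.1 (pe_ext fun x => ?_)
  have h1 := lc_eval 0 x Q 1
  have h0 := lc_eval 0 x Q 0
  rw [Polynomial.eq_C_of_natDegree_le_zero (h 0 x), Polynomial.eval_C] at h1 h0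
  rw [one_smul, zero_add] at h1
  rw [zero_smul, zero_add] at h0
  rw [map_sub, pe_C, ← h1, ← h0, sub_self]

/-- affine on every line gives `f a + f b = 2 f ((a + b) / 2)`, apply it to both diagonals -/
lemma affine_of_lines {Q : Pol} (h : ∀ j v, (lc j v Q).natDegree ≤ 1) (j a b : Pt) :
    pe (j + a + b) Q - pe (j + a) Q - pe (j + b) Q + pe j Q = 0 := by
  have mid : ∀ x y : Pt, pe x Q + pe y Q = 2 * pe ((1 / 2 : ℝ) • (x + y)) Q := by
    intro x y
    have h0 := lc_eval x (y - x) Q 0
    have h1 := lc_eval x (y - x) Q 1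
    have h2 := lc_eval x (y - x) Q (1 / 2)
    rw [Polynomial.eq_X_add_C_of_natDegree_le_one (h x (y - x))] at h0 h1 h2
    rw [zero_smul, add_zero] at h0
    rw [one_smul, add_sub_cancel] at h1
    rw [show x + (1 / 2 : ℝ) • (y - x) = (1 / 2 : ℝ) • (x + y) by module] at h2
    rw [← h0, ← h1, ← h2]
    simp
    ring
  have e1 := mid (j + a + b) j
  have e2 := mid (j + a) (j + b)
  rw [show j + a + (j + b) = j + a + b + j by abel] at e2
  linear_combination e1 - e2

/-- a polynomial that is not constant takes two values on real points -/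
lemma exists_ne_of_deg {Q : Pol} (h : 0 < Q.totalDegree) : ∃ j : Pt, pe j Q ≠ pe 0 Q := by
  by_contra h0
  push Not at h0
  have : Q = MvPolynomial.C (pe 0 Q) :=
    sub_eq_zero.1 (pe_ext fun x => by rw [map_sub, pe_C, h0 x, sub_self])
  rw [this] at h
  simp at h

/-- for fixed `j` the map `m ↦ pe (m - j) Q` is a polynomial -/
lemma exists_shift (Q : Pol) (j : Pt) : ∃ Q' : Pol, ∀ m, pe m Q' = pe (m - j) Q := by
  induction Q using MvPolynomial.induction_on with
  | C a => exact ⟨MvPolynomial.C a, fun m => by rw [pe_C, pe_C]⟩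
  | add p q hp hq =>
    obtain ⟨p', hp⟩ := hp
    obtain ⟨q', hq⟩ := hq
    exact ⟨p' + q', fun m => by rw [map_add, map_add, hp, hq]⟩
  | mul_X p i hp =>
    obtain ⟨p', hp⟩ := hp
    exact ⟨p' * (MvPolynomial.X i - MvPolynomial.C (j i : ℂ)), fun m => by
      rw [map_mul, map_mul, hp, map_sub, pe_X, pe_X, pe_C]; simp⟩

end Pool.Agent.Lib.MP_990519_co.D
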