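import Pool.Agent.Lib.MP_990519_co.D.R2
import Pool.Agent.Lib.MP_990519_co.D.Line

namespace Pool.Agent.Lib.MP_990519_co.D

open Pool.Agent.Lib.MP_990519_co.Big Finset
open scoped Classical ComplexConjugate

variable {p P : RR} {e : Fin 3 → RR}

theorem CD.symm (h : CD p P e) : CD P p e := by
  refine ⟨h.s0, h.s2, h.n1, fun x y => ?_⟩
  have := h.id y x
  rw [add_comm] at this
  simp only [Fin.sum_univ_three] at this ⊢
  linear_combination -this

theorem CD.swap (h : CD p P e) : CD (sr p) (sr P) ![e 1, e 0, e 2] := by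
  refine ⟨?_, h.s2, fun α hα => ?_, fun x y => ?_⟩
  · change sr (e 1) = e 0
    rw [← h.s0, sr_sr]
  · have := h.n1 ![α 1, α 0, α 2] (by
      change K (α 0) * e 1 + K (α 1) * e 0 + K (α 2) * e 2 = 0 at hα
      change K (α 1) * e 0 + K (α 0) * e 1 + K (α 2) * e 2 = 0
      linear_combination hα)
    funext c
    fin_cases c
    exacts [congrFun this 1, congrFun this 0, congrFun this 2]
  · have := h.id x y
    simp only [Fin.sum_univ_three, Lr_zero, Lr_one, Lr_two, sr_sr, map_mul, Matrix.cons_val_zero,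
      Matrix.cons_val_one, Matrix.cons_val] at this ⊢
    linear_combination this

theorem CD.shift (h : CD p P e) (o : ℂ) :
    CD (p - K o) (P - K o) ![e 0 + K (conj o) * e 2, e 1 + K o * e 2, e 2] := by
  refine ⟨?_, h.s2, fun α hα => ?_, fun x y => ?_⟩
  · change sr (e 0 + K (conj o) * e 2) = e 1 + K o * e 2
    rw [map_add, map_mul, h.s0, h.s2, sr_K, Complex.conj_conj]
  · have := h.n1 ![α 0, α 1, α 0 * conj o + α 1 * o + α 2] (by
      change K (α 0) * (e 0 + K (conj o) * e 2) + K (α 1) * (e 1 + K o * e 2) + K (α 2) * e 2 = 0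
        at hα
      change K (α 0) * e 0 + K (α 1) * e 1 + K (α 0 * conj o + α 1 * o + α 2) * e 2 = 0
      simp only [map_add, map_mul]
      linear_combination hα)
    have h0 : α 0 = 0 := congrFun this 0
    have h1 : α 1 = 0 := congrFun this 1
    have h2 : α 0 * conj o + α 1 * o + α 2 = 0 := congrFun this 2
    funext c
    fin_cases c
    exacts [h0, h1, by simpa [h0, h1] using h2]
  · have := h.id x y
    simp only [Fin.sum_univ_three, Lr_zero, Lr_one, Lr_two, map_mul, map_sub, map_add, sr_K, ev_K,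
      Matrix.cons_val_zero, Matrix.cons_val_one, Matrix.cons_val] at this ⊢
    linear_combination this

theorem n1_ne (n1 : ∀ α : Fin 3 → ℂ, lin α e = 0 → α = 0) (c : Fin 3) : e c ≠ 0 := by
  intro h0
  have := n1 (Pi.single c 1) (by fin_cases c <;> simp_all [lin])
  simpa using congrFun this c

/-- identity (**): `coeff_refl` for `A = ∑ c, K (ev m (e c)) * Lr p c`, same for `P`;
`h.id x (m - x)` -/
theorem CD.star2 (h : CD p P e) (ν : Ex) (m j : Pt) :
    ex ν m * ∑ c, ev m (e c) * pe j ((Lr p c).coeff ν) =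
      ∑ c, ev m (e c) * pe (m - j) ((Lr P c).coeff (-ν)) := by
  have := coeff_refl (A := ∑ c, K (ev m (e c)) * Lr p c) (B := ∑ c, K (ev m (e c)) * Lr P c)
    (m := m) (fun x => by
      have := h.id x (m - x)
      rw [add_sub_cancel] at this
      simp only [Fin.sum_univ_three, map_add, map_mul, ev_K] at this ⊢
      linear_combination this) ν j
  simpa only [Fin.sum_univ_three, coeff_add', coeff_K_mul, map_add, map_mul, pe_C] using this

/-- (**) along the line `j = s • v`, coefficient of `s ^ D` (`lc_eval`, `poly_eq_zero_of_real`,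
`lc_coeff_top` for `lc 0 v` and `lc m (-v)`), then `inj_real` in `m` -/
theorem CD.factA0 (h : CD p P e) (ν : Ex) (D : ℕ) (v : Pt)
    (hp : ∀ c, ((Lr p c).coeff ν).totalDegree ≤ D)
    (hP : ∀ c, ((Lr P c).coeff (-ν)).totalDegree ≤ D) :
    E ν * lin (fun c => pe v (MvPolynomial.homogeneousComponent D ((Lr p c).coeff ν))) e =
      lin (fun c => pe (-v) (MvPolynomial.homogeneousComponent D ((Lr P c).coeff (-ν)))) e := by
  refine sub_eq_zero.1 (inj_real fun m => ?_)
  have hq : Polynomial.C (ex ν m) * ∑ c, Polynomial.C (ev m (e c)) * lc 0 v ((Lr p c).coeff ν) -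
      ∑ c, Polynomial.C (ev m (e c)) * lc m (-v) ((Lr P c).coeff (-ν)) = 0 :=
    poly_eq_zero_of_real fun s => by
      have := h.star2 ν m (s • v)
      simp only [Fin.sum_univ_three, Polynomial.eval_sub, Polynomial.eval_mul, Polynomial.eval_add,
        Polynomial.eval_C, lc_eval, zero_add, smul_neg, ← sub_eq_add_neg] at this ⊢
      linear_combination this
  have := congrArg (fun q : Polynomial ℂ => q.coeff D) hq
  simp only [Fin.sum_univ_three, Polynomial.coeff_sub, Polynomial.coeff_add,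
    Polynomial.coeff_C_mul, lc_coeff_top _ _ (hp _), lc_coeff_top _ _ (hP _),
    Polynomial.coeff_zero] at this
  simp only [lin, map_sub, map_mul, map_add, ev_K, ev_E]
  linear_combination this

/-- if `s α = t β` then `(K t * E ν - K s) * lin α e = 0`; use `KE_sub_K_eq_zero` -/
theorem nonpar (n1 : ∀ α : Fin 3 → ℂ, lin α e = 0 → α = 0) {ν : Ex} (hν : ν ≠ 0)
    {α β : Fin 3 → ℂ} (h : E ν * lin α e = lin β e) (hne : α ≠ 0 ∨ β ≠ 0) (s t : ℂ)
    (hst : s • α = t • β) : s = 0 ∧ t = 0 := by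
  have ha : lin α e ≠ 0 := fun h0 => by
    rw [h0, mul_zero] at h
    rcases hne with h1 | h1
    exacts [h1 (n1 α h0), h1 (n1 β h.symm)]
  have k : ∀ c, K s * K (α c) = K t * K (β c) := fun c => by
    rw [← map_mul, ← map_mul]; exact congrArg K (congrFun hst c)
  have : (K t * E ν - K s) * lin α e = 0 := by
    unfold lin at h ⊢
    linear_combination K t * h - e 0 * k 0 - e 1 * k 1 - e 2 * k 2
  exact (KE_sub_K_eq_zero hν ((mul_eq_zero.1 this).resolve_right ha)).symm

/-- Fact A. `D` = largest total degree among the nonzero entries, `v` a point where the top form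
of such an entry does not vanish (`top_ne_zero`, `pe_ext`), `homogeneousComponent_eq_zero`. -/
theorem CD.factA (h : CD p P e) {ν : Ex} (hν : ν ≠ 0)
    (hne : ∃ c, (Lr p c).coeff ν ≠ 0 ∨ (Lr P c).coeff (-ν) ≠ 0) :
    ∃ α β : Fin 3 → ℂ, E ν * lin α e = lin β e ∧
      (∀ s t : ℂ, s • α = t • β → s = 0 ∧ t = 0) ∧
      (∀ c c', (Lr p c).coeff ν = 0 ∨
        ((Lr p c).coeff ν).totalDegree < ((Lr p c').coeff ν).totalDegree → α c = 0) ∧
      (∀ c c', (Lr P c).coeff (-ν) = 0 ∨
        ((Lr P c).coeff (-ν)).totalDegree < ((Lr P c').coeff (-ν)).totalDegree → β c = 0) := by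
  let X : Fin 3 ⊕ Fin 3 → Pol := Sum.elim (fun c => (Lr p c).coeff ν) fun c => (Lr P c).coeff (-ν)
  obtain ⟨i, hi, hmax⟩ := (univ.filter fun i => X i ≠ 0).exists_max_image
    (fun i => (X i).totalDegree) (by
      obtain ⟨c, hc | hc⟩ := hne
      exacts [⟨Sum.inl c, by simpa [X] using hc⟩, ⟨Sum.inr c, by simpa [X] using hc⟩])
  have hle : ∀ k, (X k).totalDegree ≤ (X i).totalDegree := fun k => by
    by_cases h0 : X k = 0
    · simp [h0]
    · exact hmax k (by simpa using h0)
  have ht := top_ne_zero (mem_filter.1 hi).2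
  generalize (X i).totalDegree = D at hle ht
  obtain ⟨w, hw⟩ : ∃ w, pe w (MvPolynomial.homogeneousComponent D (X i)) ≠ 0 := by
    by_contra h0
    push Not at h0
    exact ht (pe_ext h0)
  obtain ⟨v, hv⟩ : ∃ v : Pt,
      (fun c => pe v (MvPolynomial.homogeneousComponent D ((Lr p c).coeff ν))) ≠ 0 ∨
      (fun c => pe (-v) (MvPolynomial.homogeneousComponent D ((Lr P c).coeff (-ν)))) ≠ 0 := by
    rcases i with c | c
    · exact ⟨w, Or.inl fun h0 => hw (congrFun h0 c)⟩
    · exact ⟨-w, Or.inr fun h0 => hw (by have := congrFun h0 c; rwa [neg_neg] at this)⟩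
  have r := h.factA0 ν D v (fun c => hle (Sum.inl c)) fun c => hle (Sum.inr c)
  refine ⟨_, _, r, nonpar h.n1 hν r hv, fun c c' hc => ?_, fun c c' hc => ?_⟩
  · rcases hc with hc | hc
    · simp [hc]
    · simp [MvPolynomial.homogeneousComponent_eq_zero _ _ (hc.trans_le (hle (Sum.inl c')))]
  · rcases hc with hc | hc
    · simp [hc]
    · simp [MvPolynomial.homogeneousComponent_eq_zero _ _ (hc.trans_le (hle (Sum.inr c')))]

theorem CD.sig (h : CD p P e) {ν : Ex} (hν : ν ≠ 0) {c : Fin 3} (hc : (Lr p c).coeff ν ≠ 0) :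
    ∃ c', (Lr P c').coeff (-ν) ≠ 0 := by
  by_contra h0
  push Not at h0
  obtain ⟨α, β, -, hi, -, hβ⟩ := h.factA hν ⟨c, Or.inl hc⟩
  have : β = 0 := funext fun c => hβ c c (Or.inl (h0 c))
  exact one_ne_zero (hi 0 1 (by simp [this])).2

theorem CD.sig_ne (h : CD p P e) (hs : ∃ ν, ν ≠ 0 ∧ p.coeff ν ≠ 0) :
    ∃ ν, ν ≠ 0 ∧ P.coeff ν ≠ 0 := by
  obtain ⟨ν, hν, hc⟩ := hs
  obtain ⟨c, hc'⟩ := h.sig hν (c := 0) hc
  by_contra h0
  push Not at h0
  exact hν (neg_eq_zero.1 (lr_supp_zero (fun l hl => by_contra fun h1 => hl (h0 l h1)) c _ hc'))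

end Pool.Agent.Lib.MP_990519_co.D
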