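import Pool.Agent.Lib.MP_990519_co.D.Res

namespace Pool.Agent.Lib.MP_990519_co.D

open Pool.Agent.Lib.MP_990519_co.Big Finset
open scoped Classical ComplexConjugate

variable {M : Type} [AddCommMonoid M]

lemma fd_of_fdc {D : ℕ} {f : M → ℂ} {κ : Type} [Fintype κ] (hκ : Fintype.card κ ≤ D)
    (b c : κ → M → ℂ) (h : ∀ n a, f (n + a) = ∑ k, c k a * b k n) : FD D f := by
  have hle : Submodule.span ℂ (Set.range fun a : M => fun n => f (n + a)) ≤
      Submodule.span ℂ (Set.range b) := by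
    rw [Submodule.span_le]
    rintro _ ⟨a, rfl⟩
    have e : (fun n => f (n + a)) = ∑ k, c k a • b k := by
      funext n
      rw [h, Finset.sum_apply]
      rfl
    change (fun n => f (n + a)) ∈ Submodule.span ℂ (Set.range b)
    rw [e]
    exact Submodule.sum_mem _ fun k _ => Submodule.smul_mem _ _ (Submodule.subset_span ⟨k, rfl⟩)
  have hfin : FiniteDimensional ℂ (Submodule.span ℂ (Set.range b)) :=
    FiniteDimensional.span_of_finite ℂ (Set.finite_range b)
  refine ⟨Submodule.span ℂ (Set.range fun a : M => fun n => f (n + a)),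
    Submodule.finiteDimensional_of_le hle,
    (Submodule.finrank_mono hle).trans ((finrank_range_le_card b).trans hκ),
    Submodule.subset_span ⟨0, funext fun n => congrArg f (add_zero n)⟩, fun g hg a => ?_⟩
  induction hg using Submodule.span_induction with
  | mem x hx =>
    obtain ⟨a', rfl⟩ := hx
    exact Submodule.subset_span ⟨a + a', funext fun n => congrArg f (add_assoc n a a').symm⟩
  | zero => exact Submodule.zero_mem _
  | add x y _ _ hx hy => exact Submodule.add_mem _ hx hy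
  | smul r x _ hx => exact Submodule.smul_mem _ r hx

lemma FD.ex_fdc {D : ℕ} {f : M → ℂ} (h : FD D f) : ∃ (m : ℕ) (b c : Fin m → M → ℂ), m ≤ D ∧
    ∀ n a, f (n + a) = ∑ k, c k a * b k n := by
  obtain ⟨W, hW, hD, hf, hs⟩ := h
  let B := Module.finBasis ℂ W
  refine ⟨Module.finrank ℂ W, fun k => (B k : M → ℂ),
    fun k a => B.repr ⟨fun n => f (n + a), hs f hf a⟩ k, hD, fun n a => ?_⟩
  have e := congrArg (fun w : W => (w : M → ℂ) n) (B.sum_repr ⟨fun n => f (n + a), hs f hf a⟩)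
  simp only [Submodule.coe_sum, Submodule.coe_smul, Finset.sum_apply, Pi.smul_apply,
    smul_eq_mul] at e
  exact e.symm

lemma FD.mono {D D' : ℕ} {f : M → ℂ} (h : FD D f) (hD : D ≤ D') : FD D' f := by
  obtain ⟨W, hW, h1, h2⟩ := h
  exact ⟨W, hW, h1.trans hD, h2⟩

lemma FD.const (c : ℂ) : FD 1 (fun _ : M => c) :=
  fd_of_fdc (κ := Unit) (by simp) (fun _ _ => 1) (fun _ _ => c) (by simp)

lemma FD.add {D D' : ℕ} {f g : M → ℂ} (h : FD D f) (h' : FD D' g) :
    FD (D + D') (fun n => f n + g n) := by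
  obtain ⟨m, b, c, hm, e⟩ := h.ex_fdc
  obtain ⟨m', b', c', hm', e'⟩ := h'.ex_fdc
  refine fd_of_fdc (κ := Fin m ⊕ Fin m') (by simpa using Nat.add_le_add hm hm') (Sum.elim b b')
    (Sum.elim c c') fun n a => ?_
  rw [Fintype.sum_sum_type, e, e']
  rfl

lemma FD.sub {D D' : ℕ} {f g : M → ℂ} (h : FD D f) (h' : FD D' g) :
    FD (D + D') (fun n => f n - g n) := by
  obtain ⟨m, b, c, hm, e⟩ := h.ex_fdc
  obtain ⟨m', b', c', hm', e'⟩ := h'.ex_fdc
  refine fd_of_fdc (κ := Fin m ⊕ Fin m') (by simpa using Nat.add_le_add hm hm') (Sum.elim b b')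
    (Sum.elim c fun k a => -c' k a) fun n a => ?_
  rw [Fintype.sum_sum_type, e, e', sub_eq_add_neg, ← Finset.sum_neg_distrib]
  simp only [Sum.elim_inl, Sum.elim_inr, neg_mul]

/-- use the range of `TensorProduct.lift` of the pointwise product, or `W * W'` with
`Submodule.finrank_mul_le` type lemmas, or the span of products of basis vectors -/
lemma FD.mul {D D' : ℕ} {f g : M → ℂ} (h : FD D f) (h' : FD D' g) :
    FD (D * D') (fun n => f n * g n) := by
  obtain ⟨m, b, c, hm, e⟩ := h.ex_fdc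
  obtain ⟨m', b', c', hm', e'⟩ := h'.ex_fdc
  refine fd_of_fdc (κ := Fin m × Fin m') (by simpa using Nat.mul_le_mul hm hm')
    (fun k n => b k.1 n * b' k.2 n) (fun k a => c k.1 a * c' k.2 a) fun n a => ?_
  rw [Fintype.sum_prod_type, e, e', Finset.sum_mul_sum]
  exact Finset.sum_congr rfl fun k _ => Finset.sum_congr rfl fun k' _ => by ring

/-- span of the conjugates of a basis -/
lemma FD.conj {D : ℕ} {f : M → ℂ} (h : FD D f) : FD D (fun n => conj (f n)) := by
  obtain ⟨m, b, c, hm, e⟩ := h.ex_fdc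
  refine fd_of_fdc (κ := Fin m) (by simpa using hm) (fun k n => starRingEnd ℂ (b k n))
    (fun k a => starRingEnd ℂ (c k a)) fun n a => ?_
  rw [e, map_sum]
  exact Finset.sum_congr rfl fun k _ => map_mul _ _ _

/-- the image of `W` under the linear map `g ↦ (n ↦ g (φ n + a))` -/
lemma FD.comp {N : Type} [AddCommMonoid N] {D : ℕ} {f : M → ℂ} (h : FD D f) (φ : N →+ M)
    (a : M) : FD D (fun n => f (φ n + a)) := by
  obtain ⟨m, b, c, hm, e⟩ := h.ex_fdc
  refine fd_of_fdc (κ := Fin m) (by simpa using hm) (fun k n => b k (φ n))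
    (fun k a' => c k (φ a' + a)) fun n a' => ?_
  rw [map_add, add_assoc, e]

/-- `argn idx c n = φ n + argn idx c 0` with the additive map
`φ n i = Sum.elim 0 n (idx i)` -/
lemma FD.rn {ι η : Type} {D : ℕ} {f : (ι → ℕ) → ℂ} (h : FD D f) (idx : ι → Fin 3 ⊕ η)
    (c : Fin 3) : FD D (Rn idx c f) := by
  let φ : (η → ℕ) →+ (ι → ℕ) :=
    { toFun := fun n i => Sum.elim (fun _ => 0) n (idx i)
      map_zero' := by
        funext i
        cases idx i <;> rfl
      map_add' := fun n n' => by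
        funext i
        rw [Pi.add_apply]
        cases idx i <;> rfl }
  have e : Rn idx c f = fun n => f (φ n + argn idx c 0) := by
    funext n
    refine congrArg f (funext fun i => ?_)
    change argn idx c n i = Sum.elim (fun _ => 0) n (idx i) + argn idx c 0 i
    unfold argn
    cases idx i <;> simp
  rw [e]
  exact h.comp φ _

lemma FD.comp0_fdc {N : Type} [AddCommMonoid N] {D : ℕ} {f : M → ℂ} (h : FD D f) (φ : N →+ M) :
    FD D (fun n => f (φ n)) := by
  simpa only [add_zero] using h.comp φ 0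

lemma det3_fdc : ∃ D' : ℕ, ∀ (N : Type) [AddCommMonoid N] (V V' U Z : N → ℂ) (a b : ℂ),
    FD 9 V → FD 9 V' → FD 9 U → FD 9 Z → FD D' (fun n => det3 (V n) a (V' n) b (U n) (Z n)) := by
  refine ⟨(10 * 82 + 82 * 10) * 18 + (82 * 10 + 10 * 82) * 18 + (10 * 10 + 10 * 10) * (81 + 81),
    fun N _ V V' U Z a b hV hV' hU hZ => ?_⟩
  have h1 := hV.sub (FD.const a)
  have h2 := hV'.sub (FD.const b)
  have h3 := (hV.mul hV.conj).sub (FD.const (a * conj a))
  have h4 := (hV'.mul hV'.conj).sub (FD.const (b * conj b))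
  exact ((((h1.conj.mul h4).sub (h3.mul h2.conj)).mul (hU.sub hZ)).add
    (((h3.mul h2).sub (h1.mul h4)).mul (hU.conj.sub hZ.conj))).add
    (((h1.mul h2.conj).sub (h1.conj.mul h2)).mul ((hU.mul hU.conj).sub (hZ.mul hZ.conj)))

theorem fd_detF : ∃ D' : ℕ, ∀ (η : Type) (f f' g : (η → ℕ) → ℂ) (a b : ℂ),
    FD 9 f → FD 9 f' → FD 9 g → FD D' (detF f f' g a b) := by
  obtain ⟨D', h⟩ := det3_fdc
  refine ⟨D', fun η f f' g a b hf hf' hg => ?_⟩
  exact h ((η → ℕ) × (η → ℕ)) _ _ _ _ a b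
    (hf.comp0_fdc (AddMonoidHom.fst _ _ + AddMonoidHom.snd _ _))
    (hf'.comp0_fdc (AddMonoidHom.fst _ _ + AddMonoidHom.snd _ _))
    (hf.comp0_fdc (AddMonoidHom.fst (η → ℕ) (η → ℕ)))
    (hg.comp0_fdc (AddMonoidHom.snd (η → ℕ) (η → ℕ)))

end Pool.Agent.Lib.MP_990519_co.D
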