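import Pool.Agent.Lib.MP_990519_co.D.Mir

namespace Pool.Agent.Lib.MP_990519_co.D

open Pool.Agent.Lib.MP_990519_co.Big Finset
open scoped Classical ComplexConjugate

/-- the words of the mirror case -/
noncomputable def word_hj (w : Fin 3) (j : Finset (Fin 4)) : Fin 2 ⊕ Fin 4 → Fin 3 :=
  Sum.elim (fun b => if b.succ = w then 1 else 0) (fun a => if a ∈ j then 2 else 0)

lemma one_hj (w : Fin 3) (j : Finset (Fin 4)) : st (word_hj w j) 1 = st (word_hj w ∅) 1 := by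
  ext a
  rw [mem_st, mem_st]
  rcases a with a | a
  · rfl
  · simp only [word_hj, Sum.elim_inr]
    split_ifs <;> decide

lemma two_hj (w : Fin 3) (j : Finset (Fin 4)) : st (word_hj w j) 2 = st (word_hj 0 j) 2 := by
  ext a
  rw [mem_st, mem_st]
  rcases a with a | a
  · simp only [word_hj, Sum.elim_inl]
    split_ifs <;> decide
  · rfl

lemma zinj_hj {w w' : Fin 3} {j : Finset (Fin 4)} (h : st (word_hj w j) 0 = st (word_hj w' j) 0) :
    w = w' := by
  have key : ∀ b : Fin 2, b.succ = w ↔ b.succ = w' := fun b => by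
    have := Finset.ext_iff.1 h (Sum.inl b)
    rw [mem_st, mem_st] at this
    simpa [word_hj, not_iff_not] using this
  have k0 := key 0
  have k1 := key 1
  clear key h
  revert w w'
  decide

lemma tinj_hj {j j' : Finset (Fin 4)} (h : st (word_hj 0 j) 2 = st (word_hj 0 j') 2) : j = j' := by
  ext a
  have := Finset.ext_iff.1 h (Sum.inr a)
  rw [mem_st, mem_st] at this
  simpa [word_hj] using this

lemma on_hj {O z : ℂ} {R : ℝ} (hR : 0 < R) (h : ‖z - O‖ = R) :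
    ∃ t : ℂ, ‖t‖ = 1 ∧ z = zc (O, R, 0) t := by
  have h1 : (R : ℂ) ≠ 0 := Complex.ofReal_ne_zero.2 hR.ne'
  refine ⟨(z - O) / R, ?_, ?_⟩
  · rw [norm_div, h, Complex.norm_real, Real.norm_of_nonneg hR.le, div_self hR.ne']
  · simp only [zc]
    field_simp
    ring

/-- The mirror case: the curve is a circle. -/
theorem mirror_concl {S : Finset ℂ} (hS : Cvx S) {y : Finset (Fin 2 ⊕ Fin 4) → ℂ}
    {V P : Fin 3 → Finset (Fin 2 ⊕ Fin 4) → ℂ} (h : MP S y V P) : Concl y (V 0) (P 0) := by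
  have iP : ∀ i j j', P i (st (word_hj 0 j) 2) = P i (st (word_hj 0 j') 2) → j = j' :=
    fun i j j' e => tinj_hj ((h.pat i).iP e)
  obtain ⟨O, hO⟩ := mirror_core hS (J := Finset (Fin 4)) (fun w j => y (st (word_hj w j) 0))
    (fun w i => V i (st (word_hj w ∅) 1)) (fun j i => P i (st (word_hj 0 j) 2))
    (fun _ _ => (h.pat 0).my _) (fun _ i => (h.pat i).mP _)
    (fun _ _ _ e => zinj_hj ((h.pat 0).iy e)) iP (fun _ _ _ e => h.inj _ _ _ e)
    (fun _ _ i => (h.pat i).ne _ _)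
    (fun w j i => by rw [← one_hj w j, ← two_hj w j]; exact (h.pat i).tie _)
    fun w j i => by rw [← one_hj w j, ← two_hj w j]; exact h.mir i _
  have hR : 0 < ‖V 0 (st (word_hj 0 ∅) 1) - O‖ := by
    refine norm_pos_iff.2 fun e => (h.pat 0).ne (st (word_hj 0 ∅) 1) (st (word_hj 0 ∅) 2) ?_
    have h1 := hO ∅
    rw [e, norm_zero, eq_comm, norm_eq_zero] at h1
    exact (sub_eq_zero.1 e).trans (sub_eq_zero.1 h1).symm
  obtain ⟨ta, a1, a2⟩ := on_hj hR rfl
  obtain ⟨tb, b1, b2⟩ := on_hj hR (hO ∅).symm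
  refine ⟨(O, _, 0), hR, ⟨word_hj 0 ∅, ta, tb, a1, b1, a2, b2, Or.inl rfl⟩,
    univ.image fun j => P 0 (st (word_hj 0 j) 2), ?_, fun z hz => ?_⟩
  · rw [card_image_of_injective _ fun j j' e => iP 0 j j' e]
    simp
  · obtain ⟨j, -, rfl⟩ := mem_image.1 hz
    exact ⟨on_hj hR (hO j).symm, _, rfl⟩

/-- three extra coordinates, one in state `1` and two in state `2` -/
noncomputable def idx_hj (ι : Type) (i : Fin 3) : ι ⊕ Fin 3 → Fin 3 ⊕ ι :=
  Sum.elim Sum.inr fun x => Sum.inl (if x = i then 1 else 2)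

lemma zero_hj {ι : Type} [Fintype ι] (i : Fin 3) (y : Finset (ι ⊕ Fin 3) → ℂ) :
    Res (idx_hj ι i) 0 y = Res (idx_hj ι 0) 0 y := by
  funext I
  refine congrArg y (Finset.ext fun a => ?_)
  rw [mem_emb, mem_emb]
  rcases a with a | a
  · rfl
  · simp only [idx_hj, Sum.elim_inr, Sum.inl.injEq]
    split_ifs <;> simp

lemma inj_hj {ι : Type} [Fintype ι] {i i' : Fin 3} {J : Finset ι}
    (h : emb (idx_hj ι i) 2 J = emb (idx_hj ι i') 2 J) : i = i' := by
  have := Finset.ext_iff.1 h (Sum.inr i)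
  rw [mem_emb, mem_emb] at this
  simpa [idx_hj] using this

/-- Paper 3.1. -/
theorem hj (η : Type) [Fintype η] :
    ∃ (κ : Type) (_ : Fintype κ), ∀ (S : Finset ℂ) (y V P : Finset κ → ℂ), PatD S y V P →
      (∃ (y1 : Finset η → ℂ) (V1 P1 : Fin 3 → Finset η → ℂ), MP S y1 V1 P1 ∧
        (Concl y1 (V1 0) (P1 0) → Concl y V P)) ∨
      (∃ y1 V1 V2 P1 P2 : Finset η → ℂ, NM S y1 V1 V2 P1 P2 ∧
        (Concl y1 V1 P1 → Concl y V P)) := by
  obtain ⟨ι, _, hι⟩ :=
    Combinatorics.Subspace.exists_mono_in_high_dimension (Fin 3) (Option (Fin 3)) η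
  refine ⟨ι ⊕ Fin 3, inferInstance, fun S y V P h => ?_⟩
  have hp : ∀ i, PatD S (Res (idx_hj ι 0) 0 y) (Res (idx_hj ι i) 1 V) (Res (idx_hj ι i) 2 P) :=
    fun i => zero_hj i y ▸ patD_res h fun e => ⟨Sum.inl e, rfl⟩
  let Q : Fin 3 → (ι → Fin 3) → Prop := fun i χ =>
    par (Res (idx_hj ι 0) 1 V (st χ 1) - Res (idx_hj ι 0) 2 P (st χ 2))
      (Res (idx_hj ι i) 1 V (st χ 1) - Res (idx_hj ι i) 2 P (st χ 2)) ≠ 0
  obtain ⟨l, c, hl⟩ := hι fun χ => if h : ∃ i, Q i χ then some h.choose else none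
  have hs : ∀ (χ : η → Fin 3) (c : Fin 3), emb l.idxFun c (st χ c) = st (l χ) c :=
    fun χ c => (st_elim l.idxFun χ c).symm
  have hc := fun H => concl_lift (y := y) (V := V) (P := P) (idx_hj ι 0) (concl_lift l.idxFun H)
  rcases c with _ | i
  · refine Or.inl ⟨_, fun i => Res l.idxFun 1 (Res (idx_hj ι i) 1 V),
      fun i => Res l.idxFun 2 (Res (idx_hj ι i) 2 P),
      ⟨fun i => patD_res (hp i) l.proper, fun i i' J e => inj_hj (h.iP e), fun i χ => ?_⟩, hc⟩
    have h1 := hl χ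
    beta_reduce at h1
    by_contra h2
    have h3 : ∃ i, Q i (l χ) := ⟨i, by simp only [Q, ← hs]; exact h2⟩
    rw [dif_pos h3] at h1
    cases h1
  · refine Or.inr ⟨_, _, _, _, _,
      ⟨patD_res (hp 0) l.proper, patD_res (hp i) l.proper, fun χ => ?_⟩, hc⟩
    have h1 := hl χ
    beta_reduce at h1
    by_cases h3 : ∃ i, Q i (l χ)
    · rw [dif_pos h3] at h1
      have h4 := h3.choose_spec
      rw [Option.some.inj h1] at h4
      simp only [Q, ← hs] at h4
      exact h4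
    · rw [dif_neg h3] at h1
      cases h1

/-- Theorem D from the non-mirror case. -/
theorem rigid_of_nm (N : ℕ)
    (H : ∀ (ι : Type) [Fintype ι], N ≤ Fintype.card ι → ∀ S : Finset ℂ, Cvx S →
      ∀ y V V' P P' : Finset ι → ℂ, NM S y V V' P P' → Concl y V P) :
    ∃ k : ℕ, Rigid k := by
  obtain ⟨κ, _, hκ⟩ := hj (Fin (N + 6))
  refine ⟨Fintype.card κ, fun S hS y V P h => ?_⟩
  let idx : Fin (Fintype.card κ) → Fin 3 ⊕ κ := fun i => Sum.inr ((Fintype.equivFin κ).symm i)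
  have ho : Onto idx := fun e => ⟨Fintype.equivFin κ e, by simp [idx]⟩
  refine concl_lift idx ?_
  rcases hκ S _ _ _ (patD_res h ho) with ⟨y1, V1, P1, h1, h2⟩ | ⟨y1, V1, V2, P1, P2, h1, h2⟩
  · obtain ⟨e⟩ : Nonempty (Fin 2 ⊕ Fin 4 ↪ Fin (N + 6)) :=
      Function.Embedding.nonempty_of_card_le (by simp)
    exact h2 (concl_lift (idxOf e ∅ 0) (mirror_concl hS (h1.res (idxOf_onto e ∅ 0))))
  · exact h2 (H _ (by simp) S hS _ _ _ _ _ h1)

end Pool.Agent.Lib.MP_990519_co.D
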