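import Pool.Agent.Lib.MP_990519_co.D.Res

namespace Pool.Agent.Lib.MP_990519_co.D

open Pool.Agent.Lib.MP_990519_co.Big Finset
open scoped Classical ComplexConjugate

lemma iso_hank {β : Type} {S : Finset ℂ} (hS : Cvx S) {y : Fin 3 → ℂ} (hy : ∀ t, y t ∈ S)
    (h01 : y 0 ≠ y 1) (h02 : y 0 ≠ y 2) (h12 : y 1 ≠ y 2) {Q : Fin 3 → β → ℂ} {X : β → ℂ}
    (ht : ∀ t B, dist (y t) (X B) = dist (y t) (Q t B)) {W : Submodule ℂ (β → ℂ)}
    (h1 : ∀ t, Q t ∈ W) (h2 : ∀ t, (fun B => conj (Q t B)) ∈ W)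
    (h3 : ∀ t, (fun B => Q t B * conj (Q t B)) ∈ W) : X ∈ W := by
  have hD : conj (y 0) * (y 1 - y 2) + conj (y 1) * (y 2 - y 0) + conj (y 2) * (y 0 - y 1) ≠ 0 :=
    fun h => h01 (sub_eq_zero.1 (yh_indep hS (hy 0) (hy 1) (hy 2) h01 h02 h12
      (b := conj (y 1) - conj (y 0)) (c := y 1 * conj (y 0) - conj (y 1) * y 0) (by ring) (by ring)
      (by linear_combination h)).1)
  have hw := fun t => W.sub_mem (W.add_mem (W.smul_mem (conj (y t)) (h1 t))
    (W.smul_mem (y t) (h2 t))) (h3 t)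
  have := W.add_mem (W.add_mem (W.smul_mem (y 1 - y 2) (hw 0)) (W.smul_mem (y 2 - y 0) (hw 1)))
    (W.smul_mem (y 0 - y 1) (hw 2))
  refine (W.smul_mem_iff hD).1 (Eq.subst (motive := (· ∈ W)) (funext fun B => ?_) this)
  simp only [Pi.add_apply, Pi.sub_apply, Pi.smul_apply, smul_eq_mul]
  linear_combination (y 1 - y 2) * (tie_iff _ _ _).1 (ht 0 B) +
    (y 2 - y 0) * (tie_iff _ _ _).1 (ht 1 B) + (y 0 - y 1) * (tie_iff _ _ _).1 (ht 2 B)

lemma tie_hank {ι η : Type} [Fintype ι] {S : Finset ℂ} {y V P : Finset ι → ℂ} (h : PatD S y V P)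
    (e : η ↪ ι) {T : Finset ι} (hT : ∀ s, e s ∉ T) {A L : Finset η} (hA : Disjoint A L)
    (B : Finset η) : dist (y ((A ∪ L).map e ∪ T)ᶜ) (V ((A ∪ B ∩ L).map e)) =
      dist (y ((A ∪ L).map e ∪ T)ᶜ) (P ((L \ B).map e ∪ T)) := by
  obtain ⟨χ, h1, h2, h0⟩ := exists_word (I := (A ∪ B ∩ L).map e) (J := (L \ B).map e ∪ T) (by
    rw [disjoint_union_right, disjoint_map, disjoint_union_left]
    refine ⟨⟨hA.mono_right sdiff_subset, disjoint_sdiff.mono_left inter_subset_left⟩,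
      disjoint_left.2 fun i hi => ?_⟩
    obtain ⟨s, -, rfl⟩ := mem_map.1 hi
    exact hT s)
  have := h.tie χ
  rwa [h0, h1, h2, ← union_assoc, ← map_union, union_assoc, inter_comm, union_comm (L ∩ B),
    sdiff_union_inter, inter_comm] at this

/-- Paper 3.3 (a). Fix `L`. For `T = {a, b}, {a}, {b}` (three choices, `T ⊆ {a, b}`) and
`A` disjoint from `L`, `B` arbitrary, use the word (`exists_word`) with state 1 on
`(A ∪ (B ∩ L)).map e` and state 2 on `(L \ B).map e ∪ T`. Its apex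
`y_T = y (((A ∪ L).map e ∪ T)ᶜ)` depends on `A` only, its point `P_T B = P ((L \ B).map e ∪ T)` on
`B` only. Let `W` be the span of the nine functions `P_T, conj P_T, P_T conj P_T` of `B`. The tie
equations say that `X3 - conj y_T X1 - y_T X2 ∈ W` for the functions `X1 = row`, `X2 = conj row`,
`X3 = row conj row`. The three apexes are distinct points of `S`, so the matrix with rows
`(-conj y_T, -y_T, 1)` is invertible (`yh_indep`, or `ori_ne` and an explicit combination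
`(y2 - y3) eq1 + (y3 - y1) eq2 + (y1 - y2) eq3`, which isolates `X1` with a nonzero factor). -/
theorem hankel {ι η : Type} [Fintype ι] [Fintype η] {S : Finset ℂ} (hS : Cvx S)
    {y V P : Finset ι → ℂ} (h : PatD S y V P) (e : η ↪ ι) {a b : ι} (hab : a ≠ b)
    (ha : ∀ s, e s ≠ a) (hb : ∀ s, e s ≠ b) : LowRank 9 (fun A : Finset η => V (A.map e)) := by
  intro L
  let T : Fin 3 → Finset ι := ![{a, b}, {a}, {b}]
  let Q : Fin 3 → Finset η → ℂ := fun t B => P ((L \ B).map e ∪ T t)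
  let g : Fin 3 × Fin 3 → Finset η → ℂ := fun p =>
    ![Q p.1, fun B => conj (Q p.1 B), fun B => Q p.1 B * conj (Q p.1 B)] p.2
  have hT : ∀ t s, e s ∉ T t := fun t s => by
    fin_cases t <;> simp [T, ha, hb]
  refine ⟨Submodule.span ℂ (Set.range g), (finrank_range_le_card g).trans_eq (by simp),
    fun A hA => ?_⟩
  have key : ∀ t t' i, (∀ s, e s ≠ i) → i ∈ T t → i ∉ T t' →
      y ((A ∪ L).map e ∪ T t)ᶜ ≠ y ((A ∪ L).map e ∪ T t')ᶜ := fun t t' i h1 h2 h3 h4 => by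
    have h5 := mem_union_right ((A ∪ L).map e) h2
    rw [compl_injective (h.iy h4), mem_union, mem_map] at h5
    exact h5.elim (fun ⟨s, _, hs⟩ => h1 s hs) h3
  exact iso_hank hS (y := fun t => y ((A ∪ L).map e ∪ T t)ᶜ) (fun _ => h.my _)
    (key 0 1 b hb (by simp [T]) (by simp [T, hab.symm]))
    (key 0 2 a ha (by simp [T]) (by simp [T, hab])) (key 1 2 a ha (by simp [T]) (by simp [T, hab]))
    (Q := Q) (fun t B => tie_hank h e (hT t) hA B)
    (fun t => Submodule.subset_span ⟨(t, 0), rfl⟩) (fun t => Submodule.subset_span ⟨(t, 1), rfl⟩)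
    fun t => Submodule.subset_span ⟨(t, 2), rfl⟩

end Pool.Agent.Lib.MP_990519_co.D
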