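import Pool.Agent.Lib.MP_990519_co.D.Defs

namespace Pool.Agent.Lib.MP_990519_co.D

open Pool.Agent.Lib.MP_990519_co.Big Finset
open scoped Classical ComplexConjugate

/-! Restrictions of patterns, the tie equation. -/

variable {ι η : Type}

lemma mem_st [Fintype ι] (χ : ι → Fin 3) (c : Fin 3) (i : ι) : i ∈ st χ c ↔ χ i = c := by
  simp [st]

lemma mem_emb [Fintype ι] (idx : ι → Fin 3 ⊕ η) (c : Fin 3) (I : Finset η) (i : ι) :
    i ∈ emb idx c I ↔ idx i = Sum.inl c ∨ ∃ e ∈ I, idx i = Sum.inr e := by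
  simp only [emb, mem_filter, mem_univ, true_and]

/-- the word on `ι` defined by a word on `η` -/
lemma st_elim [Fintype ι] [Fintype η] (idx : ι → Fin 3 ⊕ η) (χ : η → Fin 3) (c : Fin 3) :
    st (fun i => Sum.elim id χ (idx i)) c = emb idx c (st χ c) := by
  ext i
  rw [mem_st, mem_emb]
  rcases idx i with c' | e
  · simp
  · simp [mem_st]

lemma emb_injective [Fintype ι] {idx : ι → Fin 3 ⊕ η} (h : Onto idx) (c : Fin 3) :
    Function.Injective (emb idx c) := by
  intro I J hIJ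
  ext e
  obtain ⟨i, hi⟩ := h e
  have := Finset.ext_iff.1 hIJ i
  simpa [mem_emb, hi] using this

lemma argn_ind [Fintype ι] (idx : ι → Fin 3 ⊕ η) (c : Fin 3) (I : Finset η) :
    argn idx c (ind I) = ind (emb idx c I) := by
  funext i
  simp only [argn, ind, mem_emb]
  rcases idx i with c' | e
  · simp
  · simp [ind]

lemma Only0.emb_eq [Fintype ι] {idx : ι → Fin 3 ⊕ η} (h : Only0 idx) (I : Finset η) :
    emb idx 2 I = emb idx 1 I := by
  ext i
  rw [mem_emb, mem_emb]
  have h1 : idx i ≠ Sum.inl 1 := fun h' => absurd (h i 1 h') (by decide)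
  have h2 : idx i ≠ Sum.inl 2 := fun h' => absurd (h i 2 h') (by decide)
  simp [h1, h2]

lemma Only0.emb_empty [Fintype ι] {idx : ι → Fin 3 ⊕ η} (h : Only0 idx) {c : Fin 3}
    (hc : c ≠ 0) : emb idx c ∅ = ∅ := by
  ext i
  rw [mem_emb]
  have h1 : idx i ≠ Sum.inl c := fun h' => hc (h i c h')
  simp [h1]

lemma Only0.argn_eq {idx : ι → Fin 3 ⊕ η} (h : Only0 idx) (n : η → ℕ) :
    argn idx 2 n = argn idx 1 n := by
  funext i
  simp only [argn]
  rcases hi : idx i with c' | e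
  · rw [h i c' hi]; rfl
  · rfl

lemma Only0.argn_add {idx : ι → Fin 3 ⊕ η} (h : Only0 idx) (n m : η → ℕ) :
    argn idx 1 (n + m) = argn idx 1 n + argn idx 1 m := by
  funext i
  simp only [argn, Pi.add_apply]
  rcases hi : idx i with c' | e
  · rw [h i c' hi]; rfl
  · rfl

lemma ind_empty : ind (∅ : Finset ι) = 0 := by
  funext i; simp [ind]

lemma ind_union {A B : Finset ι} (h : Disjoint A B) : ind (A ∪ B) = ind A + ind B := by
  funext i
  simp only [ind, Pi.add_apply, mem_union]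
  by_cases ha : i ∈ A
  · simp [ha, Finset.disjoint_left.1 h ha]
  · simp [ha]

lemma xt_apply (e : η ↪ ι) (n : η → ℕ) (s : η) : xt e n (e s) = n s := by
  exact e.injective.extend_apply _ _ _

lemma xt_of_not (e : η ↪ ι) (n : η → ℕ) {i : ι} (h : ∀ s, e s ≠ i) : xt e n i = 0 := by
  exact Function.extend_apply' _ _ _ fun ⟨s, hs⟩ => h s hs

lemma xt_add (e : η ↪ ι) (n m : η → ℕ) : xt e (n + m) = xt e n + xt e m := by
  funext i
  by_cases h : ∃ s, e s = i
  · obtain ⟨s, rfl⟩ := h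
    simp only [Pi.add_apply, xt_apply]
  · push Not at h
    simp only [Pi.add_apply, xt_of_not e _ h]

lemma xt_zero (e : η ↪ ι) : xt e 0 = 0 := by
  funext i
  by_cases h : ∃ s, e s = i
  · obtain ⟨s, rfl⟩ := h
    simp only [xt_apply, Pi.zero_apply]
  · push Not at h
    simp only [xt_of_not e _ h, Pi.zero_apply]

lemma xt_ind (e : η ↪ ι) (A : Finset η) : xt e (ind A) = ind (A.map e) := by
  funext i
  by_cases h : ∃ s, e s = i
  · obtain ⟨s, rfl⟩ := h
    simp [xt_apply, ind]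
  · push Not at h
    rw [xt_of_not e _ h]
    simp [ind, h]

lemma idxOf_apply (e : η ↪ ι) (B : Finset ι) (c : Fin 3) (s : η) :
    idxOf e B c (e s) = Sum.inr s := by
  have h : ∃ t, e t = e s := ⟨s, rfl⟩
  rw [idxOf, dif_pos h, e.injective h.choose_spec]

lemma idxOf_onto (e : η ↪ ι) (B : Finset ι) (c : Fin 3) : Onto (idxOf e B c) := by
  exact fun s => ⟨e s, idxOf_apply e B c s⟩

lemma idxOf_only0 (e : η ↪ ι) (c : Fin 3) : Only0 (idxOf e ∅ c) := by
  intro i c' h
  unfold idxOf at h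
  split_ifs at h with h1 h2
  · simp at h2
  · exact (Sum.inl.inj h).symm

lemma argn_idxOf (e : η ↪ ι) {B : Finset ι} (hB : ∀ s, e s ∉ B) {c : Fin 3} (hc : c ≠ 0)
    (n : η → ℕ) : argn (idxOf e B c) c n = ind B + xt e n := by
  funext i
  by_cases h : ∃ s, e s = i
  · obtain ⟨s, rfl⟩ := h
    simp [argn, idxOf_apply, xt_apply, ind, hB s]
  · have h' := h
    push Not at h'
    simp only [argn, idxOf, dif_neg h, Pi.add_apply, xt_of_not e _ h', ind]
    split_ifs <;> simp [hc.symm]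

lemma argn_idxOf_empty (e : η ↪ ι) (c' : Fin 3) {c : Fin 3} (hc : c ≠ 0) (n : η → ℕ) :
    argn (idxOf e ∅ c') c n = xt e n := by
  funext i
  by_cases h : ∃ s, e s = i
  · obtain ⟨s, rfl⟩ := h
    simp [argn, idxOf_apply, xt_apply]
  · have h' := h
    push Not at h'
    simp [argn, idxOf, dif_neg h, xt_of_not e _ h', hc.symm]

lemma emb_idxOf_empty [Fintype ι] (e : η ↪ ι) (c' : Fin 3) {c : Fin 3} (hc : c ≠ 0)
    (A : Finset η) : emb (idxOf e ∅ c') c A = A.map e := by
  ext i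
  rw [mem_emb]
  by_cases h : ∃ s, e s = i
  · obtain ⟨s, rfl⟩ := h
    simp [idxOf_apply]
  · have h' := h
    push Not at h'
    simp [idxOf, dif_neg h, hc.symm, h']

/-- any two disjoint sets are the states 1 and 2 of a word -/
lemma exists_word [Fintype ι] {I J : Finset ι} (h : Disjoint I J) :
    ∃ χ : ι → Fin 3, st χ 1 = I ∧ st χ 2 = J ∧ st χ 0 = (I ∪ J)ᶜ := by
  refine ⟨fun i => if i ∈ I then 1 else if i ∈ J then 2 else 0, ?_, ?_, ?_⟩ <;> ext i <;>
    rw [mem_st] <;> by_cases a : i ∈ I <;> by_cases b : i ∈ J <;>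
    first | exact absurd b (Finset.disjoint_left.1 h a) | simp [a, b]

lemma patD_res [Fintype ι] [Fintype η] {S : Finset ℂ} {y V P : Finset ι → ℂ}
    (h : PatD S y V P) {idx : ι → Fin 3 ⊕ η} (ho : Onto idx) :
    PatD S (Res idx 0 y) (Res idx 1 V) (Res idx 2 P) := by
  refine ⟨fun _ => h.my _, fun _ => h.mV _, fun _ => h.mP _, h.iy.comp (emb_injective ho 0),
    h.iV.comp (emb_injective ho 1), h.iP.comp (emb_injective ho 2), fun _ _ => h.ne _ _,
    fun χ => ?_⟩
  simpa only [st_elim, Res] using h.tie fun i => Sum.elim id χ (idx i)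

/-- exchange the states 1 and 2 -/
lemma patD_swap [Fintype ι] {S : Finset ℂ} {y V P : Finset ι → ℂ} (h : PatD S y V P) :
    PatD S y P V := by
  refine ⟨h.my, h.mP, h.mV, h.iy, h.iP, h.iV, fun I J => (h.ne J I).symm, fun χ => ?_⟩
  have t := h.tie fun i => Equiv.swap 1 2 (χ i)
  have e : ∀ c, st (fun i => Equiv.swap (1 : Fin 3) 2 (χ i)) c = st χ (Equiv.swap 1 2 c) := by
    intro c; ext i
    rw [mem_st, mem_st, Equiv.swap_apply_eq_iff]
  rw [e, e, e] at t
  exact t.symm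

lemma NM.res [Fintype ι] [Fintype η] {S : Finset ℂ} {y V V' P P' : Finset ι → ℂ}
    (h : NM S y V V' P P') {idx : ι → Fin 3 ⊕ η} (ho : Onto idx) :
    NM S (Res idx 0 y) (Res idx 1 V) (Res idx 1 V') (Res idx 2 P) (Res idx 2 P') := by
  refine ⟨patD_res h.one ho, patD_res h.two ho, fun χ => ?_⟩
  simpa only [st_elim, Res] using h.nd fun i => Sum.elim id χ (idx i)

lemma MP.res [Fintype ι] [Fintype η] {S : Finset ℂ} {y : Finset ι → ℂ}
    {V P : Fin 3 → Finset ι → ℂ} (h : MP S y V P) {idx : ι → Fin 3 ⊕ η} (ho : Onto idx) :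
    MP S (Res idx 0 y) (fun i => Res idx 1 (V i)) (fun i => Res idx 2 (P i)) := by
  refine ⟨fun i => patD_res (h.pat i) ho, fun i i' J => h.inj i i' _, fun i χ => ?_⟩
  simpa only [st_elim, Res] using h.mir i fun i => Sum.elim id χ (idx i)

lemma concl_lift [Fintype ι] [Fintype η] {y V P : Finset ι → ℂ} (idx : ι → Fin 3 ⊕ η)
    (h : Concl (Res idx 0 y) (Res idx 1 V) (Res idx 2 P)) : Concl y V P := by
  obtain ⟨w, hw, ⟨χ, hχ⟩, F, hF, hz⟩ := h
  refine ⟨w, hw, ⟨fun i => Sum.elim id χ (idx i), ?_⟩, F, hF, fun z hz' => ?_⟩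
  · simpa only [st_elim, Res] using hχ
  · obtain ⟨h1, J, h2⟩ := hz z hz'
    exact ⟨h1, _, h2⟩

lemma Ext.res [Fintype ι] {f : (ι → ℕ) → ℂ} {V : Finset ι → ℂ} (h : Ext f V)
    (idx : ι → Fin 3 ⊕ η) (c : Fin 3) : Ext (Rn idx c f) (Res idx c V) := by
  intro A
  rw [Rn, argn_ind, h, Res]

lemma tie_iff (y V P : ℂ) : dist y V = dist y P ↔
    V * conj V - P * conj P = conj y * (V - P) + y * (conj V - conj P) := by
  have e : ∀ z : ℂ, ((dist y z ^ 2 : ℝ) : ℂ) = (y - z) * conj (y - z) := fun z => by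
    rw [Complex.mul_conj, Complex.dist_eq, Complex.normSq_eq_norm_sq]
  rw [← sq_eq_sq₀ dist_nonneg dist_nonneg, ← Complex.ofReal_inj, e, e, map_sub, map_sub]
  constructor <;> intro h <;> linear_combination h

lemma cr_of_tie {y V a V' b : ℂ} (h : dist y V = dist y a) (h' : dist y V' = dist y b) :
    cr1 V a V' b = -conj y * par (V - a) (V' - b) ∧ cr2 V a V' b = -y * par (V - a) (V' - b) := by
  rw [tie_iff] at h h'
  simp only [cr1, cr2, par, map_sub, h, h']
  constructor <;> ring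

lemma det3_of_tie {y V a V' b U Z : ℂ} (h : dist y V = dist y a) (h' : dist y V' = dist y b)
    (h'' : dist y U = dist y Z) : det3 V a V' b U Z = 0 := by
  obtain ⟨h1, h2⟩ := cr_of_tie h h'
  rw [tie_iff] at h''
  rw [det3, h1, h2, h'']
  ring

/-- three distinct points of `S` give independent vectors `(conj y, y, 1)`; the determinant of
the three rows is `2 i ori` up to sign, use `ori_ne`. -/
lemma yh_indep {S : Finset ℂ} (h : Cvx S) {y1 y2 y3 : ℂ} (h1 : y1 ∈ S) (h2 : y2 ∈ S)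
    (h3 : y3 ∈ S) (h12 : y1 ≠ y2) (h13 : y1 ≠ y3) (h23 : y2 ≠ y3) {a b c : ℂ}
    (e1 : a * conj y1 + b * y1 + c = 0) (e2 : a * conj y2 + b * y2 + c = 0)
    (e3 : a * conj y3 + b * y3 + c = 0) : a = 0 ∧ b = 0 ∧ c = 0 := by
  have ho := ori_ne h h1 h2 h3 h12.symm h13.symm h23
  have hd : (conj y2 - conj y1) * (y3 - y1) - (y2 - y1) * (conj y3 - conj y1) ≠ 0 := by
    intro h0
    apply ho
    have := congrArg Complex.im h0
    simp only [Complex.sub_im, Complex.mul_im, Complex.sub_re, Complex.conj_re, Complex.conj_im,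
      Complex.zero_im] at this
    unfold ori
    linarith
  have ha : a = 0 := by
    apply (mul_eq_zero.1 _).resolve_right hd
    linear_combination (y3 - y1) * (e2 - e1) - (y2 - y1) * (e3 - e1)
  have hb : b = 0 := by
    apply (mul_eq_zero.1 _).resolve_right hd
    linear_combination (conj y2 - conj y1) * (e3 - e1) - (conj y3 - conj y1) * (e2 - e1)
  rw [ha, hb] at e1
  exact ⟨ha, hb, by simpa using e1⟩

end Pool.Agent.Lib.MP_990519_co.D
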