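import Pool.Agent.Lib.MP_990519_co.D.R2
import Pool.Agent.Lib.MP_990519_co.D.Res

namespace Pool.Agent.Lib.MP_990519_co.D

open Pool.Agent.Lib.MP_990519_co.Big Finset
open scoped Classical ComplexConjugate

/-- With `a = P ∅`, `b = P' ∅`, `v = p - K a`, `v' = p' - K b`, `ρ = p * sr p - K (a conj a)`,
`ρ' = p' * sr p' - K (b conj b)` put `e 0 = K I * (sr v * ρ' - ρ * sr v')`,
`e 1 = K I * (ρ * v' - v * ρ')`, `e 2 = K I * (v * sr v' - sr v * v')`. At `nt n` the values are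
`I * cr1, I * cr2, I * par`; `id` is `ext2` applied to `h0` (`nt (n + m) = nt n + nt m`). At
`nt (ind A)` the two ties of the word (`exists_word`, `A` and `∅`) give, by `cr_of_tie` and `nd`,
`ev (e 2) ≠ 0`, `ev (e 0) = -conj (y Aᶜ) ev (e 2)`, `ev (e 1) = -y Aᶜ ev (e 2)`; `n1` follows from
`yh_indep` with `A = ∅, {0}, {1}`. -/
theorem mk_cd {S : Finset ℂ} (hS : Cvx S) {y V V' P P' : Finset (Fin 4) → ℂ}
    (h : NM S y V V' P P') {f f' g : (Fin 4 → ℕ) → ℂ} (ef : Ext f V) (ef' : Ext f' V')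
    {p p' q : RR} (sp : Sm (1 / 2) p) (sp' : Sm (1 / 2) p') (sq : Sm (1 / 2) q)
    (rp : Rep p f) (rp' : Rep p' f') (rq : Rep q g)
    (h0 : ∀ n m, detF f f' g (P ∅) (P' ∅) (n, m) = 0) :
    ∃ e : Fin 3 → RR, CD p q e ∧ ev 0 (e 2) ≠ 0 ∧ ev 0 (e 1) = -y univ * ev 0 (e 2) := by
  set a := P ∅ with ha
  set b := P' ∅ with hb
  set e : Fin 3 → RR := ![K Complex.I * (sr (p - K a) * (p' * sr p' - K (b * conj b)) -
      (p * sr p - K (a * conj a)) * sr (p' - K b)),
    K Complex.I * ((p * sr p - K (a * conj a)) * (p' - K b) -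
      (p - K a) * (p' * sr p' - K (b * conj b))),
    K Complex.I * ((p - K a) * sr (p' - K b) - sr (p - K a) * (p' - K b))] with he
  have v0 : ∀ x, ev x (e 0) = Complex.I * cr1 (ev x p) a (ev x p') b := fun x => by
    simp only [he, Matrix.cons_val_zero, map_mul, map_sub, ev_K, ev_sr, cr1]
  have v1 : ∀ x, ev x (e 1) = Complex.I * cr2 (ev x p) a (ev x p') b := fun x => by
    simp only [he, Matrix.cons_val_one, Matrix.cons_val_zero, map_mul, map_sub, ev_K, ev_sr, cr2]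
  have v2 : ∀ x, ev x (e 2) = Complex.I * par (ev x p - a) (ev x p' - b) := fun x => by
    simp only [he, Matrix.cons_val, map_mul, map_sub, ev_K, ev_sr, par]
  have w : ∀ A, ev (nt (ind A)) (e 2) ≠ 0 ∧
      ev (nt (ind A)) (e 0) = -conj (y Aᶜ) * ev (nt (ind A)) (e 2) ∧
      ev (nt (ind A)) (e 1) = -y Aᶜ * ev (nt (ind A)) (e 2) := by
    intro A
    obtain ⟨χ, c1, c2, c0'⟩ := exists_word (disjoint_empty_right A)
    have c0 : st χ 0 = Aᶜ := by rw [c0']; ext i; simp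
    have t1 := h.one.tie χ
    have t2 := h.two.tie χ
    have t3 := h.nd χ
    rw [c1, c2] at t1 t2 t3
    rw [c0] at t1 t2
    rw [← ha, ← hb] at t3
    rw [← ha] at t1
    rw [← hb] at t2
    obtain ⟨k1, k2⟩ := cr_of_tie t1 t2
    rw [v0, v1, v2, rp, rp', ef, ef', k1, k2]
    exact ⟨mul_ne_zero Complex.I_ne_zero t3, by ring, by ring⟩
  have sL : ∀ {r : RR}, Sm (1 / 2) r → ∀ c, Sm 1 (Lr r c) := by
    intro r hr c
    fin_cases c
    · exact hr.mono (by norm_num)
    · exact hr.star.mono (by norm_num)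
    · exact (hr.mul hr.star).mono (by norm_num)
  have sv : ∀ {r : RR} (z : ℂ), Sm (1 / 2) r → Sm (1 / 2) (r - K z) := fun z hr =>
    hr.sub ((sm_K z).mono (by norm_num))
  have sρ : ∀ {r : RR} (z : ℂ), Sm (1 / 2) r → Sm 1 (r * sr r - K z) := fun z hr =>
    (sL hr 2).sub ((sm_K z).mono (by norm_num))
  have cI : K (conj Complex.I) = -K Complex.I := by rw [Complex.conj_I, map_neg]
  refine ⟨e, ⟨?_, ?_, fun α hα => ?_, ext2 (fun c => ?_) (sL sp) (sL sq) fun n m => ?_⟩, ?_⟩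
  · simp only [he, Matrix.cons_val_zero, Matrix.cons_val_one, map_mul, map_sub, sr_sr, sr_K,
      Complex.conj_conj, cI]
    ring
  · simp only [he, Matrix.cons_val, map_mul, map_sub, sr_sr, sr_K, Complex.conj_conj, cI]
    ring
  · have k : ∀ A, -α 0 * conj (y Aᶜ) + -α 1 * y Aᶜ + α 2 = 0 := by
      intro A
      have := congrArg (ev (nt (ind A))) hα
      simp only [lin, map_add, map_mul, ev_K, map_zero] at this
      rw [(w A).2.1, (w A).2.2] at this
      exact mul_right_cancel₀ (w A).1 (by linear_combination this)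
    have ne : ∀ A B : Finset (Fin 4), A ≠ B → y Aᶜ ≠ y Bᶜ := fun A B hAB e' =>
      hAB (compl_injective (h.one.iy e'))
    obtain ⟨a1, a2, a3⟩ := yh_indep hS (h.one.my _) (h.one.my _) (h.one.my _)
      (ne ∅ {0} (singleton_ne_empty _).symm) (ne ∅ {1} (singleton_ne_empty _).symm)
      (ne {0} {1} (by simp)) (k _) (k _) (k _)
    funext c
    fin_cases c
    exacts [neg_eq_zero.1 a1, neg_eq_zero.1 a2, a3]
  · fin_cases c
    · exact ((sm_K _).mul ((((sv a sp).star.mul (sρ _ sp')).mono (by norm_num)).sub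
        (((sρ _ sp).mul (sv b sp').star).mono (by norm_num)))).mono (by norm_num : (0 : ℝ) + 2 ≤ 2)
    · exact ((sm_K _).mul ((((sρ _ sp).mul (sv b sp')).mono (by norm_num)).sub
        (((sv a sp).mul (sρ _ sp')).mono (by norm_num)))).mono (by norm_num : (0 : ℝ) + 2 ≤ 2)
    · exact ((sm_K _).mul ((((sv a sp).mul (sv b sp').star).mono (by norm_num)).sub
        (((sv a sp).star.mul (sv b sp')).mono (by norm_num)))).mono (by norm_num : (0 : ℝ) + 2 ≤ 2)
  · have e1 : nt n + nt m = nt (n + m) := by funext i; simp [nt]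
    have e2 := h0 n m
    rw [Fin.sum_univ_three, v0, v1, v2, e1, Lr_zero, Lr_zero, Lr_one, Lr_one, Lr_two, Lr_two]
    simp only [map_mul, ev_sr]
    rw [rp, rp', rp, rq]
    unfold detF det3 at e2
    linear_combination Complex.I * e2
  · have e1 : nt (ind (∅ : Finset (Fin 4))) = 0 := by funext i; simp [nt, ind]
    have := w ∅
    rw [e1, compl_empty] at this
    exact ⟨this.1, this.2.2⟩

/-- End of Theorem D. (A): `V (insert 0 I) - V I` is the same nonzero vector for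
`I = ∅, {1}, {2}`, against `diff_three`. (B): the circle `(o, A, 0)`, `A > 0`. (C): the curve
`(o, ‖p1‖, p2 ‖p1‖^2 / p1^2)`, parameters `t p1 / ‖p1‖`; the word is constant `0`
(`ta = p1 / ‖p1‖`, `tb = lam p1 / ‖p1‖`, `y univ = o - p2 lam`). `F` is the image of `P`
(16 points). -/
theorem end_d {S : Finset ℂ} (hS : Cvx S) {y V P : Finset (Fin 4) → ℂ} (h : PatD S y V P)
    {p q : RR} {e : Fin 3 → RR} (hp : ∀ A, ev (nt (ind A)) p = V A)
    (hq : ∀ A, ev (nt (ind A)) q = P A) (h2 : ev 0 (e 2) ≠ 0)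
    (h1 : ev 0 (e 1) = -y univ * ev 0 (e 2))
    (hc : CaseA p ∨ CaseB p q ∨ ∃ o, CaseC p q e o) : Concl y V P := by
  have e0 : nt (ind (∅ : Finset (Fin 4))) = 0 := by funext i; simp [nt, ind]
  have s0 : st (fun _ : Fin 4 => (0 : Fin 3)) 0 = univ := by ext i; simp [mem_st]
  have s1 : st (fun _ : Fin 4 => (0 : Fin 3)) 1 = ∅ := by ext i; simp [mem_st]
  have s2 : st (fun _ : Fin 4 => (0 : Fin 3)) 2 = ∅ := by ext i; simp [mem_st]
  have fin : ∀ w : Cv, Valid w → Good w (y univ) (V ∅) (P ∅) → (∀ J, On w (P J)) →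
      Concl y V P := by
    intro w hw hg ho
    refine ⟨w, hw, ⟨fun _ => 0, by rwa [s0, s1, s2]⟩, univ.image P, ?_, fun z hz => ?_⟩
    · rw [card_image_of_injective _ h.iP]; simp
    · obtain ⟨J, _, rfl⟩ := mem_image.1 hz
      exact ⟨ho J, J, rfl⟩
  rcases hc with hc | ⟨o, A, hc⟩ | ⟨o, p1, p2, lam, μ, n1, n2, n3, e1, e2, e3⟩
  · exfalso
    have k : ∀ i : Fin 4, i ≠ 0 → V {i} + (V {0} - V ∅) = V ({0} ∪ {i}) := by
      intro i hi
      have := hc 0 (nt (ind {0})) (nt (ind {i}))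
      have e1 : nt (ind ({0} : Finset (Fin 4))) + nt (ind {i}) = nt (ind ({0} ∪ {i})) := by
        funext j
        by_cases j0 : j = 0
        · subst j0; simp [nt, ind, hi.symm]
        · simp [nt, ind, j0]
      rw [zero_add, zero_add, e1, ← e0, hp, hp, hp, hp] at this
      linear_combination -this
    refine diff_three hS (v := V {0} - V ∅) (a := V ∅) (b := V {1}) (c := V {2})
      (sub_ne_zero.2 fun e' => singleton_ne_empty _ (h.iV e')) (h.mV _) (h.mV _) (h.mV _)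
      (fun e' => singleton_ne_empty _ (h.iV e').symm)
      (fun e' => singleton_ne_empty _ (h.iV e').symm)
      (fun e' => absurd (singleton_injective (h.iV e')) (by decide)) ?_ ?_ ?_
    · rw [add_sub_cancel]; exact h.mV _
    · rw [k 1 (by decide)]; exact h.mV _
    · rw [k 2 (by decide)]; exact h.mV _
  · have A0 : 0 < A := by
      refine lt_of_le_of_ne ((hc 0).1 ▸ norm_nonneg _) fun e' => h.ne ∅ ∅ ?_
      have a1 := (hc (nt (ind ∅))).1
      have a2 := (hc (nt (ind ∅))).2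
      rw [← e', norm_eq_zero, sub_eq_zero] at a1 a2
      rw [← hp, ← hq, a1, a2]
    have k : ∀ z : ℂ, ‖z - o‖ = A → ‖(z - o) / A‖ = 1 ∧ z = zc (o, A, 0) ((z - o) / A) := by
      intro z hz
      have : (A : ℂ) ≠ 0 := by exact_mod_cast A0.ne'
      refine ⟨by rw [norm_div, hz, Complex.norm_real, Real.norm_of_nonneg A0.le, div_self A0.ne'],
        ?_⟩
      simp only [zc]; field_simp; ring
    have kP : ∀ J, ‖P J - o‖ = A := fun J => by rw [← hq]; exact (hc _).2
    have kV : ‖V ∅ - o‖ = A := by rw [← hp]; exact (hc _).1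
    exact fin (o, A, 0) A0 ⟨_, _, (k _ kV).1, (k _ (kP ∅)).1, (k _ kV).2, (k _ (kP ∅)).2,
      Or.inl rfl⟩ fun J => ⟨_, k _ (kP J)⟩
  · have c0 : 0 < ‖p1‖ := norm_pos_iff.2 n1
    have c1 : (‖p1‖ : ℂ) ≠ 0 := by exact_mod_cast c0.ne'
    have k : ∀ t : ℂ, ‖t‖ = 1 → ‖t * p1 / ‖p1‖‖ = 1 ∧ o + p1 * t + p2 * t ^ 2 =
        zc (o, ‖p1‖, p2 * (‖p1‖ : ℂ) ^ 2 / p1 ^ 2) (t * p1 / ‖p1‖) := by
      intro t ht
      refine ⟨by rw [norm_div, norm_mul, ht, one_mul, Complex.norm_real, norm_norm,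
        div_self c0.ne'], ?_⟩
      simp only [zc]; field_simp
    have kP : ∀ J, P J = o + p1 * (lam * ex μ (nt (ind J))) +
        p2 * (lam * ex μ (nt (ind J))) ^ 2 := fun J => by
      rw [← hq, e2]; simp only [map_add, map_mul, map_pow, ev_K, ev_E]; ring
    have kV : V ∅ = o + p1 * 1 + p2 * 1 ^ 2 := by
      rw [← hp, e1, e0]; simp only [map_add, map_mul, map_pow, ev_K, ev_E, ex_zero_right]
    have ky : y univ = o - p2 * lam := by
      have := congrArg (ev 0) e3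
      simp only [map_add, map_mul, map_sub, ev_K, ev_E, ex_zero_right, map_zero] at this
      rw [h1] at this
      exact mul_right_cancel₀ h2 (by linear_combination -this)
    have nt1 : ∀ J, ‖lam * ex μ (nt (ind J))‖ = 1 := fun J => by
      rw [norm_mul, n2, norm_ex n3, one_mul]
    refine fin (o, ‖p1‖, p2 * (‖p1‖ : ℂ) ^ 2 / p1 ^ 2) c0
      ⟨_, _, (k 1 norm_one).1, (k _ (nt1 ∅)).1, kV.trans (k 1 norm_one).2,
        (kP ∅).trans (k _ (nt1 ∅)).2, Or.inr ?_⟩
      fun J => ⟨_, (k _ (nt1 J)).1, (kP J).trans (k _ (nt1 J)).2⟩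
    rw [ky, e0, ex_zero_right]
    simp only; field_simp

end Pool.Agent.Lib.MP_990519_co.D
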