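import Pool.Agent.Lib.MP_990519_co.D.Stab1
import Pool.Agent.Lib.MP_990519_co.D.Hank

namespace Pool.Agent.Lib.MP_990519_co.D

open Pool.Agent.Lib.MP_990519_co.Big Finset
open scoped Classical ComplexConjugate

/-- Commuting operators give a finite dimensional function space. -/
theorem fd_of_comm {η W : Type} [Fintype η] [AddCommGroup W] [Module ℂ W]
    [FiniteDimensional ℂ W] {D : ℕ} (hD : Module.finrank ℂ W ≤ D) (T : η → Module.End ℂ W)
    (hT : ∀ s t, T s * T t = T t * T s) (w : W) (ℓ : W →ₗ[ℂ] ℂ) :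
    ∃ Φ : (η → ℕ) → Module.End ℂ W, Φ 0 = 1 ∧ (∀ n s, Φ (n + ind {s}) = T s * Φ n) ∧
      FD D (fun n => ℓ (Φ n w)) := by
  have hc : Pairwise fun s t : η => ∀ x y : Multiplicative ℕ,
      Commute (powersHom _ (T s) x) (powersHom _ (T t) y) := fun s t _ x y =>
    Commute.pow_pow (hT s t) _ _
  obtain ⟨Ψ, hΨ⟩ : ∃ Ψ : (η → Multiplicative ℕ) →* Module.End ℂ W,
      ∀ s, Ψ (Pi.mulSingle s (Multiplicative.ofAdd 1)) = T s :=
    ⟨MonoidHom.noncommPiCoprod (fun s => powersHom _ (T s)) hc, fun s => by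
      rw [MonoidHom.noncommPiCoprod_mulSingle]
      exact pow_one _⟩
  have ha : ∀ n m : η → ℕ, Ψ (fun s => Multiplicative.ofAdd ((n + m) s)) =
      Ψ (fun s => Multiplicative.ofAdd (n s)) * Ψ (fun s => Multiplicative.ofAdd (m s)) :=
    fun n m => Ψ.map_mul _ _
  refine ⟨fun n => Ψ fun s => Multiplicative.ofAdd (n s), Ψ.map_one, fun n s => ?_,
    LinearMap.range (LinearMap.pi fun n : η → ℕ => ℓ ∘ₗ Ψ fun s => Multiplicative.ofAdd (n s)),
    inferInstance, (LinearMap.finrank_range_le _).trans hD, ⟨w, rfl⟩, ?_⟩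
  · beta_reduce
    rw [add_comm, ha, ← hΨ s]
    refine congrArg (fun z => Ψ z * _) (funext fun t => ?_)
    by_cases h : t = s <;> simp [ind, h]
  · rintro _ ⟨v, rfl⟩ a
    refine ⟨Ψ (fun s => Multiplicative.ofAdd (a s)) v, funext fun n => ?_⟩
    simp only [LinearMap.pi_apply, LinearMap.comp_apply, ha, Module.End.mul_apply]

/-- Paper 3.3 (b). -/
theorem stab {ι η : Type} [Fintype ι] [Fintype η] {D : ℕ} {V : Finset ι → ℂ} (h : LowRank D V)
    (hc : (D + 1) * Fintype.card η ≤ Fintype.card ι) :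
    ∃ (e : η ↪ ι) (f : (η → ℕ) → ℂ), FD D f ∧ ∀ A, f (ind A) = V (A.map e) := by
  obtain ⟨M, L, T, h1, -, -, h4, hst⟩ := stab1 h hc
  obtain ⟨e, he⟩ : ∃ e : η ↪ ι, ∀ s, e s ∈ T :=
    ⟨(Fintype.equivOfCardEq (α := η) (β := T) (by simp [h4])).toEmbedding.trans
      (Function.Embedding.subtype _), fun s => Subtype.prop _⟩
  choose hW Ts hTs using fun s => shift_op hst (he s)
  have hm : ∀ s, ∀ w ∈ rsp V M L, Ts s w ∈ rsp V M L := fun s w hw => by
    refine (Submodule.span_le (p := (rsp V M L).comap (Ts s))).2 ?_ hw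
    rintro _ ⟨A, hA, rfl⟩
    change Ts s _ ∈ rsp V M L
    rw [hTs s A (Subset.trans hA subset_union_left)]
    exact hW s _ (insert_subset (mem_union_right _ (he s)) (Subset.trans hA subset_union_left))
  have two : ∀ s t, s ≠ t → ∀ A ⊆ M,
      Ts s (Ts t (row V L A)) = row V L (insert (e s) (insert (e t) A)) := fun s t hn A hA => by
    rw [hTs t A (hA.trans subset_union_left), hTs s _ (insert_subset (mem_union_right _
      (mem_erase.2 ⟨e.injective.ne hn.symm, he t⟩)) (hA.trans subset_union_left))]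
  obtain ⟨Φ, p0, p1, p2⟩ := fd_of_comm (W := rsp V M L) (rk_le h h1)
    (fun s => (Ts s).restrict (hm s)) (fun s t => by
      rcases eq_or_ne s t with rfl | hn
      · rfl
      refine LinearMap.ext fun w => Subtype.ext ?_
      refine LinearMap.eqOn_span' (f := Ts s ∘ₗ Ts t) (g := Ts t ∘ₗ Ts s) ?_ w.2
      rintro _ ⟨A, hA, rfl⟩
      change Ts s (Ts t _) = Ts t (Ts s _)
      rw [two s t hn A hA, two t s hn.symm A hA, insert_comm])
    ⟨row V L ∅, Submodule.subset_span ⟨∅, empty_subset M, rfl⟩⟩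
    (LinearMap.proj ∅ ∘ₗ (rsp V M L).subtype)
  refine ⟨e, _, p2, fun A => ?_⟩
  have key : (Φ (ind A) ⟨row V L ∅, Submodule.subset_span ⟨∅, empty_subset M, rfl⟩⟩).1 =
      row V L (A.map e) := by
    induction A using Finset.induction_on with
    | empty => rw [ind_empty, p0, map_empty]; rfl
    | insert a A ha ih =>
      rw [insert_eq, union_comm, ind_union (disjoint_singleton_right.2 ha), p1, union_comm,
        ← insert_eq, map_insert, ← hTs a, ← ih]
      · rfl
      · intro i hi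
        obtain ⟨s, hs, rfl⟩ := mem_map.1 hi
        exact mem_union_right _ (mem_erase.2 ⟨e.injective.ne fun h => ha (h ▸ hs), he s⟩)
  refine (congrFun key ∅).trans ?_
  simp [row]

/-- `hankel` and `stab` together -/
theorem stageB {ι η : Type} [Fintype ι] [Fintype η]
    (hc : 10 * Fintype.card η + 2 ≤ Fintype.card ι) {S : Finset ℂ} (hS : Cvx S)
    {y V P : Finset ι → ℂ} (h : PatD S y V P) :
    ∃ idx : ι → Fin 3 ⊕ η, Onto idx ∧ Only0 idx ∧
      ∃ f : (η → ℕ) → ℂ, FD 9 f ∧ Ext f (Res idx 1 V) := by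
  obtain ⟨g⟩ : Nonempty (Fin (10 * Fintype.card η) ⊕ Fin 2 ↪ ι) :=
    Function.Embedding.nonempty_of_card_le (by simpa using hc)
  obtain ⟨e, f, h1, h2⟩ := stab (η := η) (hankel hS h (Function.Embedding.inl.trans g)
    (a := g (Sum.inr 0)) (b := g (Sum.inr 1)) (g.injective.ne (by simp))
    (fun s => g.injective.ne Sum.inl_ne_inr) fun s => g.injective.ne Sum.inl_ne_inr) (by simp)
  refine ⟨idxOf (e.trans (Function.Embedding.inl.trans g)) ∅ 0, idxOf_onto _ _ _,
    idxOf_only0 _ _, f, h1, fun A => ?_⟩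
  rw [h2, Res, emb_idxOf_empty _ _ one_ne_zero, map_map]

end Pool.Agent.Lib.MP_990519_co.D
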