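import Pool.Agent.Lib.MP_990519_co.D.Res

namespace Pool.Agent.Lib.MP_990519_co.D

open Pool.Agent.Lib.MP_990519_co.Big Finset
open scoped Classical ComplexConjugate

/-- the functions in `W` that vanish on the disjoint pairs inside `T` -/
def jv_vi {ι : Type} (W : Submodule ℂ ((ι → ℕ) × (ι → ℕ) → ℂ)) (T : ι → Prop) :
    Submodule ℂ ((ι → ℕ) × (ι → ℕ) → ℂ) where
  carrier := {G | G ∈ W ∧ ∀ I J : Finset ι, Disjoint I J → (∀ i ∈ I, T i) → (∀ i ∈ J, T i) →
    G (ind I, ind J) = 0}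
  zero_mem' := ⟨W.zero_mem, fun _ _ _ _ _ => rfl⟩
  add_mem' := fun h h' => ⟨W.add_mem h.1 h'.1, fun I J a b c => by
    rw [Pi.add_apply, h.2 I J a b c, h'.2 I J a b c, add_zero]⟩
  smul_mem' := fun z _ h => ⟨W.smul_mem z h.1, fun I J a b c => by
    rw [Pi.smul_apply, h.2 I J a b c, smul_zero]⟩

/-- the shifts that preserve a space of functions -/
def sh_vi {M : Type} [AddCommMonoid M] (J : Submodule ℂ (M → ℂ)) : AddSubmonoid M where
  carrier := {a | ∀ G ∈ J, (fun n => G (n + a)) ∈ J}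
  zero_mem' := fun G hG => by simpa using hG
  add_mem' := fun {a b} ha hb G hG => by
    simpa only [add_assoc] using ha _ (hb G hG)

lemma chain_vi {V : Type} [AddCommGroup V] [Module ℂ V] {D : ℕ} (W : Submodule ℂ V)
    [FiniteDimensional ℂ W] (hW : Module.finrank ℂ W ≤ D) (J : ℕ → Submodule ℂ V)
    (h0 : ∀ j, J j ≤ W) (h1 : ∀ j, J (j + 1) ≤ J j) : ∃ j ≤ D, J j ≤ J (j + 1) := by
  by_contra hn
  push Not at hn
  have h2 : ∀ j ≤ D + 1, Module.finrank ℂ (J j) + j ≤ D := by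
    intro j
    induction j with
    | zero => exact fun _ => (Submodule.finrank_mono (h0 0)).trans hW
    | succ j ih =>
      intro hj
      have := Submodule.finiteDimensional_of_le (h0 j)
      have h3 := Submodule.finrank_lt_finrank_of_lt
        (lt_of_le_not_ge (h1 j) (hn j (by omega)))
      have h4 := ih (by omega)
      omega
  have := h2 (D + 1) le_rfl
  omega

lemma xt_sum_vi {ι η : Type} [Fintype η] (e : η ↪ ι) (n : η → ℕ) :
    xt e n = ∑ s, n s • ind {e s} := by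
  funext i
  rw [Finset.sum_apply]
  by_cases h : ∃ s, e s = i
  · obtain ⟨s, rfl⟩ := h
    rw [xt_apply, sum_eq_single s (fun t _ ht => by simp [ind, ht.symm]) (by simp)]
    simp [ind]
  · push Not at h
    rw [xt_of_not e n h]
    exact (sum_eq_zero fun s _ => by simp [ind, (h s).symm]).symm

/-- Paper 3.3 (e): a descending chain of spaces is stationary at some layer. -/
theorem virt {ι η : Type} [Fintype ι] [Fintype η] {D : ℕ} {F : (ι → ℕ) × (ι → ℕ) → ℂ}
    (hF : FD D F) (h0 : ∀ I J : Finset ι, Disjoint I J → F (ind I, ind J) = 0)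
    (hc : (D + 1) * Fintype.card η ≤ Fintype.card ι) :
    ∃ e : η ↪ ι, ∀ n m : η → ℕ, F (xt e n, xt e m) = 0 := by
  obtain ⟨W, hfd, hW, hFW, hs⟩ := hF
  obtain ⟨u⟩ : Nonempty (Fin (D + 1) × η ↪ ι) :=
    Function.Embedding.nonempty_of_card_le (by simpa using hc)
  obtain ⟨j, hj, hJ⟩ := chain_vi W hW
    (fun j => jv_vi W fun i => ∃ (k : Fin (D + 1)) (s : η), k.val < j ∧ u (k, s) = i)
    (fun _ _ h => h.1) fun j G h => ⟨h.1, fun I J a b c => h.2 I J a
      (fun i hi => (b i hi).imp fun k => Exists.imp fun s t => ⟨t.1.trans (Nat.lt_succ_self j), t.2⟩)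
      (fun i hi => (c i hi).imp fun k => Exists.imp fun s t => ⟨t.1.trans (Nat.lt_succ_self j), t.2⟩)⟩
  let e : η ↪ ι := ⟨fun s => u (⟨j, by omega⟩, s), fun s t h => (Prod.ext_iff.1 (u.injective h)).2⟩
  set T : ℕ → ι → Prop := fun j i => ∃ (k : Fin (D + 1)) (s : η), k.val < j ∧ u (k, s) = i with hT
  have a1 : ∀ (s : η) (I : Finset ι), (∀ i ∈ I, T j i) → Disjoint I {e s} := by
    intro s I hI
    refine disjoint_singleton_right.2 fun h => ?_
    obtain ⟨k, t, h1, h2⟩ := hI _ h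
    have h3 := congrArg (fun p => p.1.val) (u.injective h2)
    exact h1.ne h3
  have a2 : ∀ I : Finset ι, (∀ i ∈ I, T j i) → ∀ i ∈ I, T (j + 1) i := fun I hI i hi =>
    (hI i hi).imp fun k => Exists.imp fun s t => ⟨t.1.trans (Nat.lt_succ_self j), t.2⟩
  have a3 : ∀ (s : η) (I : Finset ι), (∀ i ∈ I, T j i) → ∀ i ∈ I ∪ {e s}, T (j + 1) i := by
    intro s I hI i hi
    rcases mem_union.1 hi with h | h
    · exact a2 I hI i h
    · exact ⟨⟨j, by omega⟩, s, Nat.lt_succ_self j, (mem_singleton.1 h).symm⟩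
  have b1 : ∀ s, ((ind {e s}, 0) : (ι → ℕ) × (ι → ℕ)) ∈ sh_vi (jv_vi W (T j)) := by
    refine fun s G hG => ⟨hs G hG.1 _, fun I J a b c => ?_⟩
    have h1 := (hJ hG).2 (I ∪ {e s}) J (disjoint_union_left.2 ⟨a, (a1 s J c).symm⟩)
      (a3 s I b) (a2 J c)
    rw [ind_union (a1 s I b)] at h1
    simpa using h1
  have b2 : ∀ s, ((0, ind {e s}) : (ι → ℕ) × (ι → ℕ)) ∈ sh_vi (jv_vi W (T j)) := by
    refine fun s G hG => ⟨hs G hG.1 _, fun I J a b c => ?_⟩
    have h1 := (hJ hG).2 I (J ∪ {e s}) (disjoint_union_right.2 ⟨a, a1 s I b⟩)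
      (a2 I b) (a3 s J c)
    rw [ind_union (a1 s J c)] at h1
    simpa using h1
  refine ⟨e, fun n m => ?_⟩
  have c1 : (xt e n, xt e m) = ∑ s, n s • ((ind {e s}, 0) : (ι → ℕ) × (ι → ℕ)) +
      ∑ s, m s • ((0, ind {e s}) : (ι → ℕ) × (ι → ℕ)) := by
    refine Prod.ext ?_ ?_ <;> simp [Prod.fst_sum, Prod.snd_sum, xt_sum_vi]
  have c2 : (xt e n, xt e m) ∈ sh_vi (jv_vi W (T j)) :=
    c1 ▸ add_mem (sum_mem fun s _ => nsmul_mem (b1 s) _) (sum_mem fun s _ => nsmul_mem (b2 s) _)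
  have c3 := (c2 F ⟨hFW, fun I J a _ _ => h0 I J a⟩).2 ∅ ∅ (disjoint_empty_left _)
    (by simp) (by simp)
  simpa [ind_empty] using c3

end Pool.Agent.Lib.MP_990519_co.D
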