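import Pool.Agent.Lib.MP_990519_co.D.HJ
import Pool.Agent.Lib.MP_990519_co.D.Stab2
import Pool.Agent.Lib.MP_990519_co.D.FDc
import Pool.Agent.Lib.MP_990519_co.D.Virt
import Pool.Agent.Lib.MP_990519_co.D.EPf
import Pool.Agent.Lib.MP_990519_co.D.Blk
import Pool.Agent.Lib.MP_990519_co.D.Core
import Pool.Agent.Lib.MP_990519_co.D.Mk

namespace Pool.Agent.Lib.MP_990519_co.D

open Pool.Agent.Lib.MP_990519_co.Big Finset
open scoped Classical ComplexConjugate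

/-- a non-mirror pattern with extensions of `V, V', P` -/
structure XP (S : Finset ℂ) {ι : Type} [Fintype ι] (y V V' P P' : Finset ι → ℂ)
    (f f' g : (ι → ℕ) → ℂ) : Prop where
  nm : NM S y V V' P P'
  ef : Ext f V
  ef' : Ext f' V'
  eg : Ext g P
  df : FD 9 f
  df' : FD 9 f'
  dg : FD 9 g

lemma XP.res {S : Finset ℂ} {ι η : Type} [Fintype ι] [Fintype η] {y V V' P P' : Finset ι → ℂ}
    {f f' g : (ι → ℕ) → ℂ} (h : XP S y V V' P P' f f' g) {idx : ι → Fin 3 ⊕ η} (ho : Onto idx) :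
    XP S (Res idx 0 y) (Res idx 1 V) (Res idx 1 V') (Res idx 2 P) (Res idx 2 P')
      (Rn idx 1 f) (Rn idx 1 f') (Rn idx 2 g) :=
  ⟨h.nm.res ho, h.ef.res idx 1, h.ef'.res idx 1, h.eg.res idx 2, h.df.rn idx 1, h.df'.rn idx 1,
    h.dg.rn idx 2⟩

/-- the determinant identity survives a restriction without new fixed states 1, 2 -/
lemma det_res {ι η : Type} [Fintype ι] {P P' : Finset ι → ℂ} {f f' g : (ι → ℕ) → ℂ}
    {idx : ι → Fin 3 ⊕ η} (h0 : Only0 idx) (n m : η → ℕ) :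
    detF (Rn idx 1 f) (Rn idx 1 f') (Rn idx 2 g) (Res idx 2 P ∅) (Res idx 2 P' ∅) (n, m) =
      detF f f' g (P ∅) (P' ∅) (argn idx 1 n, argn idx 1 m) := by
  simp only [detF, Rn, Res, h0.emb_empty (show (2 : Fin 3) ≠ 0 by decide), h0.argn_add,
    h0.argn_eq]

/-- last stage: blocks, the ring, the core theorem -/
lemma stage5 : ∃ N : ℕ, ∀ (ι : Type) [Fintype ι], N ≤ Fintype.card ι → ∀ S : Finset ℂ, Cvx S →
    ∀ (y V V' P P' : Finset ι → ℂ) (f f' g : (ι → ℕ) → ℂ), XP S y V V' P P' f f' g →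
      EP 9 f → EP 9 f' → EP 9 g → (∀ n m, detF f f' g (P ∅) (P' ∅) (n, m) = 0) →
        Concl y V P := by
  refine ⟨4 * 14 ^ Fintype.card (Fin 3 × Fin 9),
    fun ι _ hc S hS y V V' P P' f f' g h e1 e2 e3 h0 => ?_⟩
  obtain ⟨l1, n1, w1⟩ := e1
  obtain ⟨l2, n2, w2⟩ := e2
  obtain ⟨l3, n3, w3⟩ := e3
  obtain ⟨idx, ho, hz, hb⟩ := blocks (κ := Fin 3 × Fin 9) (ι := ι) hc
    (fun a => ![l1, l2, l3] a.1 a.2) (by
      rintro ⟨a, b⟩ s
      fin_cases a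
      · exact n1 b s
      · exact n2 b s
      · exact n3 b s)
  have x := h.res ho
  obtain ⟨p, sp, rp⟩ := rep_of_epw (fun a e => hb (0, a) e) (w1.rn idx 1)
  obtain ⟨p', sp', rp'⟩ := rep_of_epw (fun a e => hb (1, a) e) (w2.rn idx 1)
  obtain ⟨q, sq, rq⟩ := rep_of_epw (fun a e => hb (2, a) e) (w3.rn idx 2)
  obtain ⟨e, cd, h2, h1⟩ := mk_cd hS x.nm x.ef x.ef' sp sp' sq rp rp' rq
    (fun n m => by rw [det_res hz]; exact h0 _ _)
  exact concl_lift idx (end_d hS x.nm.one (fun A => (rp _).trans (x.ef A))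
    (fun A => (rq _).trans (x.eg A)) h2 h1 cd.core)

/-- virtual extension -/
lemma stage4 : ∃ N : ℕ, ∀ (ι : Type) [Fintype ι], N ≤ Fintype.card ι → ∀ S : Finset ℂ, Cvx S →
    ∀ (y V V' P P' : Finset ι → ℂ) (f f' g : (ι → ℕ) → ℂ), XP S y V V' P P' f f' g →
      EP 9 f → EP 9 f' → EP 9 g → Concl y V P := by
  obtain ⟨D', hD⟩ := fd_detF
  obtain ⟨N, H⟩ := stage5
  refine ⟨(D' + 1) * N, fun ι _ hc S hS y V V' P P' f f' g h e1 e2 e3 => ?_⟩
  obtain ⟨e, he⟩ := virt (η := Fin N) (hD ι f f' g (P ∅) (P' ∅) h.df h.df' h.dg)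
    (fun I J hIJ => by
      obtain ⟨χ, c1, c2, c0⟩ := exists_word hIJ
      obtain ⟨χ', d1, d2, d0⟩ := exists_word (I := I ∪ J) (J := ∅) (by simp)
      have t1 := h.nm.one.tie χ'
      have t2 := h.nm.two.tie χ'
      have t3 := h.nm.one.tie χ
      rw [d1, d2, d0, union_empty] at t1 t2
      rw [c1, c2, c0] at t3
      simp only [detF, ← ind_union hIJ, h.ef _, h.ef' _, h.eg _]
      exact det3_of_tie t1 t2 t3)
    (by simpa using hc)
  have ho := idxOf_onto e ∅ 0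
  have hz := idxOf_only0 e 0
  refine concl_lift (idxOf e ∅ 0) (H (Fin N) (by simp) S hS _ _ _ _ _ _ _ _ (h.res ho)
    (e1.rn _ 1) (e2.rn _ 1) (e3.rn _ 2) (fun n m => ?_))
  rw [det_res hz, argn_idxOf_empty e 0 (by decide), argn_idxOf_empty e 0 (by decide)]
  exact he n m

/-- the three bases -/
lemma stage3 : ∃ N : ℕ, ∀ (ι : Type) [Fintype ι], N ≤ Fintype.card ι → ∀ S : Finset ℂ, Cvx S →
    ∀ (y V V' P P' : Finset ι → ℂ) (f f' g : (ι → ℕ) → ℂ), XP S y V V' P P' f f' g →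
      Concl y V P := by
  obtain ⟨N, H⟩ := stage4
  refine ⟨9 + (9 + (9 + N)), fun ι _ hc S hS y V V' P P' f f' g h => ?_⟩
  obtain ⟨i1, o1, e1⟩ := stageC (η := Fin (9 + (9 + N))) h.df (by simpa using hc)
    (show (1 : Fin 3) ≠ 0 by decide)
  have x1 := h.res o1
  obtain ⟨i2, o2, e2⟩ := stageC (η := Fin (9 + N)) x1.df' (by simp)
    (show (1 : Fin 3) ≠ 0 by decide)
  have x2 := x1.res o2
  obtain ⟨i3, o3, e3⟩ := stageC (η := Fin N) x2.dg (by simp) (show (2 : Fin 3) ≠ 0 by decide)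
  have x3 := x2.res o3
  exact concl_lift i1 (concl_lift i2 (concl_lift i3 (H (Fin N) (by simp) S hS _ _ _ _ _ _ _ _ x3
    ((e1.rn i2 1).rn i3 1) (e2.rn i3 1) e3)))

/-- the three Hankel stabilisations -/
lemma stage2 : ∃ N : ℕ, ∀ (ι : Type) [Fintype ι], N ≤ Fintype.card ι → ∀ S : Finset ℂ, Cvx S →
    ∀ y V V' P P' : Finset ι → ℂ, NM S y V V' P P' → Concl y V P := by
  obtain ⟨N, H⟩ := stage3
  refine ⟨10 * (10 * (10 * N + 2) + 2) + 2, fun ι _ hc S hS y V V' P P' h => ?_⟩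
  obtain ⟨i1, o1, -, f, df, ef⟩ := stageB (η := Fin (10 * (10 * N + 2) + 2)) (by simpa using hc)
    hS h.one
  have x1 := h.res o1
  obtain ⟨i2, o2, -, f', df', ef'⟩ := stageB (η := Fin (10 * N + 2)) (by simp) hS x1.two
  have x2 := x1.res o2
  obtain ⟨i3, o3, z3, g, dg, eg⟩ := stageB (η := Fin N) (by simp) hS (patD_swap x2.one)
  have x3 := x2.res o3
  refine concl_lift i1 (concl_lift i2 (concl_lift i3 (H (Fin N) (by simp) S hS _ _ _ _ _
    (Rn i3 1 (Rn i2 1 f)) (Rn i3 1 f') g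
    ⟨x3, (ef.res i2 1).res i3 1, ef'.res i3 1, fun A => ?_, (df.rn i2 1).rn i3 1, df'.rn i3 1,
      dg⟩)))
  rw [eg A]
  simp only [Res, z3.emb_eq]

/-- Theorem D -/
theorem thmD : ∃ k : ℕ, Big.Rigid k := by
  obtain ⟨N, H⟩ := stage2
  exact rigid_of_nm N H

end Pool.Agent.Lib.MP_990519_co.D
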