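import Pool.Agent.Lib.MP_990519_co.D.Res

namespace Pool.Agent.Lib.MP_990519_co.D

open Pool.Agent.Lib.MP_990519_co.Big Finset
open scoped Classical ComplexConjugate

/-- the reflection in the bisector of `V` and `P`, which passes through `y` -/
lemma refl_mir {y V P : ℂ} (h : V ≠ P) : ∃ a b : ℂ, a * conj a = 1 ∧ a * conj b + b = 0 ∧
    a * conj y + b = y ∧ ∀ V' P' : ℂ, V' ≠ P' → par (V - P) (V' - P') = 0 →
      dist y V' = dist y P' → a * conj P' + b = V' := by
  have h0 : V - P ≠ 0 := sub_ne_zero.2 h
  generalize V - P = v at h0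
  have h1 : conj v ≠ 0 := (map_ne_zero _).2 h0
  have ha : -v / conj v * conj (-v / conj v) = 1 := by
    rw [map_div₀, map_neg, Complex.conj_conj]
    field_simp
  have hv : -v / conj v * conj v = -v := div_mul_cancel₀ _ h1
  generalize -v / conj v = a at ha hv
  refine ⟨a, y - a * conj y, ha, ?_, by ring, fun V' P' hn hp ht => ?_⟩
  · rw [map_sub, map_mul, Complex.conj_conj]
    linear_combination -y * ha
  · rw [tie_iff] at ht
    have h2 : conj V' - conj P' ≠ 0 := by
      rw [← map_sub]
      exact (map_ne_zero _).2 (sub_ne_zero.2 hn)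
    have h3 : a * (conj V' - conj P') = -(V' - P') := by
      rw [par, map_sub] at hp
      apply mul_left_cancel₀ h1
      linear_combination (conj V' - conj P') * hv - hp
    apply mul_left_cancel₀ h2
    linear_combination (conj P' - conj y) * h3 - ht

/-- the fixed point of a rotation that is a product of two reflections lies on both mirrors -/
lemma fix_mir {a b a' b' O : ℂ} (h1 : a * conj a = 1) (h2 : a * conj b + b = 0)
    (h1' : a' * conj a' = 1) (h2' : a' * conj b' + b' = 0) (hl : a' * conj a ≠ 1)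
    (hO : a' * conj a * O + (a' * conj b + b') = O) : a * conj O + b = O ∧ a' * conj O + b' = O := by
  have c := congrArg conj hO
  simp only [map_add, map_mul, Complex.conj_conj] at c
  have e : a * conj O + b = a' * conj O + b' := by
    linear_combination a' * c - (a * conj O + b) * h1' - h2'
  have c2 := congrArg conj h2
  simp only [map_add, map_mul, Complex.conj_conj, map_zero] at c2
  have f : a * conj O + b = O := by
    apply mul_left_cancel₀ (sub_ne_zero.2 hl)
    linear_combination a' * conj O * h1 + a' * c2 - e - hO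
  exact ⟨f, e ▸ f⟩

/-- Paper 3.2: the reflections in the bisectors have a common fixed point. -/
theorem mirror_core {S : Finset ℂ} (hS : Cvx S) {J : Type} [Nontrivial J]
    (Y : Fin 3 → J → ℂ) (V : Fin 3 → Fin 3 → ℂ) (P : J → Fin 3 → ℂ)
    (mY : ∀ w j, Y w j ∈ S) (mP : ∀ j i, P j i ∈ S)
    (iY : ∀ j w w', Y w j = Y w' j → w = w')
    (iP : ∀ i j j', P j i = P j' i → j = j') (iP' : ∀ j i i', P j i = P j i' → i = i')
    (ne : ∀ w j i, V w i ≠ P j i)
    (tie : ∀ w j i, dist (Y w j) (V w i) = dist (Y w j) (P j i))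
    (mir : ∀ w j i, par (V w 0 - P j 0) (V w i - P j i) = 0) :
    ∃ O : ℂ, ∀ j, ‖V 0 0 - O‖ = ‖P j 0 - O‖ := by
  choose a b h1 h2 h3 h4 using fun w j => refl_mir (y := Y w j) (ne w j 0)
  have hV : ∀ w j i, a w j * conj (P j i) + b w j = V w i := fun w j i =>
    h4 w j _ _ (ne w j i) (mir w j i) (tie w j i)
  have rot : ∀ w j j' i, P j' i =
      a w j' * conj (a w j) * P j i + (a w j' * conj (b w j) + b w j') := fun w j j' i => by
    have c := congrArg conj ((hV w j i).trans (hV w j' i).symm)
    simp only [map_add, map_mul, Complex.conj_conj] at c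
    linear_combination -a w j' * c - P j' i * h1 w j' - h2 w j'
  have p01 : ∀ j, P j 0 ≠ P j 1 := fun j e => absurd (iP' j _ _ e) (by decide)
  have two : ∀ j j', j ≠ j' → ∃ O, ∀ w, a w j * conj O + b w j = O ∧ a w j' * conj O + b w j' = O := by
    intro j j' hj
    have hl : ∀ w, a w j' * conj (a w j) ≠ 1 := fun w e => by
      have r := fun i => rot w j j' i
      simp only [e, one_mul] at r
      refine diff_three hS (v := a w j' * conj (b w j) + b w j') (fun e0 => hj (iP 0 _ _ ?_))
        (mP j 0) (mP j 1) (mP j 2) (p01 j) (fun e => absurd (iP' j _ _ e) (by decide))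
        (fun e => absurd (iP' j _ _ e) (by decide)) (r 0 ▸ mP j' 0) (r 1 ▸ mP j' 1) (r 2 ▸ mP j' 2)
      rw [r 0, e0, add_zero]
    have l0 : 1 - a 0 j' * conj (a 0 j) ≠ 0 := sub_ne_zero.2 (hl 0).symm
    refine ⟨(a 0 j' * conj (b 0 j) + b 0 j') / (1 - a 0 j' * conj (a 0 j)), fun w =>
      fix_mir (h1 w j) (h2 w j) (h1 w j') (h2 w j') (hl w) ?_⟩
    have el : a w j' * conj (a w j) = a 0 j' * conj (a 0 j) := by
      apply mul_left_cancel₀ (sub_ne_zero.2 (p01 j))
      linear_combination rot 0 j j' 0 - rot 0 j j' 1 - rot w j j' 0 + rot w j j' 1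
    have em : a w j' * conj (b w j) + b w j' = a 0 j' * conj (b 0 j) + b 0 j' := by
      linear_combination rot 0 j j' 0 - rot w j j' 0 - P j 0 * el
    rw [el, em]
    field_simp
    ring
  have uniq : ∀ j O O', (∀ w, a w j * conj O + b w j = O) → (∀ w, a w j * conj O' + b w j = O') →
      O = O' := by
    intro j O O' hO hO'
    by_contra hn
    have c : conj O - conj O' ≠ 0 := by
      rw [← map_sub]
      exact (map_ne_zero _).2 (sub_ne_zero.2 hn)
    have ea : ∀ w, a w j = a 0 j := fun w => by
      apply mul_left_cancel₀ c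
      linear_combination hO w - hO' w - hO 0 + hO' 0
    have ey : ∀ w, a 0 j * conj (Y w j) + -1 * Y w j + b 0 j = 0 := fun w => by
      linear_combination h3 w j - hO w + hO 0 + (conj O - conj (Y w j)) * ea w
    have := (yh_indep hS (mY 0 j) (mY 1 j) (mY 2 j) (fun e => absurd (iY j _ _ e) (by decide))
      (fun e => absurd (iY j _ _ e) (by decide)) (fun e => absurd (iY j _ _ e) (by decide))
      (ey 0) (ey 1) (ey 2)).2.1
    simp at this
  obtain ⟨j0, j1, h01⟩ := exists_pair_ne J
  obtain ⟨O, hO⟩ := two j0 j1 h01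
  refine ⟨O, fun j => ?_⟩
  have hj : a 0 j * conj O + b 0 j = O := by
    by_cases e : j0 = j
    · exact e ▸ (hO 0).1
    · obtain ⟨O', hO'⟩ := two j0 j e
      rw [uniq j0 O O' (fun w => (hO w).1) fun w => (hO' w).1]
      exact (hO' 0).2
  have na : ‖a 0 j‖ = 1 := by
    have := congrArg norm (h1 0 j)
    rw [norm_mul, Complex.norm_conj, norm_one] at this
    exact (mul_self_eq_one_iff.1 this).resolve_right (by linarith [norm_nonneg (a 0 j)])
  rw [show V 0 0 - O = a 0 j * conj (P j 0 - O) by rw [map_sub]; linear_combination hj - hV 0 j 0,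
    norm_mul, na, one_mul, Complex.norm_conj]

end Pool.Agent.Lib.MP_990519_co.D
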