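import Pool.Agent.Lib.MP_990519_co.D.Res

namespace Pool.Agent.Lib.MP_990519_co.D

open Pool.Agent.Lib.MP_990519_co.Big Finset
open scoped Classical ComplexConjugate

theorem comm_newt {M : Type} [AddCommMonoid M] (a b : M) :
    Function.Commute (fwdDiff a : (M → ℂ) → M → ℂ) (fwdDiff b) := fun f => by
  funext y
  simp only [fwdDiff, add_right_comm y a b]
  ring

theorem zero_newt {M : Type} [AddCommMonoid M] (a : M) (k : ℕ) :
    (fwdDiff a)^[k] (0 : M → ℂ) = 0 :=
  Function.iterate_fixed (by funext y; simp [fwdDiff]) k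

theorem sum_newt {M : Type} [AddCommMonoid M] (a : M) {g : M → ℂ} {N : ℕ}
    (h : (fwdDiff a)^[N] g = 0) (m : ℕ) (y : M) :
    g (y + m • a) = ∑ k ∈ range N, (m.choose k : ℂ) * (fwdDiff a)^[k] g y := by
  rw [shift_eq_sum_fwdDiff_iter a g]
  simp only [nsmul_eq_mul]
  refine (sum_subset (range_subset_range.2 (Nat.le_add_right (m + 1) N)) fun k _ hk => ?_).trans
    (sum_subset (range_subset_range.2 (Nat.le_add_left N (m + 1))) fun k _ hk => ?_).symm
  · rw [Nat.choose_eq_zero_of_lt (by simpa using hk), Nat.cast_zero, zero_mul]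
  · obtain ⟨j, rfl⟩ := Nat.exists_eq_add_of_le' (by simpa using hk : N ≤ k)
    rw [Function.iterate_add_apply, h, zero_newt, Pi.zero_apply, mul_zero]

theorem choose_newt {η : Type} (s : η) (k : ℕ) : ∃ Q : MvPolynomial η ℂ, ∀ n : η → ℕ,
    ((n s).choose k : ℂ) = MvPolynomial.eval (fun s => (n s : ℂ)) Q := by
  refine ⟨MvPolynomial.C (k.factorial : ℂ)⁻¹ * ∏ j ∈ range k, (MvPolynomial.X s - (j : MvPolynomial η ℂ)),
    fun n => ?_⟩
  have e : ∀ k : ℕ, ∏ j ∈ range k, ((n s : ℂ) - j) = (n s).descFactorial k := fun k => by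
    induction k with
    | zero => simp
    | succ k ih =>
      rw [prod_range_succ, ih, Nat.descFactorial_succ, Nat.cast_mul, mul_comm]
      rcases le_or_gt k (n s) with l | l
      · rw [Nat.cast_sub l]
      · rw [Nat.descFactorial_of_lt l, Nat.cast_zero, mul_zero, mul_zero]
  have := Nat.cast_ne_zero (R := ℂ).2 k.factorial_ne_zero
  simp only [map_mul, map_prod, map_sub, map_natCast, MvPolynomial.eval_C, MvPolynomial.eval_X, e,
    Nat.descFactorial_eq_factorial_mul_choose, Nat.cast_mul]
  rw [inv_mul_cancel_left₀ this]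

theorem aux_newt {η : Type} (T : Finset η) : ∀ g : (η → ℕ) → ℂ,
    (∀ s, ∃ N : ℕ, (fwdDiff (ind {s}))^[N] g = 0) → ∃ Q : MvPolynomial η ℂ, ∀ n : η → ℕ,
      g (fun i => if i ∈ T then n i else 0) = MvPolynomial.eval (fun s => (n s : ℂ)) Q := by
  induction T using Finset.induction_on with
  | empty => exact fun g _ => ⟨MvPolynomial.C (g fun _ => 0), fun n => by simp⟩
  | insert s T hs ih =>
    intro g h
    obtain ⟨N, hN⟩ := h s
    choose Q hQ using fun k => ih ((fwdDiff (ind {s}))^[k] g) fun t => (h t).imp fun m hm => by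
      rw [((comm_newt _ _).iterate_iterate m k).eq, hm, zero_newt]
    choose R hR using choose_newt s
    refine ⟨∑ k ∈ range N, R k * Q k, fun n => ?_⟩
    have e : (fun i => if i ∈ insert s T then n i else 0) =
        (fun i => if i ∈ T then n i else 0) + n s • ind {s} := by
      funext i
      rcases eq_or_ne i s with rfl | e
      · simp [ind, hs]
      · simp [ind, e]
    rw [e, sum_newt _ hN, map_sum]
    exact sum_congr rfl fun k _ => by rw [hQ, hR, map_mul]

/-- Newton interpolation. Prove for every finset `T` and every such `g`: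
`∃ Q, ∀ n, g (fun i => if i ∈ T then n i else 0) = eval n Q`, by induction on `T`. For
`insert s T` use `shift_eq_sum_fwdDiff_iter` (the terms with `k ≥ N` vanish, the terms with
`k > n s` have `choose = 0`), the differences in different directions commute, and
`(n s).choose k` is the value of `C (1 / k!) * aeval (X s) (descPochhammer ℂ k)`. -/
theorem newton {η : Type} [Fintype η] (g : (η → ℕ) → ℂ)
    (h : ∀ s, ∃ N : ℕ, (fwdDiff (ind {s}))^[N] g = 0) :
    ∃ Q : MvPolynomial η ℂ, ∀ n : η → ℕ,
      g n = MvPolynomial.eval (fun s => (n s : ℂ)) Q := by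
  simpa using aux_newt univ g h

end Pool.Agent.Lib.MP_990519_co.D
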