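import Pool.Agent.Lib.MP_990519_co.D.Defs

namespace Pool.Agent.Lib.MP_990519_co.D

open Pool.Agent.Lib.MP_990519_co.Big Finset
open scoped Classical ComplexConjugate

/-! Basic facts on exponents, evaluation and conjugation. -/

lemma cx_neg (l : Ex) (i : Fin 4) : cx (-l) i = -cx l i := by
  rfl

lemma cx_sub (l m : Ex) (i : Fin 4) : cx (l - m) i = cx l i - cx m i := by
  rfl

lemma cx_inj {l m : Ex} (h : ∀ i, cx l i = cx m i) : l = m := by
  refine congrArg toLex (Prod.ext (congrArg toLex ?_) (congrArg toLex ?_))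
  · funext i; exact congrArg Complex.re (h i)
  · funext i; exact congrArg Complex.im (h i)

lemma cx_mkX (z : Fin 4 → ℂ) (i : Fin 4) : cx (mkX z) i = z i := by
  rfl

lemma cx_cjX (l : Ex) (i : Fin 4) : cx (cjX l) i = conj (cx l i) := by
  rfl

lemma cjX_cjX (l : Ex) : cjX (cjX l) = l := by
  exact cx_inj fun i => by rw [cx_cjX, cx_cjX, Complex.conj_conj]

/-- twice the real part is monotone -/
lemma ph_mono {l m : Ex} (h : l ≤ m) : l + cjX l ≤ m + cjX m := by
  have h1 : (ofLex l).1 ≤ (ofLex m).1 := Prod.Lex.monotone_fst _ _ h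
  have e : ∀ a : Ex, a + cjX a = toLex ((ofLex a).1 + (ofLex a).1, 0) := fun a =>
    congrArg toLex (Prod.ext rfl (add_neg_cancel (ofLex a).2))
  rw [e, e, Prod.Lex.toLex_le_toLex]
  rcases (add_le_add h1 h1).lt_or_eq with h2 | h2
  · exact Or.inl h2
  · exact Or.inr ⟨h2, le_rfl⟩

lemma two_inj {l m : Ex} (h : l + l = m + m) : l = m := by
  rcases lt_trichotomy l m with h1 | h1 | h1
  · exact absurd h (add_lt_add h1 h1).ne
  · exact h1
  · exact absurd h (add_lt_add h1 h1).ne'

lemma ex_add_left (l m : Ex) (x : Pt) : ex (l + m) x = ex l x * ex m x := by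
  simp only [ex, cx_add, add_mul, Finset.sum_add_distrib, Complex.exp_add]

lemma ex_add_right (l : Ex) (x y : Pt) : ex l (x + y) = ex l x * ex l y := by
  simp only [ex, Pi.add_apply, Complex.ofReal_add, mul_add, Finset.sum_add_distrib,
    Complex.exp_add]

lemma ex_zero_left (x : Pt) : ex 0 x = 1 := by
  simp [ex, cx_zero]

lemma ex_zero_right (l : Ex) : ex l 0 = 1 := by
  simp [ex]

lemma ex_ne_zero (l : Ex) (x : Pt) : ex l x ≠ 0 := by
  exact Complex.exp_ne_zero _

lemma ex_neg_mul (l : Ex) (x : Pt) : ex (-l) x * ex l x = 1 := by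
  rw [← ex_add_left, neg_add_cancel, ex_zero_left]

lemma ex_neg_neg (l : Ex) (x : Pt) : ex (-l) (-x) = ex l x := by
  simp [ex, cx_neg]

lemma ex_cjX (l : Ex) (x : Pt) : ex (cjX l) x = conj (ex l x) := by
  simp only [ex, cx_cjX, ← Complex.exp_conj, map_sum, map_mul, Complex.conj_ofReal]

lemma norm_ex {l : Ex} (h : cjX l = -l) (x : Pt) : ‖ex l x‖ = 1 := by
  have h1 : ex l x * conj (ex l x) = 1 := by rw [← ex_cjX, h, mul_comm, ex_neg_mul]
  rw [Complex.mul_conj, Complex.normSq_eq_norm_sq] at h1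
  have h2 : ‖ex l x‖ ^ 2 = 1 := by exact_mod_cast h1
  nlinarith [norm_nonneg (ex l x)]

lemma pe_C (x : Pt) (z : ℂ) : pe x (MvPolynomial.C z) = z := by
  exact MvPolynomial.eval_C _

lemma pe_X (x : Pt) (i : Fin 4) : pe x (MvPolynomial.X i) = (x i : ℂ) := by
  exact MvPolynomial.eval_X _

lemma pe_cjP (x : Pt) (Q : Pol) : pe x (cjP Q) = conj (pe x Q) := by
  induction Q using MvPolynomial.induction_on with
  | C a => simp [cjP, pe]
  | add p q hp hq => simp only [map_add, hp, hq]
  | mul_X p i hp =>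
    rw [map_mul, map_mul, map_mul, map_mul, hp]
    simp [cjP, pe]

lemma cjP_C (z : ℂ) : cjP (MvPolynomial.C z) = MvPolynomial.C (conj z) := by
  exact MvPolynomial.map_C _ _

lemma cjP_cjP (Q : Pol) : cjP (cjP Q) = Q := by
  ext m
  simp [cjP, MvPolynomial.coeff_map]

lemma cjP_eq_zero {Q : Pol} : cjP Q = 0 ↔ Q = 0 := by
  refine ⟨fun h => ?_, fun h => by rw [h, map_zero]⟩
  rw [← cjP_cjP Q, h, map_zero]

lemma totalDegree_cjP (Q : Pol) : (cjP Q).totalDegree = Q.totalDegree := by
  unfold MvPolynomial.totalDegree cjP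
  rw [MvPolynomial.support_map_of_injective _ (starRingEnd ℂ).injective]

/-- `MvPolynomial.funext_set` with the range of `Nat.cast` -/
lemma pe_ext_nat {Q : Pol} (h : ∀ n, pe (nt n) Q = 0) : Q = 0 := by
  refine MvPolynomial.funext_set (fun _ => Set.range (Nat.cast : ℕ → ℂ))
    (fun _ => Set.infinite_range_of_injective Nat.cast_injective) fun x hx => ?_
  choose n hn using fun i => hx i (Set.mem_univ i)
  have e : x = fun i => ((nt n i : ℝ) : ℂ) := by
    funext i; rw [← hn i]; simp [nt]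
  rw [map_zero, e]
  exact h n

lemma pe_ext {Q : Pol} (h : ∀ x, pe x Q = 0) : Q = 0 := by
  exact pe_ext_nat fun n => h _

lemma ev_single (x : Pt) (l : Ex) (Q : Pol) :
    ev x (AddMonoidAlgebra.single l Q) = ex l x * pe x Q := by
  rw [mul_comm]
  exact AddMonoidAlgebra.liftNCRingHom_single _ _ _ _ _

lemma ev_eq_sum (x : Pt) (F : RR) :
    ev x F = ∑ l ∈ F.coeff.support, ex l x * pe x (F.coeff l) := by
  conv_lhs => rw [← AddMonoidAlgebra.sum_coeff_single F]
  simp only [Finsupp.sum, map_sum, ev_single]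

lemma ev_KP (x : Pt) (Q : Pol) : ev x (KP Q) = pe x Q := by
  change ev x (AddMonoidAlgebra.single 0 Q) = _
  rw [ev_single, ex_zero_left, one_mul]

lemma ev_K (x : Pt) (z : ℂ) : ev x (K z) = z := by
  exact (ev_KP x _).trans (pe_C x z)

lemma ev_E (x : Pt) (l : Ex) : ev x (E l) = ex l x := by
  rw [E, ev_single, map_one, mul_one]

lemma sr_single (l : Ex) (Q : Pol) :
    sr (AddMonoidAlgebra.single l Q) = AddMonoidAlgebra.single (cjX l) (cjP Q) := by
  simp [sr, AddMonoidAlgebra.mapRingHom_single]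

lemma coeff_sr (F : RR) (l : Ex) : (sr F).coeff l = cjP (F.coeff (cjX l)) := by
  induction F using AddMonoidAlgebra.induction_linear with
  | zero => simp
  | add f g hf hg => simp only [map_add, AddMonoidAlgebra.coeff_add, Finsupp.add_apply, hf, hg]
  | single a b =>
    rw [sr_single, AddMonoidAlgebra.coeff_single_apply, AddMonoidAlgebra.coeff_single_apply]
    by_cases h : a = cjX l
    · rw [if_pos h, if_pos (by rw [h, cjX_cjX])]
    · rw [if_neg h, if_neg (fun h' => h (by rw [← h', cjX_cjX])), map_zero]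

lemma sr_sr (F : RR) : sr (sr F) = F := by
  ext1
  ext1 l
  rw [coeff_sr, coeff_sr, cjP_cjP, cjX_cjX]

lemma sr_eq_zero {F : RR} : sr F = 0 ↔ F = 0 := by
  refine ⟨fun h => ?_, fun h => by rw [h, map_zero]⟩
  rw [← sr_sr F, h, map_zero]

lemma ev_sr (x : Pt) (F : RR) : ev x (sr F) = conj (ev x F) := by
  induction F using AddMonoidAlgebra.induction_linear with
  | zero => simp
  | add f g hf hg => simp only [map_add, hf, hg]
  | single a b => rw [sr_single, ev_single, ev_single, map_mul, ex_cjX, pe_cjP]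

lemma sr_KP (Q : Pol) : sr (KP Q) = KP (cjP Q) := by
  change sr (AddMonoidAlgebra.single 0 Q) = AddMonoidAlgebra.single 0 (cjP Q)
  rw [sr_single, map_zero]

lemma sr_K (z : ℂ) : sr (K z) = K (conj z) := by
  change sr (KP _) = KP _
  rw [sr_KP, cjP_C]

lemma sr_E (l : Ex) : sr (E l) = E (cjX l) := by
  rw [E, sr_single, map_one, E]

lemma E_add (l m : Ex) : E (l + m) = E l * E m := by
  rw [E, E, E, AddMonoidAlgebra.single_mul_single, one_mul]

lemma E_zero : E 0 = 1 := by
  rfl

lemma E_neg_mul (l : Ex) : E (-l) * E l = 1 := by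
  rw [← E_add, neg_add_cancel, E_zero]

lemma E_ne_zero (l : Ex) : E l ≠ 0 := by
  intro h
  have := E_neg_mul l
  rw [h, mul_zero] at this
  exact zero_ne_one this

lemma coeff_E (l m : Ex) : (E l).coeff m = if l = m then 1 else 0 := by
  exact AddMonoidAlgebra.coeff_single_apply

lemma coeff_KP (Q : Pol) (m : Ex) : (KP Q).coeff m = if m = 0 then Q else 0 := by
  change (AddMonoidAlgebra.single 0 Q : RR).coeff m = _
  rw [AddMonoidAlgebra.coeff_single_apply]
  simp only [eq_comm]

lemma coeff_K (z : ℂ) (m : Ex) : (K z).coeff m = if m = 0 then MvPolynomial.C z else 0 := by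
  exact coeff_KP _ m

lemma coeff_E_mul (l : Ex) (F : RR) (m : Ex) : (E l * F).coeff m = F.coeff (m - l) := by
  rw [E, AddMonoidAlgebra.coeff_single_mul_apply, one_mul, neg_add_eq_sub]

lemma coeff_KP_mul (Q : Pol) (F : RR) (m : Ex) : (KP Q * F).coeff m = Q * F.coeff m := by
  change (AddMonoidAlgebra.single 0 Q * F).coeff m = _
  rw [AddMonoidAlgebra.coeff_single_mul_apply, neg_zero, zero_add]

lemma coeff_K_mul (z : ℂ) (F : RR) (m : Ex) :
    (K z * F).coeff m = MvPolynomial.C z * F.coeff m := by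
  exact coeff_KP_mul _ F m

lemma coeff_K_mul_E (z : ℂ) (l m : Ex) :
    (K z * E l).coeff m = if l = m then MvPolynomial.C z else 0 := by
  rw [coeff_K_mul, coeff_E]
  split_ifs <;> simp

lemma coeff_add' (F G : RR) (m : Ex) : (F + G).coeff m = F.coeff m + G.coeff m := by
  rfl

lemma coeff_sub' (F G : RR) (m : Ex) : (F - G).coeff m = F.coeff m - G.coeff m := by
  rfl

lemma coeff_neg' (F : RR) (m : Ex) : (-F).coeff m = -F.coeff m := by
  rfl

lemma coeff_zero' (m : Ex) : (0 : RR).coeff m = 0 := by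
  rfl

lemma RR_ext {F G : RR} (h : ∀ m, F.coeff m = G.coeff m) : F = G := by
  ext1
  exact Finsupp.ext h

lemma K_eq_zero {z : ℂ} : K z = 0 ↔ z = 0 := by
  exact map_eq_zero K

lemma K_inj {z w : ℂ} (h : K z = K w) : z = w := by
  exact K.injective h

lemma eq_KP {F : RR} (h : ∀ l, F.coeff l ≠ 0 → l = 0) : F = KP (F.coeff 0) := by
  refine RR_ext fun m => ?_
  rw [coeff_KP]
  split_ifs with h0
  · rw [h0]
  · exact by_contra fun h1 => h0 (h m h1)

/-- `E ν - K c` is not zero for `ν ≠ 0`, in the form used later -/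
lemma KE_sub_K_eq_zero {ν : Ex} (hν : ν ≠ 0) {a b : ℂ} (h : K a * E ν - K b = 0) :
    a = 0 ∧ b = 0 := by
  have h1 := congrArg (fun F : RR => F.coeff ν) h
  simp only [coeff_sub', coeff_K_mul_E, coeff_K, if_neg hν, if_true, sub_zero, coeff_zero',
    MvPolynomial.C_eq_zero] at h1
  rw [h1, map_zero, zero_mul, zero_sub, neg_eq_zero, K_eq_zero] at h
  exact ⟨h1, h⟩

lemma Lr_zero (p : RR) : Lr p 0 = p := rfl

lemma Lr_one (p : RR) : Lr p 1 = sr p := rfl

lemma Lr_two (p : RR) : Lr p 2 = p * sr p := rfl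

end Pool.Agent.Lib.MP_990519_co.D
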