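import Pool.Agent.Lib.MP_990519_co.D.Sup

namespace Pool.Agent.Lib.MP_990519_co.D

open Pool.Agent.Lib.MP_990519_co.Big Finset
open scoped Classical ComplexConjugate

/-- the forward difference in direction `i` kills a polynomial after finitely many steps -/
lemma diff_nilp (Q : Pol) (δ : ℝ) (i : Fin 4) :
    ∃ N : ℕ, (fwdDiff (Pi.single i 1 : Fin 4 → ℕ))^[N]
      (fun n : Fin 4 → ℕ => pe (δ • nt n) Q) = 0 := by
  refine ⟨Q.totalDegree + 1, funext fun y => ?_⟩
  let g : Fin 4 → Polynomial ℂ := fun j => Polynomial.C ((δ : ℂ) * y j) +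
    Polynomial.C ((δ : ℂ) * ((Pi.single i 1 : Fin 4 → ℕ) j : ℕ)) * Polynomial.X
  have hg : ∀ j, (g j).natDegree ≤ 1 := fun j => by
    simp only [g]
    compute_degree
  have hdeg := MvPolynomial.aeval_natDegree_le Q le_rfl g hg
  have h0 := congrFun (Polynomial.fwdDiff_iter_eq_zero_of_degree_lt
    (P := MvPolynomial.aeval g Q) (n := Q.totalDegree + 1) (by omega)) 0
  rw [fwdDiff_iter_eq_sum_shift] at h0 ⊢
  refine Eq.trans (sum_congr rfl fun k _ => ?_) h0
  have h1 := MvPolynomial.comp_aeval_apply g (Polynomial.aeval (0 + k • (1 : ℂ))) Q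
  rw [Polynomial.coe_aeval_eq_eval, MvPolynomial.aeval_eq_eval] at h1
  rw [h1, pe]
  congr 3
  funext j
  simp [g, nt]
  ring

/-- Independence of exponential polynomials, by joint generalized eigenspaces of the shifts. -/
theorem inj_scaled {F : RR} {δ b : ℝ} (hδ : 0 < δ) (hb : δ * b ≤ 3) (hF : Sm b F)
    (h : ∀ n : Fin 4 → ℕ, ev (δ • nt n) F = 0) : F = 0 := by
  let T : Fin 4 → Module.End ℂ ((Fin 4 → ℕ) → ℂ) := fun i =>
    LinearMap.funLeft ℂ ℂ fun n => n + Pi.single i 1
  have hT : ∀ i f n, T i f n = f (n + Pi.single i 1) := fun _ _ _ => rfl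
  have hind := Module.End.independent_iInf_maxGenEigenspace_of_forall_mapsTo T fun i j φ =>
    Module.End.mapsTo_maxGenEigenspace_of_comm (LinearMap.ext fun f => funext fun n => by
      simp only [Module.End.mul_apply, hT, add_right_comm]) φ
  let χ : Ex → Fin 4 → ℂ := fun l i => Complex.exp (δ * cx l i)
  have hχ : Function.Injective fun l : F.coeff.support => χ l := by
    rintro ⟨l, hl⟩ ⟨m, hm⟩ e
    refine Subtype.ext (cx_inj fun i => ?_)
    have hb' : ∀ a : Ex, a ∈ F.coeff.support →
        -Real.pi < ((δ : ℂ) * cx a i).im ∧ ((δ : ℂ) * cx a i).im ≤ Real.pi := fun a ha => by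
      have h1 := abs_le.1 (hF a (Finsupp.mem_support_iff.1 ha) i)
      have h2 := mul_le_mul_of_nonneg_left h1.1 hδ.le
      have h3 := mul_le_mul_of_nonneg_left h1.2 hδ.le
      have h4 := Real.pi_gt_three
      rw [Complex.im_ofReal_mul]
      constructor <;> linarith
    exact mul_left_cancel₀ (Complex.ofReal_ne_zero.2 hδ.ne')
      (Complex.exp_inj_of_neg_pi_lt_of_le_pi (hb' l hl).1 (hb' l hl).2 (hb' m hm).1 (hb' m hm).2
        (congrFun e i))
  have hsh : ∀ (l : Ex) (i : Fin 4) (n : Fin 4 → ℕ),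
      ex l (δ • nt (n + Pi.single i 1)) = ex l (δ • nt n) * χ l i := fun l i n => by
    have h1 : δ • nt (n + Pi.single i 1) = δ • nt n + Pi.single i δ := by
      funext j
      by_cases hj : j = i
      · subst hj
        simp [nt, mul_add]
      · simp [nt, hj]
    rw [h1, ex_add_right]
    congr 1
    simp only [ex, χ]
    rw [sum_eq_single i (fun j _ hj => by simp [hj]) (by simp), Pi.single_eq_same, mul_comm]
  have hpow : ∀ (l : Ex) (i : Fin 4) (N : ℕ) (g : (Fin 4 → ℕ) → ℂ),
      ((T i - χ l i • 1) ^ N) (fun n => ex l (δ • nt n) * g n) = fun n =>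
        χ l i ^ N * (ex l (δ • nt n) * (fwdDiff (Pi.single i 1 : Fin 4 → ℕ))^[N] g n) := by
    intro l i N
    induction N with
    | zero => simp
    | succ N ih =>
      intro g
      have h1 : (T i - χ l i • 1) (fun n => ex l (δ • nt n) * g n) = fun n =>
          ex l (δ • nt n) * (χ l i • fwdDiff (Pi.single i 1 : Fin 4 → ℕ) g) n := by
        funext n
        simp only [LinearMap.sub_apply, LinearMap.smul_apply, Module.End.one_apply, Pi.sub_apply,
          Pi.smul_apply, hT, hsh, fwdDiff, smul_eq_mul]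
        ring
      rw [pow_succ, Module.End.mul_apply, h1, ih, fwdDiff_iter_const_smul]
      funext n
      simp only [Function.iterate_succ_apply, Pi.smul_apply, smul_eq_mul]
      ring
  have hz := (iSupIndep_iff_finsetSum_eq_zero_imp_eq_zero _).1 (hind.comp hχ) univ
    (fun l n => ex l (δ • nt n) * pe (δ • nt n) (F.coeff l))
    (fun l _ => (Submodule.mem_iInf _).2 fun i => by
      obtain ⟨N, hN⟩ := diff_nilp (F.coeff l) δ i
      refine (Module.End.mem_maxGenEigenspace _ _ _).2 ⟨N, ?_⟩
      rw [hpow, hN]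
      funext n
      simp)
    (funext fun n => by
      rw [Finset.sum_apply, sum_coe_sort F.coeff.support
        fun l => ex l (δ • nt n) * pe (δ • nt n) (F.coeff l), ← ev_eq_sum, h]
      rfl)
  refine RR_ext fun l => ?_
  rw [coeff_zero']
  by_contra hl
  refine hl (MvPolynomial.funext_set (fun _ => Set.range fun k : ℕ => (δ : ℂ) * k)
    (fun _ => Set.infinite_range_of_injective fun a b e => Nat.cast_injective (R := ℂ)
      (mul_left_cancel₀ (Complex.ofReal_ne_zero.2 hδ.ne') e)) fun x hx => ?_)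
  choose n hn using fun j => hx j (Set.mem_univ j)
  have h1 := (mul_eq_zero.1 (congrFun (hz ⟨l, Finsupp.mem_support_iff.2 hl⟩ (mem_univ _))
    n)).resolve_left (ex_ne_zero _ _)
  rw [map_zero, ← h1, pe]
  congr 2
  funext j
  simp [nt, ← hn j]

theorem inj_nat {F : RR} (hF : Sm 3 F) (h : ∀ n : Fin 4 → ℕ, ev (nt n) F = 0) : F = 0 := by
  exact inj_scaled one_pos (by norm_num) hF fun n => by rw [one_smul, h]

theorem inj_real {F : RR} (h : ∀ x : Pt, ev x F = 0) : F = 0 := by
  obtain ⟨b, hb, hF⟩ := exists_sm F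
  exact inj_scaled (δ := 3 / b) (by positivity) (div_mul_cancel₀ _ hb.ne').le hF fun n => h _

end Pool.Agent.Lib.MP_990519_co.D
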