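import Pool.Agent.Lib.MP_990519_co.D.R1

namespace Pool.Agent.Lib.MP_990519_co.D

open Pool.Agent.Lib.MP_990519_co.Big Finset
open scoped Classical ComplexConjugate

lemma subst_r2 (s : ℝ) (m : Pt) :
    ∃ T : Pol →+* Pol, ∀ (x : Pt) (Q : Pol), pe x (T Q) = pe (m + s • x) Q := by
  refine ⟨MvPolynomial.eval₂Hom MvPolynomial.C
    (fun i => MvPolynomial.C (m i : ℂ) + MvPolynomial.C (s : ℂ) * MvPolynomial.X i), fun x Q => ?_⟩
  induction Q using MvPolynomial.induction_on with
  | C a => rw [MvPolynomial.eval₂Hom_C, pe_C, pe_C]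
  | add f g hf hg => simp only [map_add, hf, hg]
  | mul_X f i hf =>
    rw [map_mul, map_mul, map_mul, hf, MvPolynomial.eval₂Hom_X', map_add, map_mul, pe_C, pe_C, pe_X,
      pe_X]
    simp

/-- translation: `F' = ∑ single l (C (ex l m) * bind₁ (i ↦ X i + C (m i)) (F.coeff l))` -/
theorem exists_tr (F : RR) (m : Pt) :
    ∃ F' : RR, (∀ l, F'.coeff l ≠ 0 → F.coeff l ≠ 0) ∧ ∀ x, ev x F' = ev (x + m) F := by
  obtain ⟨T, hT⟩ := subst_r2 1 m
  have : ∃ F' : RR, (∀ l, F'.coeff l = MvPolynomial.C (ex l m) * T (F.coeff l)) ∧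
      ∀ x, ev x F' = ev (x + m) F := by
    induction F using AddMonoidAlgebra.induction_linear with
    | zero => exact ⟨0, fun l => by simp, fun x => by simp⟩
    | add f g hf hg =>
      obtain ⟨f', a1, a2⟩ := hf
      obtain ⟨g', b1, b2⟩ := hg
      exact ⟨f' + g', fun l => by rw [coeff_add', coeff_add', a1, b1, map_add, mul_add],
        fun x => by rw [map_add, map_add, a2, b2]⟩
    | single a b =>
      refine ⟨AddMonoidAlgebra.single a (MvPolynomial.C (ex a m) * T b), fun l => ?_, fun x => ?_⟩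
      · rw [AddMonoidAlgebra.coeff_single_apply, AddMonoidAlgebra.coeff_single_apply]
        split_ifs with h
        · rw [h]
        · rw [map_zero, mul_zero]
      · rw [ev_single, ev_single, map_mul, pe_C, hT, one_smul, ex_add_right, add_comm m x,
          mul_assoc]
  obtain ⟨F', h1, h2⟩ := this
  exact ⟨F', fun l hl h0 => hl (by rw [h1, h0, map_zero, mul_zero]), h2⟩

/-- reflection: build `B'` with `ev x B' = ev (m - x) B` and
`pe j (B'.coeff ν) = ex (-ν) m * pe (m - j) (B.coeff (-ν))`; then `A = B'` by `inj_real` -/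
theorem coeff_refl {A B : RR} {m : Pt} (h : ∀ x, ev x A = ev (m - x) B) (ν : Ex) (j : Pt) :
    ex ν m * pe j (A.coeff ν) = pe (m - j) (B.coeff (-ν)) := by
  obtain ⟨T, hT⟩ := subst_r2 (-1) m
  have hT' : ∀ (x : Pt) (Q : Pol), pe x (T Q) = pe (m - x) Q := by
    intro x Q
    rw [hT, neg_one_smul, sub_eq_add_neg]
  have key : ∀ B : RR, ∃ B' : RR,
      (∀ l, B'.coeff l = MvPolynomial.C (ex (-l) m) * T (B.coeff (-l))) ∧
        ∀ x, ev x B' = ev (m - x) B := by
    intro B
    induction B using AddMonoidAlgebra.induction_linear with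
    | zero => exact ⟨0, fun l => by simp, fun x => by simp⟩
    | add f g hf hg =>
      obtain ⟨f', a1, a2⟩ := hf
      obtain ⟨g', b1, b2⟩ := hg
      exact ⟨f' + g', fun l => by rw [coeff_add', coeff_add', a1, b1, map_add, mul_add],
        fun x => by rw [map_add, map_add, a2, b2]⟩
    | single a b =>
      refine ⟨AddMonoidAlgebra.single (-a) (MvPolynomial.C (ex a m) * T b), fun l => ?_,
        fun x => ?_⟩
      · rw [AddMonoidAlgebra.coeff_single_apply, AddMonoidAlgebra.coeff_single_apply]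
        by_cases h : -a = l
        · rw [if_pos h, if_pos (by rw [← h, neg_neg]), ← h, neg_neg]
        · rw [if_neg h, if_neg (fun h' => h (by rw [h', neg_neg])), map_zero, mul_zero]
      · have := ex_neg_neg (-a) x
        rw [neg_neg] at this
        rw [ev_single, ev_single, map_mul, pe_C, hT', sub_eq_add_neg, ex_add_right, this]
        ring
  obtain ⟨B', h1, h2⟩ := key B
  have h3 : A = B' := sub_eq_zero.1 (inj_real fun x => by rw [map_sub, h, h2, sub_self])
  rw [h3, h1, map_mul, pe_C, hT', ← mul_assoc, mul_comm (ex ν m), ex_neg_mul, one_mul]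

/-- `F * F'` is not zero for the translate `F'` -/
theorem two_ne {F : RR} (h : F ≠ 0) (v : Pt) : ∃ x, ev x F ≠ 0 ∧ ev (x + v) F ≠ 0 := by
  obtain ⟨F', -, h2⟩ := exists_tr F v
  have h3 : F' ≠ 0 := by
    intro h0
    refine h (inj_real fun x => ?_)
    have := h2 (x - v)
    rw [h0, map_zero, sub_add_cancel] at this
    exact this.symm
  by_contra hc
  refine mul_ne_zero h h3 (inj_real fun x => ?_)
  rw [map_mul, h2]
  by_contra h4
  exact hc ⟨x, left_ne_zero_of_mul h4, right_ne_zero_of_mul h4⟩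

lemma sm_sum_r2 {δ : ℝ} {G : Fin 3 → RR} (h : ∀ c, Sm δ (G c)) : Sm δ (∑ c, G c) := by
  rw [Fin.sum_univ_three]
  exact ((h 0).add (h 1)).add (h 2)

lemma half_r2 {e A : Fin 3 → RR} (he : ∀ c, Sm 2 (e c)) (hA : ∀ c, Sm 1 (A c)) (y : Pt)
    (b : Fin 3 → ℂ) (h : ∀ n : Fin 4 → ℕ, ∑ c, ev (nt n + y) (e c) * (ev (nt n) (A c) - b c) = 0)
    (x : Pt) : ∑ c, ev (x + y) (e c) * (ev x (A c) - b c) = 0 := by
  choose e' h1 h2 using fun c => exists_tr (e c) y
  have h3 : ∀ x : Pt, ev x (∑ c, e' c * (A c - K (b c))) =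
      ∑ c, ev (x + y) (e c) * (ev x (A c) - b c) := by
    intro x
    simp only [map_sum, map_mul, map_sub, ev_K, h2]
  have h4 : Sm 3 (∑ c, e' c * (A c - K (b c))) := by
    refine sm_sum_r2 fun c => ?_
    have a1 : Sm 2 (e' c) := fun l hl => he c l (h1 c l hl)
    exact (a1.mul ((hA c).sub ((sm_K _).mono zero_le_one))).mono (by norm_num)
  rw [← h3, inj_nat h4 (fun n => by rw [h3, h]), map_zero]

/-- `inj_nat` twice: first in `n` for fixed `m : Fin 4 → ℕ`, then in `m` for fixed real `x` -/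
theorem ext2 {e A B : Fin 3 → RR} (he : ∀ c, Sm 2 (e c)) (hA : ∀ c, Sm 1 (A c))
    (hB : ∀ c, Sm 1 (B c))
    (h : ∀ n m : Fin 4 → ℕ,
      ∑ c, ev (nt n + nt m) (e c) * (ev (nt n) (A c) - ev (nt m) (B c)) = 0) (x y : Pt) :
    ∑ c, ev (x + y) (e c) * (ev x (A c) - ev y (B c)) = 0 := by
  have h1 := half_r2 he hB x (fun c => ev x (A c)) (fun m => by
    have := half_r2 he hA (nt m) (fun c => ev (nt m) (B c)) (fun n => h n m) x
    rw [add_comm (nt m) x]
    simp only [Fin.sum_univ_three] at this ⊢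
    linear_combination -this) y
  rw [add_comm y x] at h1
  simp only [Fin.sum_univ_three] at h1 ⊢
  linear_combination -h1

/-- `p = ∑ a, single (mkX (z a)) (Q a)` -/
theorem rep_of_epw {κ : Type} [Fintype κ] {l : κ → Fin 4 → ℂ}
    (hl : ∀ a e, ∃ z : ℂ, |z.im| ≤ 1 / 2 ∧ Complex.exp z = l a e) {f : (Fin 4 → ℕ) → ℂ}
    (h : EPW l f) : ∃ p : RR, Sm (1 / 2) p ∧ Rep p f := by
  choose z h1 h2 using hl
  obtain ⟨Q, hQ⟩ := h
  refine ⟨∑ a, AddMonoidAlgebra.single (mkX (z a)) (Q a), fun m hm i => ?_, fun n => ?_⟩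
  · rw [AddMonoidAlgebra.coeff_sum, Finsupp.finsetSum_apply] at hm
    obtain ⟨a, -, ha⟩ := exists_ne_zero_of_sum_ne_zero hm
    rw [AddMonoidAlgebra.coeff_single_apply] at ha
    have : mkX (z a) = m := by
      by_contra h0
      exact ha (if_neg h0)
    rw [← this, cx_mkX]
    exact h1 a i
  · rw [hQ, map_sum]
    refine sum_congr rfl fun a _ => ?_
    rw [ev_single]
    have a1 : ex (mkX (z a)) (nt n) = ∏ s, l a s ^ n s := by
      unfold ex
      rw [Complex.exp_sum]
      refine prod_congr rfl fun s _ => ?_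
      rw [cx_mkX, ← h2, ← Complex.exp_nat_mul, mul_comm]
      simp [nt]
    rw [a1]
    simp [pe, nt]

end Pool.Agent.Lib.MP_990519_co.D
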