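import Pool.Agent.Lib.MP_990519_co.D.FA

namespace Pool.Agent.Lib.MP_990519_co.D

open Pool.Agent.Lib.MP_990519_co.Big Finset
open scoped Classical ComplexConjugate

variable {p P : RR} {e : Fin 3 → RR}

/-- twice the real part -/
def ph : Ex →+ Ex := AddMonoidHom.id Ex + cjX

lemma ph_apply (l : Ex) : ph l = l + cjX l := rfl

lemma ph_le {l m : Ex} (h : l ≤ m) : ph l ≤ ph m := ph_mono h

lemma ph_cjX (l : Ex) : ph (cjX l) = ph l := by rw [ph_apply, ph_apply, cjX_cjX, add_comm]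

lemma sr_ne {F : RR} {l : Ex} (h : (sr F).coeff l ≠ 0) : F.coeff (cjX l) ≠ 0 := by
  rwa [coeff_sr, Ne, cjP_eq_zero] at h

lemma ne_sr {F : RR} {l : Ex} (h : F.coeff l ≠ 0) : (sr F).coeff (cjX l) ≠ 0 := by
  rwa [coeff_sr, Ne, cjP_eq_zero, cjX_cjX]

/-- Put `φ l = l + cjX l` (additive, monotone by `ph_mono`, `φ (cjX l) = φ l`). Let `τ`, `τ'` be the
tops of `p`, `sr p`; `φ τ = φ τ'` (`coeff_sr`), and `0 < φ τ` because every exponent of `Lr p c`
has `φ ≤ max (φ τ) (φ τ + φ τ)`. `ν = τ + τ'` is the top of `p * sr p`, `φ ν = 2 φ τ > φ τ`, so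
`ν ≠ 0` and `p`, `sr p` vanish at `ν`. Every exponent `l` of `Lr P c` has `-φ ν ≤ φ l`
(`h.symm.sig`, or `l = 0`). If `P` or `sr P` did not vanish at `-ν`, the bottoms `σ, σ'` would
have `φ σ = φ σ' ≤ -φ ν < 0`, and `σ + σ'`, the bottom of `P * sr P`, would have `φ < -φ ν`.
So `α = (0, 0, a)`, `β = (0, 0, b)` in `factA`; `b • α = a • β` gives `a = b = 0`, then
`1 • α = 0 • β`. -/
theorem CD.no_pos (h : CD p P e) {c : Fin 3} {l : Ex} (hl : (Lr p c).coeff l ≠ 0) :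
    l + cjX l ≤ 0 := by
  rw [← ph_apply]
  by_contra hpos
  push Not at hpos
  have hp0 : p ≠ 0 := by
    rintro rfl
    fin_cases c <;> simp [Lr] at hl
  obtain ⟨τ, hτ⟩ := exists_top hp0
  obtain ⟨τ', hτ'⟩ := exists_top (mt sr_eq_zero.1 hp0)
  have e1 : ph τ' = ph τ := le_antisymm (ph_cjX τ' ▸ ph_le (hτ.2 _ (sr_ne hτ'.1)))
    (ph_cjX τ ▸ ph_le (hτ'.2 _ (ne_sr hτ.1)))
  have hν := (hτ.mul hτ').1
  have b0 : ∀ m, p.coeff m ≠ 0 → ph m ≤ ph τ := fun m hm => ph_le (hτ.2 m hm)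
  have b1 : ∀ m, (sr p).coeff m ≠ 0 → ph m ≤ ph τ := fun m hm => e1 ▸ ph_le (hτ'.2 m hm)
  have e2 : ph (τ + τ') = ph τ + ph τ := by rw [map_add, e1]
  have b2 : ∀ m, (p * sr p).coeff m ≠ 0 → ph m ≤ ph τ + ph τ := fun m hm =>
    e2 ▸ ph_le (hν.2 m hm)
  have t0 : 0 < ph τ := by
    fin_cases c
    · exact hpos.trans_le (b0 l hl)
    · exact hpos.trans_le (b1 l hl)
    · by_contra h0
      push Not at h0
      exact (hpos.trans_le (b2 l hl)).not_ge (add_nonpos h0 h0)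
  have t1 : ph τ < ph τ + ph τ := lt_add_of_pos_right _ t0
  have b : ∀ c m, (Lr p c).coeff m ≠ 0 → ph m ≤ ph τ + ph τ := fun c m hm => by
    fin_cases c
    exacts [(b0 m hm).trans t1.le, (b1 m hm).trans t1.le, b2 m hm]
  generalize τ + τ' = ν at hν e2
  have n0 : ν ≠ 0 := fun h0 => by
    rw [h0, map_zero] at e2
    exact (t0.trans t1).ne e2
  have B : ∀ c m, (Lr P c).coeff m ≠ 0 → ph (-ν) ≤ ph m := fun c m hm => by
    rw [map_neg, e2]
    by_cases h0 : m = 0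
    · rw [h0, map_zero]; exact neg_nonpos.2 (t0.trans t1).le
    obtain ⟨c', hc'⟩ := h.symm.sig h0 hm
    have := b c' _ hc'
    rwa [map_neg, neg_le] at this
  have neg : ph (-ν) < 0 := by rw [map_neg, e2]; exact neg_lt_zero.2 (t0.trans t1)
  have low : ∀ m, P.coeff m ≠ 0 → ph m ≠ ph (-ν) := fun m hm e => by
    have hP0 : P ≠ 0 := fun h0 => hm (by rw [h0]; rfl)
    obtain ⟨σ, hσ⟩ := exists_bot hP0
    obtain ⟨σ', hσ'⟩ := exists_bot (mt sr_eq_zero.1 hP0)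
    have u1 : ph σ ≤ ph (-ν) := e ▸ ph_le (hσ.2 m hm)
    have u2 : ph σ' ≤ ph (-ν) := e ▸ ph_cjX m ▸ ph_le (hσ'.2 _ (ne_sr hm))
    have := B 2 _ (hσ.mul hσ').1.1
    rw [map_add] at this
    exact ((add_le_add u1 u2).trans_lt (add_lt_of_neg_right _ neg)).not_ge this
  obtain ⟨α, β, -, hind, hα, hβ⟩ := h.factA n0 ⟨2, Or.inl hν.1⟩
  have a0 : α 0 = 0 := hα 0 0 (Or.inl (by_contra fun h0 => (e2 ▸ t1).not_ge (b0 _ h0)))
  have a1 : α 1 = 0 := hα 1 0 (Or.inl (by_contra fun h0 => (e2 ▸ t1).not_ge (b1 _ h0)))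
  have c0 : β 0 = 0 := hβ 0 0 (Or.inl (by_contra fun h0 => low _ h0 rfl))
  have c1 : β 1 = 0 := hβ 1 0 (Or.inl (by_contra fun h0 => low _ (sr_ne h0) (ph_cjX _)))
  have a2 := (hind (β 2) (α 2) (by
    funext c; fin_cases c <;> simp [a0, a1, c0, c1, mul_comm])).2
  exact one_ne_zero (hind 1 0 (by funext c; fin_cases c <;> simp [a0, a1, a2])).1

/-- Step 1. If `φ l < 0` then `l ≠ 0`, `h.sig` gives the exponent `-l` of `Lr P c'`, against
`h.symm.no_pos`. -/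
theorem CD.imag (h : CD p P e) : Im0 p := by
  intro l hl
  have h1 := h.no_pos (c := 0) hl
  rcases h1.lt_or_eq with h2 | h2
  · have n0 : l ≠ 0 := fun h0 => by simp [h0] at h2
    obtain ⟨c, hc⟩ := h.sig n0 (c := 0) hl
    have := h.symm.no_pos hc
    rw [map_neg, ← neg_add, neg_nonpos] at this
    exact absurd h2 this.not_gt
  · exact eq_neg_of_add_eq_zero_right h2

end Pool.Agent.Lib.MP_990519_co.D
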