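import Pool.Agent.Lib.MP_990519_co.D.FA

namespace Pool.Agent.Lib.MP_990519_co.D

open Pool.Agent.Lib.MP_990519_co.Big Finset
open scoped Classical ComplexConjugate

variable {p P : RR} {e : Fin 3 → RR}

lemma eq_of_lin (n1 : ∀ α : Fin 3 → ℂ, lin α e = 0 → α = 0) {α β : Fin 3 → ℂ}
    (h : lin α e = lin β e) : α = β := by
  refine sub_eq_zero.1 (n1 _ ?_)
  simp only [lin, Pi.sub_apply, map_sub] at h ⊢
  linear_combination h

/-- `rel` is `factA0` with `D = 0`; at `l = 0` it gives `aa p 0 = aa P 0` by `n1` -/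
theorem CD.c4 (h : CD p P e) (cp : Cst p) (cP : Cst P) (ip : Im0 p) (iP : Im0 P)
    (zp : p.coeff 0 = 0) : C4 p P e := by
  have key : ∀ (F : RR) (_ : Cst F) (m : Ex) (v : Pt),
      pe v (MvPolynomial.homogeneousComponent 0 (F.coeff m)) = co F m := by
    intro F hF m v
    rw [hF m]; simp [pe_C]
  have rel : ∀ l, E l * lin (aa p l) e = lin (aa P (-l)) e := fun l => by
    have := h.factA0 l 0 0 (fun c => by rw [cp.lr c l]; simp) fun c => by rw [cP.lr c (-l)]; simp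
    simp only [key _ (cp.lr _), key _ (cP.lr _)] at this
    exact this
  refine ⟨h.s0, h.s2, h.n1, cp, cP, ip, iP, zp, ?_, rel⟩
  have := rel 0
  rw [E_zero, one_mul, neg_zero] at this
  have e0 : co p 0 = co P 0 := congrFun (eq_of_lin h.n1 this) 0
  rw [cP 0, ← e0, co, zp, map_zero, map_zero]

theorem C4.symm (h : C4 p P e) : C4 P p e := by
  refine ⟨h.s0, h.s2, h.n1, h.cP, h.cp, h.iP, h.ip, h.zP, h.zp, fun l => ?_⟩
  have := h.rel (-l)
  rw [neg_neg] at this
  rw [← this, ← mul_assoc, mul_comm (E l), E_neg_mul, one_mul]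

theorem C4.a0 (h : C4 p P e) : aa p 0 = aa P 0 := by
  have := h.rel 0
  rw [E_zero, one_mul, neg_zero] at this
  exact eq_of_lin h.n1 this

theorem C4.indep (h : C4 p P e) {l : Ex} (hl : l ≠ 0) (hne : aa p l ≠ 0 ∨ aa P (-l) ≠ 0)
    (s t : ℂ) (hst : s • aa p l = t • aa P (-l)) : s = 0 ∧ t = 0 := by
  exact nonpar h.n1 hl (h.rel l) hne s t hst

theorem C4.sig (h : C4 p P e) {l : Ex} (hl : l ≠ 0) {c : Fin 3} (hc : (Lr p c).coeff l ≠ 0) :
    ∃ c', (Lr P c').coeff (-l) ≠ 0 := by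
  by_contra h0
  push Not at h0
  have z : aa P (-l) = 0 := funext fun c => by simp [aa, co, h0 c]
  have n : aa p l ≠ 0 := fun h1 => ((h.cp.lr c).co_ne l).2 hc (congrFun h1 c)
  exact one_ne_zero (h.indep hl (Or.inl n) 0 1 (by simp [z])).2

/-- if the exponents of `Lr p` lie in `{0, ν, -ν}` and `p.coeff 0 = 0`, those of `p * sr p` lie in
`{0, ν + ν, -(ν + ν)}` as well, so only `0` remains -/
theorem const_of_three {ν : Ex} (hν : 0 < ν) (ip : Im0 p) (cp : Cst p) (zp : p.coeff 0 = 0)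
    (hs : ∀ c l, (Lr p c).coeff l ≠ 0 → l = 0 ∨ l = ν ∨ l = -ν) :
    p * sr p = K (aa p 0 2) := by
  have h1 : ∀ l, p.coeff l ≠ 0 → l = ν ∨ l = -ν := fun l hl =>
    (hs 0 l hl).resolve_left fun h0 => hl (h0 ▸ zp)
  have h2 : ∀ l, (sr p).coeff l ≠ 0 → l = ν ∨ l = -ν := fun l hl =>
    (hs 1 l hl).resolve_left fun h0 => hl (by rw [h0, ip.coeff_sr, neg_zero, zp, map_zero])
  have a1 : -ν < 0 := neg_lt_zero.2 hν
  have a2 : ν < ν + ν := lt_add_of_pos_right _ hν
  have a3 : -ν + -ν < -ν := add_lt_of_neg_right _ a1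
  refine (eq_KP (F := p * sr p) fun l hl => ?_).trans (congrArg KP (cp.lr 2 0))
  have h3 := hs 2 l hl
  obtain ⟨a, b, ha, hb, rfl⟩ := supp_mul hl
  rcases h1 a ha with rfl | rfl <;> rcases h2 b hb with rfl | rfl
  · rcases h3 with h3 | h3 | h3
    exacts [h3, absurd h3 a2.ne', absurd h3 ((a1.trans hν).trans a2).ne']
  · exact add_neg_cancel _
  · exact neg_add_cancel _
  · rcases h3 with h3 | h3 | h3
    exacts [h3, absurd h3 (a3.trans (a1.trans hν)).ne, absurd h3 a3.ne]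

/-- Case `W ≠ 0`. `W = Wv ν α β`, `α = aa p ν`, `β = aa P (-ν)`; some `W c ≠ 0` (`three_coeff`), so
`W 2 ≠ 0` (`wlem`). For `l ≠ 0` with `aa p l ≠ 0`: `lin a W * e 2 = lin a e * W 2` for every `a`,
so `E l * lin (aa p l) W = lin (aa P (-l)) W` and `lin (aa p l) W ≠ 0`; both forms have exponents
in `{0, ν, -ν}`, and `-ν ≤ l ≤ ν` (`Im0.lr_neg`); if `x` and `x + l` lie in `{0, ν, -ν}` then
`l = ν` or `l = -ν`. Then `const_of_three` for `p` and for `P` (`h.symm.sig`), `a0`. -/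
theorem C4.wcase (h : C4 p P e) {ν : Ex} (hν : 0 < ν) (hi : cjX ν = -ν)
    (hmax : ∀ c l, (Lr p c).coeff l ≠ 0 → l ≤ ν)
    (hne : crossProduct (aa p ν) (sv (aa P (-ν))) ≠ 0) : B0 p P := by
  have w := wlem h.s0 h.s2 hi (h.rel ν)
  have supp : ∀ c l, (Wv ν (aa p ν) (aa P (-ν)) c).coeff l ≠ 0 → l = 0 ∨ l = ν ∨ l = -ν :=
    fun c => (three_coeff hν.ne' _ _ _).2.2.2
  have W2 : Wv ν (aa p ν) (aa P (-ν)) 2 ≠ 0 := fun h0 => hne (funext fun c => by
    have := w 2 c
    rw [h0, mul_zero] at this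
    have z := (mul_eq_zero.1 this).resolve_left (n1_ne h.n1 2)
    have t := (three_coeff hν.ne' (crossProduct (aa p ν) (sv (aa p ν)) c +
      crossProduct (aa P (-ν)) (sv (aa P (-ν))) c) (crossProduct (aa p ν) (sv (aa P (-ν))) c)
      (crossProduct (aa P (-ν)) (sv (aa p ν)) c)).2.1
    change (Wv ν (aa p ν) (aa P (-ν)) c).coeff ν = _ at t
    rw [z, coeff_zero', eq_comm, neg_eq_zero, MvPolynomial.C_eq_zero] at t
    exact t)
  generalize Wv ν (aa p ν) (aa P (-ν)) = W at w supp W2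
  have tr : ∀ a, lin a W * e 2 = lin a e * W 2 := fun a => by
    unfold lin
    linear_combination K (a 0) * w 2 0 + K (a 1) * w 2 1
  have sl : ∀ a l, (lin a W).coeff l ≠ 0 → l = 0 ∨ l = ν ∨ l = -ν := fun a l hl => by
    by_contra h0
    have z : ∀ c, (W c).coeff l = 0 := fun c => by_contra fun h1 => h0 (supp c l h1)
    simp only [lin, coeff_add', coeff_K_mul, z, mul_zero, add_zero, ne_eq, not_true] at hl
  have a1 : -ν < 0 := neg_lt_zero.2 hν
  have hp3 : ∀ c l, (Lr p c).coeff l ≠ 0 → l = 0 ∨ l = ν ∨ l = -ν := by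
    intro c l hl
    have n : aa p l ≠ 0 := fun h1 => ((h.cp.lr c).co_ne l).2 hl (congrFun h1 c)
    have n' : lin (aa p l) W ≠ 0 := fun h0 => by
      have := tr (aa p l)
      rw [h0, zero_mul] at this
      exact n (h.n1 _ ((mul_eq_zero.1 this.symm).resolve_right W2))
    have r : E l * lin (aa p l) W = lin (aa P (-l)) W := by
      apply mul_right_cancel₀ (n1_ne h.n1 2)
      rw [mul_assoc, tr, tr, ← mul_assoc, h.rel]
    obtain ⟨x, hx, -⟩ := exists_top n'
    have hx' : (lin (aa P (-l)) W).coeff (x + l) ≠ 0 := by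
      rwa [← r, coeff_E_mul, add_sub_cancel_right]
    have u1 := hmax c l hl
    obtain ⟨c', hc'⟩ := h.ip.lr_neg hl
    have u2 := neg_le.1 (hmax c' _ hc')
    rcases sl _ _ hx with rfl | rfl | rfl <;> rcases sl _ _ hx' with h3 | h3 | h3
    · exact Or.inl (by simpa using h3)
    · exact Or.inr (Or.inl (by simpa using h3))
    · exact Or.inr (Or.inr (by simpa using h3))
    · exact Or.inr (Or.inr (eq_neg_of_add_eq_zero_right h3))
    · exact Or.inl (by simpa using h3)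
    · have := add_le_add_right u2 x
      rw [h3, add_neg_cancel] at this
      exact absurd this a1.not_ge
    · exact Or.inr (Or.inl (neg_add_eq_zero.1 h3).symm)
    · have := add_le_add_right u1 (-ν)
      rw [h3, neg_add_cancel] at this
      exact absurd this hν.not_ge
    · exact Or.inl (by simpa using h3)
  refine ⟨aa p 0 2, const_of_three hν h.ip h.cp h.zp hp3, ?_⟩
  rw [h.a0]
  refine const_of_three hν h.iP h.cP h.zP fun c l hl => ?_
  by_cases h0 : l = 0
  · exact Or.inl h0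
  obtain ⟨c', hc'⟩ := h.symm.sig h0 hl
  rcases hp3 c' _ hc' with h3 | h3 | h3
  exacts [Or.inl (neg_eq_zero.1 h3), Or.inr (Or.inr (neg_eq_iff_eq_neg.1 h3)),
    Or.inr (Or.inl (neg_inj.1 h3))]

end Pool.Agent.Lib.MP_990519_co.D
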