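import Pool.Agent.Lib.MP_990519_co.D.Sup

namespace Pool.Agent.Lib.MP_990519_co.D

open Pool.Agent.Lib.MP_990519_co.Big Finset
open scoped Classical ComplexConjugate

/-- Conjugate the relation and cancel `u * w`:
`K κ * E (-ν) * sr D * N = D * sr N` for `D = K (a κ) * E (l - ν) - K (conj b)`,
`N = K B - K A * E l`. Expand with `E_add`, `κ conj κ = 1`: the exponents are `-l, 0, -ν, l - ν`;
read off the coefficients at `0` and at `-l`. -/
theorem act {u w : RR} (hu : u ≠ 0) (hw : w ≠ 0) (sw : sr w = w) {κ : ℂ} (hκ : κ * conj κ = 1)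
    {l ν : Ex} (hl : 0 < l) (hlν : l < ν) (il : cjX l = -l) (iν : cjX ν = -ν)
    (su : sr u = K κ * E (-ν) * u) {a b A B : ℂ}
    (h : u * (K (a * κ) * E (l - ν) - K (conj b)) = w * (K B - K A * E l)) :
    conj a * A = conj (b * B) ∧ (l + l ≠ ν → conj a * B = conj (b * A)) := by
  have h' := congrArg sr h
  simp only [map_mul, map_sub, sr_K, sr_E, sw, su, il, iν, Complex.conj_conj] at h' h
  have hx := E_neg_mul l
  have hn := E_neg_mul ν
  have hk := congrArg K hκ
  rw [map_mul, map_one] at hk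
  have x1 : E (l - ν) = E l * E (-ν) := by rw [sub_eq_add_neg, E_add]
  have x2 : E (-l - -ν) = E (-l) * E ν := by rw [sub_neg_eq_add, E_add]
  have e1 : K κ * E (-ν) * (K (conj a) * K (conj κ) * E (-l - -ν) - K b) =
      K (conj a) * E (-l) - K κ * K b * E (-ν) := by
    rw [x2]
    linear_combination K (conj a) * E (-l) * E (-ν) * E ν * hk + K (conj a) * E (-l) * hn
  have key : (K (conj a) * E (-l) - K κ * K b * E (-ν)) * (K B - K A * E l) =
      (K a * K κ * E (l - ν) - K (conj b)) * (K (conj B) - K (conj A) * E (-l)) := by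
    apply mul_left_cancel₀ hu
    rw [← e1]
    linear_combination (K B - K A * E l) * h' - (K (conj B) - K (conj A) * E (-l)) * h
  have nf : K (conj a * B - conj b * conj A) * E (-l) + K (conj b * conj B - conj a * A) +
      K (a * κ * conj A - κ * b * B) * E (-ν) + K (κ * b * A - a * κ * conj B) * E (l - ν) = 0 := by
    simp only [map_mul, map_sub, x1] at key ⊢
    linear_combination key + (K (conj a) * K A - K a * K κ * K (conj A) * E (-ν)) * hx
  have n1 : -l ≠ 0 := neg_ne_zero.2 hl.ne'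
  have n2 : -ν ≠ 0 := neg_ne_zero.2 (hl.trans hlν).ne'
  have n3 : l - ν ≠ 0 := sub_ne_zero.2 hlν.ne
  constructor
  · have := congrArg (fun F : RR => pe 0 (F.coeff 0)) nf
    simp only [coeff_add', coeff_K_mul_E, coeff_K, if_neg n1, if_neg n2, if_neg n3, if_true,
      zero_add, add_zero, pe_C, coeff_zero', map_zero] at this
    rw [map_mul]
    linear_combination -this
  · intro h2
    have n4 : -ν ≠ -l := fun h3 => hlν.ne' (neg_inj.1 h3)
    have n5 : l - ν ≠ -l := fun h3 => h2 (by rw [← sub_eq_zero] at h3 ⊢; rw [← h3]; abel)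
    have := congrArg (fun F : RR => pe 0 (F.coeff (-l))) nf
    simp only [coeff_add', coeff_K_mul_E, coeff_K, if_neg n1, if_neg n4, if_neg n5, if_true,
      add_zero, pe_C, coeff_zero', map_zero] at this
    rw [map_mul]
    linear_combination this

/-- `D = 0 ↔ N = 0`, `D = 0 ↔ a = b = 0`, `N = 0 ↔ A = B = 0` (`KE_sub_K_eq_zero`); then the two
relations of `act` -/
theorem act_ne {u w : RR} (hu : u ≠ 0) (hw : w ≠ 0) (sw : sr w = w) {κ : ℂ}
    (hκ : κ * conj κ = 1) {l ν : Ex} (hl : 0 < l) (hlν : l < ν) (il : cjX l = -l)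
    (iν : cjX ν = -ν) (su : sr u = K κ * E (-ν) * u) {a b A B : ℂ}
    (h : u * (K (a * κ) * E (l - ν) - K (conj b)) = w * (K B - K A * E l))
    (hact : a ≠ 0 ∨ b ≠ 0 ∨ A ≠ 0 ∨ B ≠ 0) (h2 : l + l ≠ ν) :
    a ≠ 0 ∧ b ≠ 0 ∧ A ≠ 0 ∧ B ≠ 0 := by
  obtain ⟨r1, r2⟩ := act hu hw sw hκ hl hlν il iν su h
  replace r2 := r2 h2
  have k0 : κ ≠ 0 := left_ne_zero_of_mul_eq_one hκ
  have d : a = 0 → b = 0 → A = 0 ∧ B = 0 := fun h1 h2 => by
    simp only [h1, h2, zero_mul, map_zero, sub_zero, mul_zero] at h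
    exact KE_sub_K_eq_zero hl.ne' (by
      linear_combination -(mul_eq_zero.1 h.symm).resolve_left hw)
  have d' : A = 0 → B = 0 → a = 0 ∧ b = 0 := fun h1 h2 => by
    simp only [h1, h2, zero_mul, map_zero, sub_zero, mul_zero] at h
    have := KE_sub_K_eq_zero (sub_ne_zero.2 hlν.ne) ((mul_eq_zero.1 h).resolve_left hu)
    exact ⟨by simpa [k0] using this.1, by simpa using this.2⟩
  by_cases ha : a = 0 <;> by_cases hb : b = 0 <;> by_cases hA : A = 0 <;> by_cases hB : B = 0 <;>
    simp_all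

lemma act_lt {l l' ν : Ex} (hl : 0 < l) (hlν : l < ν) (hll : l < l') {a b A B a' b' A' B' : ℂ}
    (k : (K a * E (l - ν) - K b) * (K B' - K A' * E l') =
      (K a' * E (l' - ν) - K b') * (K B - K A * E l)) : a * B' = 0 := by
  have nf : K (a * B') * E (l - ν) - K (a * A') * E (l - ν + l') - K (b * B') + K (b * A') * E l' =
      K (a' * B) * E (l' - ν) - K (a' * A) * E (l' - ν + l) - K (b' * B) + K (b' * A) * E l := by
    simp only [map_mul, E_add]
    linear_combination k
  have n0 : l - ν < 0 := sub_neg.2 hlν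
  have n1 : l - ν + l' ≠ l - ν := by simpa using (hl.trans hll).ne'
  have n2 : l' ≠ l - ν := (n0.trans (hl.trans hll)).ne'
  have n3 : l - ν < l' - ν := sub_lt_sub_right hll ν
  have n4 : l' - ν + l ≠ l - ν := (n3.trans (lt_add_of_pos_right _ hl)).ne'
  have n5 : l ≠ l - ν := (n0.trans hl).ne'
  have := congrArg (fun F : RR => pe 0 (F.coeff (l - ν))) nf
  simpa only [coeff_add', coeff_sub', coeff_K_mul_E, coeff_K, if_neg n0.ne, if_neg n1, if_neg n2,
    if_neg n3.ne', if_neg n4, if_neg n5, if_true, add_zero, sub_zero, pe_C, map_zero] using this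

/-- `D * N' = D' * N`; if `l < l'` the coefficient at `l - ν` gives `a B' = 0` -/
theorem act_uniq {u w : RR} (hu : u ≠ 0) (hw : w ≠ 0) {l l' ν : Ex} (hl : 0 < l) (hlν : l < ν)
    (hl' : 0 < l') (hlν' : l' < ν) {a b A B a' b' A' B' : ℂ}
    (h : u * (K a * E (l - ν) - K b) = w * (K B - K A * E l))
    (h' : u * (K a' * E (l' - ν) - K b') = w * (K B' - K A' * E l'))
    (ha : a ≠ 0) (hB : B ≠ 0) (ha' : a' ≠ 0) (hB' : B' ≠ 0) : l = l' := by
  have k : (K a * E (l - ν) - K b) * (K B' - K A' * E l') =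
      (K a' * E (l' - ν) - K b') * (K B - K A * E l) := by
    apply mul_left_cancel₀ hu
    linear_combination (K B' - K A' * E l') * h - (K B - K A * E l) * h'
  rcases lt_trichotomy l l' with h1 | h1 | h1
  · exact absurd (act_lt hl hlν h1 k) (mul_ne_zero ha hB')
  · exact h1
  · exact absurd (act_lt hl' hlν' h1 k.symm) (mul_ne_zero ha' hB)

end Pool.Agent.Lib.MP_990519_co.D
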