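import Pool.Agent.Lib.MP_990519_co.D.S4a
import Pool.Agent.Lib.MP_990519_co.D.S4b

namespace Pool.Agent.Lib.MP_990519_co.D

open Pool.Agent.Lib.MP_990519_co.Big Finset
open scoped Classical ComplexConjugate

variable {p P : RR} {e : Fin 3 → RR}

/-- Case `W = 0`. `α = aa p ν ≠ 0`, `β = aa P (-ν)`, independent (`indep`), and `sv β` is parallel
to `α`. With top `a` and bottom `b` of `p`: if `b < 0 < a` then `ν = a - b`, `α = (0, 0, *)`, so
`β = (0, 0, *)`: parallel. So `0 < b`, `ν = a`, `α = (*, 0, 0)`, `β = (0, *, 0)` with a nonzero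
entry, so `P.coeff ν ≠ 0`. All exponents of `Lr P` are `≥ -ν` and `≤ ν` (`h.symm.sig`,
`Im0.lr_neg`); if the bottom `b'` of `P` were negative, `ν - b' > ν` would be an exponent of
`P * sr P`. -/
theorem C4.shape (h : C4 p P e) {ν : Ex} (hν : 0 < ν)
    (hmax : ∀ c l, (Lr p c).coeff l ≠ 0 → l ≤ ν) (hex : ∃ c, (Lr p c).coeff ν ≠ 0)
    (hpos : ∃ l, 0 < l ∧ p.coeff l ≠ 0)
    (hz : crossProduct (aa p ν) (sv (aa P (-ν))) = 0) : Pos p ν ∧ Pos P ν := by
  obtain ⟨l0, hl0, hc0⟩ := hpos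
  have hp0 : p ≠ 0 := fun h0 => hc0 (by rw [h0]; rfl)
  obtain ⟨a, ha⟩ := exists_top hp0
  obtain ⟨b, hb⟩ := exists_bot hp0
  have a0 : 0 < a := hl0.trans_le (ha.2 _ hc0)
  have ts := h.ip.top_sr hb
  have tm := (ha.mul ts).1
  obtain ⟨c, hc⟩ := hex
  have n : aa p ν ≠ 0 := fun h1 => ((h.cp.lr c).co_ne ν).2 hc (congrFun h1 c)
  have ind := h.indep hν.ne' (Or.inl n)
  have z0 := congrFun hz 0
  have z1 := congrFun hz 1
  have z2 := congrFun hz 2
  simp only [cross_apply, sv, Matrix.cons_val_zero, Matrix.cons_val_one, Matrix.cons_val,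
    Pi.zero_apply] at z0 z1 z2
  have zero : ∀ {F : RR} {l : Ex}, F.coeff l = 0 → co F l = 0 := fun h0 => by
    rw [co, h0, map_zero]
  have b0 : 0 < b := by
    rcases lt_trichotomy b 0 with h1 | h1 | h1
    · exfalso
      have u := hmax 2 _ tm.1
      have e0 : aa p ν 0 = 0 := zero (by_contra fun h2 =>
        ((lt_add_of_pos_right a (neg_pos.2 h1)).trans_le u).not_ge (ha.2 _ h2))
      have e1 : aa p ν 1 = 0 := zero (by_contra fun h2 =>
        ((lt_add_of_pos_left (-b) a0).trans_le u).not_ge (ts.2 _ h2))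
      have e2 : aa p ν 2 ≠ 0 := fun e2 => n (by funext c; fin_cases c <;> simp [e0, e1, e2])
      have f0 : aa P (-ν) 0 = 0 := by simpa [e1, e2] using z0
      have f1 : aa P (-ν) 1 = 0 := by simpa [e0, e2] using z1
      exact e2 (ind (aa P (-ν) 2) (aa p ν 2) (by
        funext c; fin_cases c <;> simp [e0, e1, f0, f1, mul_comm])).2
    · exact absurd h.zp (h1 ▸ hb.1)
    · exact h1
  have u := hmax 0 _ ha.1
  have e1' : (sr p).coeff ν = 0 := by_contra fun h2 =>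
    ((neg_lt_zero.2 b0).trans hν).not_ge (ts.2 _ h2)
  have e2' : (p * sr p).coeff ν = 0 := by_contra fun h2 =>
    ((add_lt_of_neg_right a (neg_lt_zero.2 b0)).trans_le u).not_ge (tm.2 _ h2)
  have e1 : aa p ν 1 = 0 := zero e1'
  have e2 : aa p ν 2 = 0 := zero e2'
  have e0 : aa p ν 0 ≠ 0 := fun e0 => n (by funext c; fin_cases c <;> simp [e0, e1, e2])
  have f0 : aa P (-ν) 0 = 0 := by simpa [e1, e0] using z2
  have f2 : aa P (-ν) 2 = 0 := by simpa [e2, e0] using z1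
  have f1 : aa P (-ν) 1 ≠ 0 := fun f1 => one_ne_zero (ind 0 1 (by
    funext c; fin_cases c <;> simp [f0, f1, f2])).2
  have hPν : P.coeff ν ≠ 0 := by
    have : (sr P).coeff (-ν) ≠ 0 := (h.cP.star.co_ne _).1 f1
    rwa [h.iP.coeff_sr, neg_neg, Ne, cjP_eq_zero] at this
  have hmax' : ∀ c l, (Lr P c).coeff l ≠ 0 → l ≤ ν := fun c l hl => by
    by_cases h0 : l = 0
    · exact h0 ▸ hν.le
    obtain ⟨c1, h1⟩ := h.symm.sig h0 hl
    obtain ⟨c2, h2⟩ := h.ip.lr_neg h1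
    exact hmax c2 l (by rwa [neg_neg] at h2)
  refine ⟨⟨(h.cp.co_ne _).1 e0, fun l hl => ⟨b0.trans_le (hb.2 l hl), hmax 0 l hl⟩⟩,
    hPν, fun l hl => ⟨?_, hmax' 0 l hl⟩⟩
  obtain ⟨b', hb'⟩ := exists_bot (F := P) fun h0 => hPν (by rw [h0]; rfl)
  have tP : IsTop P ν := ⟨hPν, hmax' 0⟩
  have := hmax' 2 _ (tP.mul (h.iP.top_sr hb')).1.1
  have b1 : 0 ≤ b' := by simpa using this
  exact (b1.lt_of_ne fun h0 => hb'.1 (h0 ▸ h.zP)).trans_le (hb'.2 l hl)

/-- `rel ν` reads `E ν * (K (co p ν) * e 0) = K (conj (co P ν)) * e 1`; `κ = conj (co P ν) / co p ν`;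
conjugate to get `κ conj κ = 1`. `rel l` gives the second part. -/
theorem C4.kappa (h : C4 p P e) {ν : Ex} (hp : Pos p ν) (hP : Pos P ν) :
    ∃ κ : ℂ, κ * conj κ = 1 ∧ κ * co p ν = conj (co P ν) ∧ sr (e 1) = K κ * E (-ν) * e 1 ∧
      ∀ l, 0 < l → e 1 * (K (co p l * κ) * E (l - ν) - K (conj (co P l))) =
        e 2 * (K (co (P * sr P) (-l)) - K (co (p * sr p) l) * E l) := by
  have zero : ∀ {F : RR} {l : Ex}, F.coeff l = 0 → co F l = 0 := fun h0 => by
    rw [co, h0, map_zero]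
  have neg : ∀ {F : RR}, Pos F ν → ∀ l, 0 < l → co F (-l) = 0 := fun hF l hl =>
    zero (by_contra fun h0 => (neg_lt_zero.2 hl).not_gt (hF.2 _ h0).1)
  have rel : ∀ l, 0 < l → E l * (K (co p l) * e 0 + K (co (p * sr p) l) * e 2) =
      K (conj (co P l)) * e 1 + K (co (P * sr P) (-l)) * e 2 := fun l hl => by
    have := h.rel l
    simp only [lin, aa, Lr_zero, Lr_one, Lr_two, h.ip.co_sr, h.iP.co_sr, neg hp l hl, neg hP l hl,
      neg_neg, map_zero, zero_mul, add_zero, zero_add] at this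
    exact this
  have hν := (hp.2 _ hp.1).1
  have s1 : sr (e 1) = e 0 := by rw [← h.s0, sr_sr]
  have z1 : co (p * sr p) ν = 0 := zero (by_contra fun h0 => by
    obtain ⟨a, b, ha, hb, hab⟩ := supp_mul h0
    rw [h.ip.coeff_sr, Ne, cjP_eq_zero] at hb
    have := add_lt_add_of_le_of_lt (hp.2 a ha).2 (neg_pos.1 (hp.2 _ hb).1)
    rw [hab, add_zero] at this
    exact this.false)
  have z2 : co (P * sr P) (-ν) = 0 := zero (by_contra fun h0 => by
    obtain ⟨a, b, ha, hb, hab⟩ := supp_mul h0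
    rw [h.iP.coeff_sr, Ne, cjP_eq_zero] at hb
    have := add_lt_add_of_lt_of_le (hP.2 a ha).1 (neg_le.1 (hP.2 _ hb).2)
    rw [hab, zero_add] at this
    exact this.false)
  have n : co p ν ≠ 0 := (h.cp.co_ne _).2 hp.1
  obtain ⟨κ, hk⟩ : ∃ κ, κ * co p ν = conj (co P ν) := ⟨conj (co P ν) / co p ν, by field_simp⟩
  have hE := E_neg_mul ν
  have r := rel ν hν
  rw [z1, z2, ← hk, map_mul] at r
  simp only [map_zero, zero_mul, add_zero] at r
  have su : e 0 = K κ * E (-ν) * e 1 := by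
    apply mul_left_cancel₀ (mt K_eq_zero.1 n)
    linear_combination E (-ν) * r - K (co p ν) * e 0 * hE
  refine ⟨κ, ?_, hk, s1.trans su, fun l hl => ?_⟩
  · have t := congrArg sr su
    rw [h.s0, map_mul, map_mul, sr_K, sr_E, s1, map_neg, h.ip ν hp.1, neg_neg] at t
    apply K_inj
    apply mul_right_cancel₀ (n1_ne h.n1 1)
    rw [map_mul, map_one]
    linear_combination -t - K (conj κ) * E ν * su - K κ * K (conj κ) * e 1 * hE
  · have := rel l hl
    rw [su] at this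
    rw [sub_eq_add_neg l, E_add, map_mul]
    linear_combination this

end Pool.Agent.Lib.MP_990519_co.D
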