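import Pool.Agent.Lib.MP_990519_co.D.Res

namespace Pool.Agent.Lib.MP_990519_co.D

open Pool.Agent.Lib.MP_990519_co.Big Finset
open scoped Classical ComplexConjugate

variable {ι : Type} [Fintype ι]

omit [Fintype ι] in
lemma res_row_st1 (V : Finset ι → ℂ) {L L' : Finset ι} (hL : L ⊆ L') (A : Finset ι) :
    LinearMap.funLeft ℂ ℂ (fun B => B ∩ L) (row V L' A) = row V L A := by
  funext B
  rw [LinearMap.funLeft_apply, row, row, inter_assoc, inter_eq_left.2 hL]

omit [Fintype ι] in
lemma map_res_st1 (V : Finset ι → ℂ) (M : Finset ι) {L L' : Finset ι} (hL : L ⊆ L') :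
    (rsp V M L').map (LinearMap.funLeft ℂ ℂ fun B => B ∩ L) = rsp V M L := by
  rw [rsp, rsp, Submodule.map_span, Set.image_image]
  simp only [res_row_st1 V hL]

omit [Fintype ι] in
lemma rsp_mono_st1 (V : Finset ι → ℂ) {M M' : Finset ι} (hM : M ⊆ M') (L : Finset ι) :
    rsp V M L ≤ rsp V M' L :=
  Submodule.span_mono (Set.image_mono fun _ h => Subset.trans h hM)

lemma rk_mono (V : Finset ι → ℂ) {M M' L L' : Finset ι} (hM : M ⊆ M') (hL : L ⊆ L') :
    rk V M L ≤ rk V M' L' := by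
  rw [rk, rk, ← map_res_st1 V M hL]
  exact (Submodule.finrank_map_le _ _).trans (Submodule.finrank_mono (rsp_mono_st1 V hM L'))

lemma rk_le {D : ℕ} {V : Finset ι → ℂ} (h : LowRank D V) {M L : Finset ι} (hd : Disjoint M L) :
    rk V M L ≤ D := by
  obtain ⟨W, h1, h2⟩ := h L
  refine (Submodule.finrank_mono (Submodule.span_le.2 ?_)).trans h1
  rintro _ ⟨A, hA, rfl⟩
  exact h2 A (hd.mono_left hA)

/-- The rank stabilises. -/
theorem stab1 {D s : ℕ} {V : Finset ι → ℂ} (h : LowRank D V) (hc : (D + 1) * s ≤ Fintype.card ι) :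
    ∃ M L T : Finset ι, Disjoint M L ∧ Disjoint M T ∧ Disjoint L T ∧ T.card = s ∧
      ∀ S1 S2 : Finset ι, S1 ⊆ T → S2 ⊆ T → Disjoint S1 S2 →
        rk V (M ∪ S1) (L ∪ S2) = rk V M L := by
  by_contra hn
  have key : ∀ j, j ≤ D + 1 → ∃ M L : Finset ι, Disjoint M L ∧ (M ∪ L).card ≤ j * s ∧
      j ≤ rk V M L := by
    intro j
    induction j with
    | zero => exact fun _ => ⟨∅, ∅, by simp, by simp, Nat.zero_le _⟩
    | succ j ih =>
      intro hj
      obtain ⟨M, L, h1, h2, h3⟩ := ih (by omega)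
      have h4 := Nat.mul_le_mul_right s hj
      rw [add_one_mul] at h4
      obtain ⟨T, h5, h6⟩ := exists_subset_card_eq (s := (M ∪ L)ᶜ) (n := s) (by
        rw [card_compl]
        omega)
      have h7 : Disjoint (M ∪ L) T := disjoint_compl_right.mono_right h5
      rw [disjoint_union_left] at h7
      by_contra h8
      refine hn ⟨M, L, T, h1, h7.1, h7.2, h6, fun S1 S2 a1 a2 a3 => ?_⟩
      refine le_antisymm (not_lt.1 fun a4 => h8 ⟨M ∪ S1, L ∪ S2, ?_, ?_, by omega⟩)
        (rk_mono V subset_union_left subset_union_left)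
      · rw [disjoint_union_left, disjoint_union_right, disjoint_union_right]
        exact ⟨⟨h1, h7.1.mono_right a2⟩, (h7.2.mono_right a1).symm, a3⟩
      · rw [union_union_union_comm, add_one_mul]
        exact (card_union_le _ _).trans (add_le_add h2
          (h6 ▸ card_le_card (union_subset a1 a2)))
  obtain ⟨M, L, h1, -, h2⟩ := key _ le_rfl
  have := rk_le h h1
  omega

/-- The shift operator. -/
theorem shift_op {V : Finset ι → ℂ} {M L T : Finset ι}
    (hst : ∀ S1 S2 : Finset ι, S1 ⊆ T → S2 ⊆ T → Disjoint S1 S2 →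
      rk V (M ∪ S1) (L ∪ S2) = rk V M L) {s : ι} (hs : s ∈ T) :
    (∀ A, A ⊆ M ∪ T → row V L A ∈ rsp V M L) ∧
    ∃ Ts : (Finset ι → ℂ) →ₗ[ℂ] (Finset ι → ℂ),
      ∀ A, A ⊆ M ∪ T.erase s → Ts (row V L A) = row V L (insert s A) := by
  constructor
  · intro A hA
    have h1 := hst T ∅ Subset.rfl (empty_subset _) (disjoint_empty_right _)
    rw [union_empty] at h1
    rw [Submodule.eq_of_le_of_finrank_eq (rsp_mono_st1 V (subset_union_left (s₂ := T)) L) h1.symm]
    exact Submodule.subset_span ⟨A, hA, rfl⟩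
  have h1 := hst (T.erase s) {s} (erase_subset _ _) (singleton_subset_iff.2 hs) (by simp)
  have h2 := hst (T.erase s) ∅ (erase_subset _ _) (empty_subset _) (disjoint_empty_right _)
  rw [union_empty, ← h1, rk, rk, ← map_res_st1 V _ (subset_union_left (s₁ := L) (s₂ := {s})),
    ← LinearMap.range_domRestrict] at h2
  have h3 := LinearMap.finrank_range_add_finrank_ker
    ((LinearMap.funLeft ℂ ℂ fun B => B ∩ L).domRestrict (rsp V (M ∪ T.erase s) (L ∪ {s})))
  obtain ⟨g, hg⟩ := LinearMap.exists_leftInverse_of_injective _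
    (Submodule.finrank_eq_zero.1 (by omega) : LinearMap.ker ((LinearMap.funLeft ℂ ℂ
      fun B => B ∩ L).domRestrict (rsp V (M ∪ T.erase s) (L ∪ {s}))) = ⊥)
  refine ⟨(LinearMap.funLeft ℂ ℂ fun B => insert s (B ∩ L)) ∘ₗ (Submodule.subtype _ ∘ₗ g),
    fun A hA => ?_⟩
  have h4 := LinearMap.congr_fun hg ⟨row V (L ∪ {s}) A, Submodule.subset_span ⟨A, hA, rfl⟩⟩
  rw [LinearMap.comp_apply, LinearMap.domRestrict_apply, res_row_st1 V subset_union_left] at h4
  funext B
  rw [LinearMap.comp_apply, LinearMap.comp_apply, h4, LinearMap.funLeft_apply]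
  change V _ = V _
  congr 1
  ext x
  simp only [mem_union, mem_inter, mem_insert, mem_singleton]
  tauto

end Pool.Agent.Lib.MP_990519_co.D
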