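import Pool.Agent.Lib.MP_990519_co.D.R0

namespace Pool.Agent.Lib.MP_990519_co.D

open Pool.Agent.Lib.MP_990519_co.Big Finset
open scoped Classical ComplexConjugate

/-! Supports, extreme exponents, the predicates `Sm`, `Im0`, `Cst`. -/

lemma coeff_mul_sum_sup (F G : RR) (m : Ex) :
    (F * G).coeff m = ∑ a ∈ F.coeff.support, F.coeff a * G.coeff (m - a) := by
  rw [AddMonoidAlgebra.coeff_mul_apply_left, Finsupp.sum]
  simp only [neg_add_eq_sub]

lemma supp_mul {F G : RR} {m : Ex} (h : (F * G).coeff m ≠ 0) :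
    ∃ a b, F.coeff a ≠ 0 ∧ G.coeff b ≠ 0 ∧ a + b = m := by
  rw [coeff_mul_sum_sup] at h
  obtain ⟨a, -, ha⟩ := Finset.exists_ne_zero_of_sum_ne_zero h
  exact ⟨a, m - a, left_ne_zero_of_mul ha, right_ne_zero_of_mul ha, by abel⟩

lemma coeff_mul_sum (F G : RR) (m : Ex) :
    (F * G).coeff m = ∑ a ∈ F.coeff.support, F.coeff a * G.coeff (m - a) := by
  exact coeff_mul_sum_sup F G m

lemma supp_nonempty {F : RR} (h : F ≠ 0) : F.coeff.support.Nonempty := by
  rw [Finsupp.support_nonempty_iff]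
  intro h0
  exact h (RR_ext fun m => by rw [h0]; rfl)

lemma exists_top {F : RR} (h : F ≠ 0) : ∃ l, IsTop F l := by
  have hn := supp_nonempty h
  exact ⟨F.coeff.support.max' hn, Finsupp.mem_support_iff.1 (Finset.max'_mem _ hn),
    fun m hm => Finset.le_max' _ _ (Finsupp.mem_support_iff.2 hm)⟩

lemma exists_bot {F : RR} (h : F ≠ 0) : ∃ l, IsBot F l := by
  have hn := supp_nonempty h
  exact ⟨F.coeff.support.min' hn, Finsupp.mem_support_iff.1 (Finset.min'_mem _ hn),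
    fun m hm => Finset.min'_le _ _ (Finsupp.mem_support_iff.2 hm)⟩

/-- `AddMonoidAlgebra.coeff_mul_add_of_uniqueAdd` -/
lemma IsTop.mul {F G : RR} {a b : Ex} (hF : IsTop F a) (hG : IsTop G b) :
    IsTop (F * G) (a + b) ∧ (F * G).coeff (a + b) = F.coeff a * G.coeff b := by
  have e : (F * G).coeff (a + b) = F.coeff a * G.coeff b := by
    refine AddMonoidAlgebra.coeff_mul_add_of_uniqueAdd fun x y hx hy hxy => ?_
    have h1 := hF.2 x (Finsupp.mem_support_iff.1 hx)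
    have h2 := hG.2 y (Finsupp.mem_support_iff.1 hy)
    exact (add_eq_add_iff_eq_and_eq h1 h2).1 hxy
  refine ⟨⟨e ▸ mul_ne_zero hF.1 hG.1, fun m hm => ?_⟩, e⟩
  obtain ⟨x, y, hx, hy, rfl⟩ := supp_mul hm
  exact add_le_add (hF.2 x hx) (hG.2 y hy)

lemma IsBot.mul {F G : RR} {a b : Ex} (hF : IsBot F a) (hG : IsBot G b) :
    IsBot (F * G) (a + b) ∧ (F * G).coeff (a + b) = F.coeff a * G.coeff b := by
  have e : (F * G).coeff (a + b) = F.coeff a * G.coeff b := by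
    refine AddMonoidAlgebra.coeff_mul_add_of_uniqueAdd fun x y hx hy hxy => ?_
    have h1 := hF.2 x (Finsupp.mem_support_iff.1 hx)
    have h2 := hG.2 y (Finsupp.mem_support_iff.1 hy)
    have := (add_eq_add_iff_eq_and_eq h1 h2).1 hxy.symm
    exact ⟨this.1.symm, this.2.symm⟩
  refine ⟨⟨e ▸ mul_ne_zero hF.1 hG.1, fun m hm => ?_⟩, e⟩
  obtain ⟨x, y, hx, hy, rfl⟩ := supp_mul hm
  exact add_le_add (hF.2 x hx) (hG.2 y hy)

lemma Sm.mono {δ δ' : ℝ} {F : RR} (h : Sm δ F) (hδ : δ ≤ δ') : Sm δ' F := by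
  exact fun l hl i => (h l hl i).trans hδ

lemma Sm.add {δ : ℝ} {F G : RR} (h : Sm δ F) (h' : Sm δ G) : Sm δ (F + G) := by
  intro l hl
  by_cases h1 : F.coeff l = 0
  · exact h' l (by rwa [coeff_add', h1, zero_add] at hl)
  · exact h l h1

lemma Sm.sub {δ : ℝ} {F G : RR} (h : Sm δ F) (h' : Sm δ G) : Sm δ (F - G) := by
  intro l hl
  by_cases h1 : G.coeff l = 0
  · exact h l (by rwa [coeff_sub', h1, sub_zero] at hl)
  · exact h' l h1

lemma Sm.mul {δ δ' : ℝ} {F G : RR} (h : Sm δ F) (h' : Sm δ' G) : Sm (δ + δ') (F * G) := by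
  intro l hl i
  obtain ⟨a, b, ha, hb, rfl⟩ := supp_mul hl
  rw [cx_add, Complex.add_im]
  exact (abs_add_le _ _).trans (add_le_add (h a ha i) (h' b hb i))

lemma Sm.star {δ : ℝ} {F : RR} (h : Sm δ F) : Sm δ (sr F) := by
  intro l hl i
  rw [coeff_sr, Ne, cjP_eq_zero] at hl
  have := h _ hl i
  rwa [cx_cjX, Complex.conj_im, abs_neg] at this

lemma sm_K (z : ℂ) : Sm 0 (K z) := by
  intro l hl i
  rw [coeff_K] at hl
  have : l = 0 := by by_contra h0; exact hl (if_neg h0)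
  rw [this, cx_zero]; simp

lemma exists_sm (F : RR) : ∃ δ : ℝ, 0 < δ ∧ Sm δ F := by
  refine ⟨1 + ∑ l ∈ F.coeff.support, ∑ i, |(cx l i).im|, by positivity, fun l hl i => ?_⟩
  have h1 : |(cx l i).im| ≤ ∑ i, |(cx l i).im| :=
    Finset.single_le_sum (f := fun i => |(cx l i).im|) (fun _ _ => abs_nonneg _) (mem_univ i)
  have h2 : ∑ i, |(cx l i).im| ≤ ∑ l ∈ F.coeff.support, ∑ i, |(cx l i).im| :=
    Finset.single_le_sum (f := fun l => ∑ i, |(cx l i).im|)
      (fun _ _ => Finset.sum_nonneg fun _ _ => abs_nonneg _) (Finsupp.mem_support_iff.2 hl)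
  linarith

lemma Im0.coeff_sr {F : RR} (h : Im0 F) (l : Ex) : (sr F).coeff l = cjP (F.coeff (-l)) := by
  rw [D.coeff_sr]
  by_cases h1 : F.coeff (-l) = 0
  · by_cases h2 : F.coeff (cjX l) = 0
    · rw [h1, h2]
    · have := h _ h2
      rw [cjX_cjX] at this
      rw [neg_eq_iff_eq_neg.2 this]
  · have := h _ h1
    rw [map_neg, neg_inj] at this
    rw [this]

lemma Im0.star {F : RR} (h : Im0 F) : Im0 (sr F) := by
  intro l hl
  rw [h.coeff_sr, Ne, cjP_eq_zero] at hl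
  have := h _ hl
  rwa [map_neg, neg_inj] at this

lemma Im0.mul {F G : RR} (h : Im0 F) (h' : Im0 G) : Im0 (F * G) := by
  intro l hl
  obtain ⟨a, b, ha, hb, rfl⟩ := supp_mul hl
  rw [map_add, h a ha, h' b hb, neg_add]

lemma Im0.sub_K {F : RR} (h : Im0 F) (z : ℂ) : Im0 (F - K z) := by
  intro l hl
  by_cases h0 : l = 0
  · rw [h0, map_zero, neg_zero]
  · rw [coeff_sub', coeff_K, if_neg h0, sub_zero] at hl
    exact h l hl

lemma Im0.lr {p : RR} (h : Im0 p) (c : Fin 3) : Im0 (Lr p c) := by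
  fin_cases c
  · exact h
  · exact h.star
  · exact h.mul h.star

lemma Im0.top_sr {F : RR} (h : Im0 F) {a : Ex} (ha : IsBot F a) : IsTop (sr F) (-a) := by
  refine ⟨by rw [h.coeff_sr, neg_neg, Ne, cjP_eq_zero]; exact ha.1, fun m hm => ?_⟩
  rw [h.coeff_sr, Ne, cjP_eq_zero] at hm
  exact le_neg.1 (ha.2 _ hm)

lemma Im0.bot_sr {F : RR} (h : Im0 F) {a : Ex} (ha : IsTop F a) : IsBot (sr F) (-a) := by
  refine ⟨by rw [h.coeff_sr, neg_neg, Ne, cjP_eq_zero]; exact ha.1, fun m hm => ?_⟩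
  rw [h.coeff_sr, Ne, cjP_eq_zero] at hm
  exact neg_le.1 (ha.2 _ hm)

/-- the supports of `Lr p` are symmetric -/
lemma Im0.lr_neg {p : RR} (h : Im0 p) {c : Fin 3} {l : Ex} (hl : (Lr p c).coeff l ≠ 0) :
    ∃ c', (Lr p c').coeff (-l) ≠ 0 := by
  fin_cases c
  · exact ⟨1, by rw [Lr_one, h.coeff_sr, neg_neg, Ne, cjP_eq_zero]; exact hl⟩
  · refine ⟨0, ?_⟩
    change (sr p).coeff l ≠ 0 at hl
    rwa [h.coeff_sr, Ne, cjP_eq_zero] at hl
  · refine ⟨2, ?_⟩
    have e : Lr p 2 = sr (Lr p 2) := by rw [Lr_two, map_mul, sr_sr, mul_comm]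
    rw [e, (h.lr 2).coeff_sr, neg_neg, Ne, cjP_eq_zero]
    exact hl

lemma Im0.coeff_zero_mul {p : RR} (h : Im0 p) :
    (p * sr p).coeff 0 = ∑ l ∈ p.coeff.support, p.coeff l * cjP (p.coeff l) := by
  rw [coeff_mul_sum]
  refine Finset.sum_congr rfl fun l _ => ?_
  rw [h.coeff_sr, zero_sub, neg_neg]

lemma cst_of {F : RR} (h : ∀ l, ∃ z, F.coeff l = MvPolynomial.C z) : Cst F := by
  intro l
  obtain ⟨z, hz⟩ := h l
  rw [co, hz, pe_C]

lemma Cst.star {F : RR} (h : Cst F) : Cst (sr F) := by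
  refine cst_of fun l => ⟨conj (co F (cjX l)), ?_⟩
  rw [coeff_sr, h (cjX l), cjP_C]

lemma Cst.mul {F G : RR} (h : Cst F) (h' : Cst G) : Cst (F * G) := by
  refine cst_of fun l => ⟨∑ a ∈ F.coeff.support, co F a * co G (l - a), ?_⟩
  rw [coeff_mul_sum, map_sum]
  exact Finset.sum_congr rfl fun a _ => by rw [h a, h' (l - a), map_mul]

lemma Cst.sub_K {F : RR} (h : Cst F) (z : ℂ) : Cst (F - K z) := by
  refine cst_of fun l => ⟨co F l - if l = 0 then z else 0, ?_⟩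
  rw [coeff_sub', coeff_K, h l, map_sub]
  split_ifs <;> simp

lemma Cst.lr {p : RR} (h : Cst p) (c : Fin 3) : Cst (Lr p c) := by
  fin_cases c
  · exact h
  · exact h.star
  · exact h.mul h.star

lemma Cst.co_ne {F : RR} (h : Cst F) (l : Ex) : co F l ≠ 0 ↔ F.coeff l ≠ 0 := by
  conv_rhs => rw [h l]
  simp

lemma Im0.co_sr {F : RR} (h : Im0 F) (l : Ex) : co (sr F) l = conj (co F (-l)) := by
  rw [co, h.coeff_sr, pe_cjP, co]

/-- if `p` has no nonzero exponent, neither has `Lr p c` -/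
lemma lr_supp_zero {p : RR} (h : ∀ l, p.coeff l ≠ 0 → l = 0) (c : Fin 3) :
    ∀ l, (Lr p c).coeff l ≠ 0 → l = 0 := by
  have h1 : ∀ l, (sr p).coeff l ≠ 0 → l = 0 := by
    intro l hl
    rw [coeff_sr, Ne, cjP_eq_zero] at hl
    rw [← cjX_cjX l, h _ hl, map_zero]
  fin_cases c
  · exact h
  · exact h1
  · intro l hl
    obtain ⟨a, b, ha, hb, rfl⟩ := supp_mul hl
    rw [h a ha, h1 b hb, add_zero]

/-- coefficients of `K a - E ν * K b - E (-ν) * K c` -/
lemma three_coeff {ν : Ex} (hν : ν ≠ 0) (a b c : ℂ) :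
    (K a - E ν * K b - E (-ν) * K c).coeff 0 = MvPolynomial.C a ∧
    (K a - E ν * K b - E (-ν) * K c).coeff ν = -MvPolynomial.C b ∧
    (K a - E ν * K b - E (-ν) * K c).coeff (-ν) = -MvPolynomial.C c ∧
    ∀ l, (K a - E ν * K b - E (-ν) * K c).coeff l ≠ 0 → l = 0 ∨ l = ν ∨ l = -ν := by
  have n1 : ν ≠ -ν := fun h => hν (two_inj (by rw [add_zero]; nth_rw 2 [h]; exact add_neg_cancel ν))
  have n2 : -ν ≠ 0 := neg_ne_zero.2 hν
  have e : ∀ l, (K a - E ν * K b - E (-ν) * K c).coeff l =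
      (if l = 0 then MvPolynomial.C a else 0) - (if ν = l then MvPolynomial.C b else 0) -
        if -ν = l then MvPolynomial.C c else 0 := by
    intro l
    rw [coeff_sub', coeff_sub', mul_comm (E ν), mul_comm (E (-ν)), coeff_K, coeff_K_mul_E,
      coeff_K_mul_E]
  refine ⟨?_, ?_, ?_, fun l hl => ?_⟩
  · rw [e, if_pos rfl, if_neg hν, if_neg n2]; simp
  · rw [e, if_neg hν, if_pos rfl, if_neg n1.symm]; simp
  · rw [e, if_neg n2, if_neg n1, if_pos rfl]; simp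
  · by_contra h0
    push Not at h0
    rw [e, if_neg h0.1, if_neg h0.2.1.symm, if_neg h0.2.2.symm] at hl
    simp at hl

/-- the conjugate of a linear form -/
lemma sr_lin {e : Fin 3 → RR} (s0 : sr (e 0) = e 1) (s2 : sr (e 2) = e 2) (α : Fin 3 → ℂ) :
    sr (lin α e) = lin (sv α) e := by
  have s1 : sr (e 1) = e 0 := by rw [← s0, sr_sr]
  simp only [lin, map_add, map_mul, sr_K, s0, s1, s2, sv, Matrix.cons_val_zero,
    Matrix.cons_val_one, Matrix.cons_val]
  ring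

/-- `e` is orthogonal to `E ν α - β` and to `E (-ν) α* - β*`, so it is parallel to their cross
product `Wv` (use `E_neg_mul`). -/
lemma wlem {e : Fin 3 → RR} (s0 : sr (e 0) = e 1) (s2 : sr (e 2) = e 2) {ν : Ex}
    (hν : cjX ν = -ν) {α β : Fin 3 → ℂ} (h : E ν * lin α e = lin β e) (c c' : Fin 3) :
    e c * Wv ν α β c' = e c' * Wv ν α β c := by
  have h' := congrArg sr h
  rw [map_mul, sr_E, hν, sr_lin s0 s2, sr_lin s0 s2] at h'
  have hE := E_neg_mul ν
  generalize hα : sv α = α' at h'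
  generalize hβ : sv β = β' at h'
  have w0 : Wv ν α β 0 = (E ν * K (α 1) - K (β 1)) * (E (-ν) * K (α' 2) - K (β' 2)) -
      (E ν * K (α 2) - K (β 2)) * (E (-ν) * K (α' 1) - K (β' 1)) := by
    simp only [Wv, hα, hβ, cross_apply, Matrix.cons_val_zero, map_add, map_sub, map_mul]
    linear_combination (K (α 2) * K (α' 1) - K (α 1) * K (α' 2)) * hE
  have w1 : Wv ν α β 1 = (E ν * K (α 2) - K (β 2)) * (E (-ν) * K (α' 0) - K (β' 0)) -
      (E ν * K (α 0) - K (β 0)) * (E (-ν) * K (α' 2) - K (β' 2)) := by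
    simp only [Wv, hα, hβ, cross_apply, Matrix.cons_val_zero, Matrix.cons_val_one, map_add,
      map_sub, map_mul]
    linear_combination (K (α 0) * K (α' 2) - K (α 2) * K (α' 0)) * hE
  have w2 : Wv ν α β 2 = (E ν * K (α 0) - K (β 0)) * (E (-ν) * K (α' 1) - K (β' 1)) -
      (E ν * K (α 1) - K (β 1)) * (E (-ν) * K (α' 0) - K (β' 0)) := by
    simp only [Wv, hα, hβ, cross_apply, Matrix.cons_val, map_add, map_sub, map_mul]
    linear_combination (K (α 1) * K (α' 0) - K (α 0) * K (α' 1)) * hE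
  unfold lin at h h'
  have a01 : e 0 * Wv ν α β 1 = e 1 * Wv ν α β 0 := by
    rw [w0, w1]
    linear_combination (E ν * K (α 2) - K (β 2)) * h' - (E (-ν) * K (α' 2) - K (β' 2)) * h
  have a02 : e 0 * Wv ν α β 2 = e 2 * Wv ν α β 0 := by
    rw [w0, w2]
    linear_combination (E (-ν) * K (α' 1) - K (β' 1)) * h - (E ν * K (α 1) - K (β 1)) * h'
  have a12 : e 1 * Wv ν α β 2 = e 2 * Wv ν α β 1 := by
    rw [w1, w2]
    linear_combination (E ν * K (α 0) - K (β 0)) * h' - (E (-ν) * K (α' 0) - K (β' 0)) * h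
  fin_cases c <;> fin_cases c'
  exacts [rfl, a01, a02, a01.symm, rfl, a12, a02.symm, a12.symm, rfl]

end Pool.Agent.Lib.MP_990519_co.D
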